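import Mathlib

/-!
# The graph measure on `Homeo([0,1]^d)` is not lower semicontinuous, `d ≥ 3` (helper638): statements

MP_ccb05f_an.  Every `S_X` is a task; a complete proof is in its docstring.  `ℝ^d` carries the sup
metric until the last step.

The idea: in dimension `d ≥ 3` a point can be moved along a segment by a homeomorphism which is the
identity outside a tube of radius `w`, and the graph over the tube has measure `O(w ^ (d - 2))`, so
finitely many points can be moved at no cost.  Starting with a finite set of points on the diagonal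
each of them is replaced by a fine grid in the range direction, each of the new points by a much
finer grid in the domain direction, and so on.  The limit is a homeomorphism whose graph contains a
large Cantor set.
-/

set_option autoImplicit false

open MeasureTheory Set Filter Topology
open scoped ENNReal NNReal

namespace Pool.Agent.H638.GM

/-- `ℝ^d` with the sup metric -/
abbrev V (d : ℕ) : Type := Fin d → ℝ

/-- the open unit cube -/
def U (d : ℕ) : Set (V d) := {x | ∀ i, 0 < x i ∧ x i < 1}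

/-- the closed unit cube -/
def Q (d : ℕ) : Set (V d) := {x | ∀ i, 0 ≤ x i ∧ x i ≤ 1}

/-- bi-Lipschitz homeomorphisms of `ℝ^d` which are the identity off `A` -/
def Good {d : ℕ} (A : Set (V d)) (f : V d ≃ₜ V d) : Prop :=
  (∃ K : ℝ≥0, LipschitzWith K f) ∧ (∃ K : ℝ≥0, LipschitzWith K f.symm) ∧ ∀ x, x ∉ A → f x = x

/-- the graph over the closed cube -/
def gr {d : ℕ} (f : V d ≃ₜ V d) : Set (V d × V d) := {p | p.1 ∈ Q d ∧ p.2 = f p.1}

/-- the graph over the set of the points which are moved -/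
def mv {d : ℕ} (f : V d ≃ₜ V d) : Set (V d × V d) := {p | p.2 = f p.1 ∧ p.2 ≠ p.1}

/-! ### Moving one point -/

/-- **ONE**.  A map which changes only the coordinate `i`.  `h` is Lipschitz with constant `1 + K`.
On each line in direction `e_i` the map `t ↦ t + η` is continuous with slopes `≥ c`, so it is a
bijection of `ℝ` (intermediate value theorem); so `h` is bijective.  For the inverse: if `h x = u`,
`h y = v`, then `x j = u j`, `y j = v j` for `j ≠ i`, and with `y' = ` `y` with the coordinate `i` replaced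
by `x i` one has `c |x i - y i| ≤ |(h y') i - (h y) i| ≤ |(h y') i - (h x) i| + |(h x) i - (h y) i|
≤ K ‖y' - x‖ + ‖u - v‖ ≤ (K + 1) ‖u - v‖`.  So the inverse is Lipschitz with constant
`max 1 ((K + 1) / c)`. -/
def S_ONE : Prop := ∀ (d : ℕ) (i : Fin d) (η : V d → ℝ) (K : ℝ≥0) (c : ℝ), LipschitzWith K η →
  0 < c → (∀ (x : V d) (t : ℝ), 0 ≤ t → -((1 - c) * t) ≤ η (x + Pi.single i t) - η x) →
  ∃ h : V d ≃ₜ V d, (∀ x, h x = x + Pi.single i (η x)) ∧ (∃ L : ℝ≥0, LipschitzWith L h) ∧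
    ∃ L : ℝ≥0, LipschitzWith L h.symm

/-- **COV**.  For `n ≥ 1` let `δ = 1 / (M n)`.  The box `[-1/M, 1+1/M] × [-1/M, 1/M]^(d-1)` (the first
factor is the coordinate `i`) is the union of `(M + 2) n * (2 n)^(d-1)` closed cubes of side `δ`.  On
each of them `x i + η x` differs by at most `(1 + 2 M) δ` from its value `v` at the lower corner, so
`[v - (2M+1) δ, v + (2M+1) δ]` is covered by `4 M + 2` closed intervals of length `δ`.  The parts of the
graph over the small cubes with `(p.2) i` in one of these intervals have diameter `≤ δ` (sup metric).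
`MeasureTheory.Measure.hausdorffMeasure_le_liminf_sum` (with the index type
`(Fin d → Fin ((M+2) * n)) × Fin (4 M + 2)`, or the subtype / product with the right bounds; one may
take the empty set for unused indices) gives
`(M+2) * 2^(d-1) * (4 M + 2) / M^d ≤ 3 M * 2^(d-1) * 6 M / M^d ≤ 9 * 2^d / M`. -/
def S_COV : Prop := ∀ (d : ℕ), 3 ≤ d → ∀ (i : Fin d) (M : ℕ), 1 ≤ M → ∀ (η : V d → ℝ),
  LipschitzWith (2 * (M : ℝ≥0)) η →
  μH[(d : ℝ)] {p : V d × V d | (-(1 / (M : ℝ)) ≤ p.1 i ∧ p.1 i ≤ 1 + 1 / (M : ℝ) ∧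
      ∀ j, j ≠ i → |p.1 j| ≤ 1 / (M : ℝ)) ∧ p.2 = p.1 + Pi.single i (η p.1)} ≤
    ENNReal.ofReal (9 * 2 ^ d / M)

/-- **TUB0** (given ONE, COV).  `w = 1 / M`.  Let `lam x = max 0 (1 - M * sup_{j ≠ i} |x j|)`,
`beta t = max 0 (min (1 + M t) ((1 + w - t) / (1 + w)))`, `η x = lam x * beta (x i)`.  Both factors are in
`[0, 1]` and `M`-Lipschitz, so `η` is `2 M`-Lipschitz; `lam` does not depend on `x i` and `beta` has
slopes `≥ -1 / (1 + w)`, so the condition of ONE holds with `c = w / (1 + w)`.  `η 0 = 1`, `0 ≤ η ≤ 1`,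
and `η x = 0` off the open box. -/
def S_TUB0 : Prop := ∀ (d : ℕ), 3 ≤ d → ∀ (i : Fin d) (M : ℕ), 1 ≤ M → ∃ h : V d ≃ₜ V d,
  Good {x | -(1 / (M : ℝ)) < x i ∧ x i < 1 + 1 / (M : ℝ) ∧ ∀ j, j ≠ i → |x j| < 1 / (M : ℝ)} h ∧
  h 0 = Pi.single i 1 ∧ (∀ x, ∃ t : ℝ, 0 ≤ t ∧ t ≤ 1 ∧ h x = x + Pi.single i t) ∧
  μH[(d : ℝ)] (mv h) ≤ ENNReal.ofReal (9 * 2 ^ d / M)

/-- **TUBE** (given TUB0).  If `p = q` take `h = id` (`mv h = ∅`).  Otherwise choose `i` with
`p i ≠ q i` and let `T x = p + x + x i • (q - p - e_i)`, an affine bijection with `T 0 = p`,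
`T e_i = q`, bi-Lipschitz.  For the `h_M` of TUB0 put `h = T ∘ h_M ∘ T⁻¹`; `T (x + t e_i) = T x + t (q - p)`,
so `dist (h x) x ≤ dist p q`.  A point of `T (box_M)` is at distance `≤ L / M` of the segment (replace
`x` by `x' = clamp (x i) e_i`), so `T (box_M) ⊆ O` for `M` large (`[p, q]` is compact:
`IsCompact.exists_thickening_subset_open`).  `mv h` is the image of `mv h_M` under
`T × T` (`L`-Lipschitz), so its measure is at most `L ^ d * 9 * 2 ^ d / M → 0`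
(`LipschitzWith.hausdorffMeasure_image_le`). -/
def S_TUBE : Prop := ∀ (d : ℕ), 3 ≤ d → ∀ (p q : V d) (O : Set (V d)), IsOpen O →
  segment ℝ p q ⊆ O → ∀ ε : ℝ≥0∞, 0 < ε → ∃ h : V d ≃ₜ V d, Good O h ∧ h p = q ∧
    (∀ x, dist (h x) x ≤ dist p q) ∧ μH[(d : ℝ)] (mv h) ≤ ε

/-! ### Moving finitely many points -/

/-- **GP** (general position of segments).  Induction over a finite subset `T` of `J`: adding `j`, choose
`p j` in the ball of radius `δ` about `a j`, outside the finitely many affine spans of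
`{p i, q i}`, `i ∈ T` (lines), and then `q j` in the ball about `b j`, outside the finitely many affine
spans of `{p j, p i, q i}` (planes).  Proper affine subspaces have Lebesgue measure zero
(`MeasureTheory.Measure.addHaar_affineSubspace`; the dimension of the span of three points is `≤ 2 < d`),
balls have positive measure.  If `z` belongs to both segments, then `z ≠ p j`, so `q j` is on the
line through `p j` and `z`, which is contained in the plane: contradiction. -/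
def S_GP : Prop := ∀ (d : ℕ), 3 ≤ d → ∀ (J : Type) [Fintype J] (a b : J → V d) (δ : ℝ), 0 < δ →
  ∃ p q : J → V d, (∀ j, dist (p j) (a j) ≤ δ) ∧ (∀ j, dist (q j) (b j) ≤ δ) ∧
    ∀ i j, i ≠ j → Disjoint (segment ℝ (p i) (q i)) (segment ℝ (p j) (q j))

/-- **MULTI** (given TUBE).  The segments are compact and pairwise disjoint, and contained in `U d`
(convex, open), so they have pairwise disjoint open neighbourhoods `O j ⊆ U d` (for instance
thickenings: finitely many compact sets have positive distances). Take the `h_j` of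
TUBE for `O j` and `ε / card J`; each `h_j` maps `O j` onto itself, and it is the identity elsewhere.
`h` is the composition of the `h_j` (induction over a finset, with the claim `h x = h_j x` for
`x ∈ O j` and `h x = x` for the other `x`).  `mv h` is contained in the union of the `mv h_j`.  If `J` is
empty `h = id`. -/
def S_MULTI : Prop := ∀ (d : ℕ), 3 ≤ d → ∀ (J : Type) [Fintype J] (p q : J → V d),
  (∀ j, p j ∈ U d) → (∀ j, q j ∈ U d) →
  (∀ i j, i ≠ j → Disjoint (segment ℝ (p i) (q i)) (segment ℝ (p j) (q j))) →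
  ∀ R : ℝ, 0 ≤ R → (∀ j, dist (p j) (q j) ≤ R) → ∀ ε : ℝ≥0∞, 0 < ε →
  ∃ h : V d ≃ₜ V d, Good (U d) h ∧ (∀ j, h (p j) = q j) ∧ (∀ x, dist (h x) x ≤ R) ∧
    μH[(d : ℝ)] (mv h) ≤ ε

/-- **COST**.  `(h.trans F) x = F (h x)`.  `gr (h.trans F)` is contained in the union of `gr F` (the points
`x ∈ Q` with `h x = x`) and of the image of `mv h` under `(x, y) ↦ (x, F y)`, which is Lipschitz with
constant `max 1 K` (`LipschitzWith.hausdorffMeasure_image_le`, `measure_union_le`). -/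
def S_COST : Prop := ∀ (d : ℕ) (F h : V d ≃ₜ V d) (K : ℝ≥0), LipschitzWith K F →
  μH[(d : ℝ)] (gr (h.trans F)) ≤
    μH[(d : ℝ)] (gr F) + ((max 1 K : ℝ≥0) : ℝ≥0∞) ^ (d : ℝ) * μH[(d : ℝ)] (mv h)

/-- **SWAP**.  `F` is the identity off `U d`, so it maps `Q d` onto `Q d`, and `gr F.symm` is the image of
`gr F` under `Prod.swap`, an isometry. -/
def S_SWAP : Prop := ∀ (d : ℕ) (F : V d ≃ₜ V d), (∀ x, x ∉ U d → F x = x) →
  μH[(d : ℝ)] (gr F.symm) = μH[(d : ℝ)] (gr F)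

/-- **STEP** (given GP, MULTI, COST).  `J = P × (Fin d → Fin m)`, `a (p, k) = p.1 + (s / m) k`,
`b (p, k) = p.1`; `F` is `K`-Lipschitz.  Choose `δ' > 0` with `2 δ' ≤ δ`, `K δ' ≤ δ`, `δ' < s`, apply GP
with `δ'`, and MULTI with `R = s + 2 δ'` and `ε' = ε / (max 1 K) ^ d` to the points `p j`, `q j` (they are
in `U d` because of the margins).  `ch p k = (p_j, F (q_j))`, `j = (p, k)` (`(0, 0)` or anything if
`p ∉ P` or `k` is too large).  COST gives the measure. -/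
def S_STEP : Prop := ∀ (d : ℕ), 3 ≤ d → ∀ (F : V d ≃ₜ V d), Good (U d) F →
  ∀ (P : Finset (V d × V d)), (∀ p ∈ P, p.2 = F p.1) → ∀ (s : ℝ) (m : ℕ), 0 < s → 1 ≤ m →
  (∀ p ∈ P, ∀ j, s < p.1 j ∧ p.1 j + 2 * s < 1) → ∀ δ : ℝ, 0 < δ → ∀ ε : ℝ≥0∞, 0 < ε →
  ∃ (h : V d ≃ₜ V d) (ch : V d × V d → (Fin d → ℕ) → V d × V d), Good (U d) h ∧
    (∀ x, dist (h x) x ≤ s + δ) ∧ μH[(d : ℝ)] (gr (h.trans F)) ≤ μH[(d : ℝ)] (gr F) + ε ∧
    ∀ p ∈ P, ∀ k : Fin d → ℕ, (∀ j, k j < m) → (ch p k).2 = F (h (ch p k).1) ∧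
      (∀ j, |(ch p k).1 j - (p.1 j + s / m * k j)| ≤ δ) ∧ ∀ j, |(ch p k).2 j - p.2 j| ≤ δ

/-! ### The recursion -/

/-- the start point number `i` (one coordinate) -/
noncomputable def st {d : ℕ} (N : ℕ) (i : Fin d → Fin N) : V d :=
  fun j => 1 / 4 + ((i j : ℕ) : ℝ) / (4 * N)

/-- The data of the construction.  In the step from `n` to `n + 1` the two coordinates are swapped:
`F (n + 1)` is the inverse of `F n ∘ h n`. -/
structure Data (d N : ℕ) (F : ℕ → V d ≃ₜ V d) (s : ℕ → ℝ) (m : ℕ → ℕ)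
    (P : ℕ → Set (V d × V d)) (ch : ℕ → V d × V d → (Fin d → ℕ) → V d × V d) : Prop where
  s0 : s 0 = 1 / 8
  P0 : ∀ i : Fin d → Fin N, (st N i, st N i) ∈ P 0
  sm : ∀ n, s (n + 1) = s n / m n
  m64 : ∀ n, 64 ≤ m n
  m0 : 64 * N ≤ m 0
  good : ∀ n, Good (U d) (F n)
  graph : ∀ n, ∀ p ∈ P n, p.2 = F n p.1
  child : ∀ n, ∀ p ∈ P n, ∀ k : Fin d → ℕ, (∀ j, k j < m n) → ch n p k ∈ P (n + 1) ∧
    (∀ j, |(ch n p k).1 j - p.2 j| ≤ s (n + 1) / 64) ∧
    ∀ j, |(ch n p k).2 j - (p.1 j + s (n + 1) * k j)| ≤ s (n + 1) / 64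
  close1 : ∀ n x, dist ((F (n + 1)).symm x) (F n x) ≤ 4 * (1 / 2 : ℝ) ^ n
  close2 : ∀ n x, dist (F (n + 1) x) ((F n).symm x) ≤ 4 * (1 / 2 : ℝ) ^ n
  meas : ∀ n, μH[(d : ℝ)] (gr (F n)) ≤ 2

/-- **REC** (given STEP, SWAP).  Recursion with the state `(F, P, s)`, `P` a finset, and the
invariants (at stage `n`): `Good (U d) F`; `p.2 = F p.1` for `p ∈ P`; `0 < s ≤ (1/8) (1/2)^n`;
`4 s ≤ p.1 j ≤ 1 - 4 s` and `4 s ≤ p.2 j ≤ 1 - 4 s` for `p ∈ P`... (with `<` where needed, at the start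
`1/4 ≤ st < 1/2`, `s = 1/8`: use `2 s ≤ p.1 j` and `p.1 j ≤ 1 - 4 s`, the lower margin `2 s` suffices); (OSC)
`dist x y ≤ 2 s → dist (F x) (F y) ≤ 3 (1/2)^n`; `μH (gr F) < 2` (at the start `gr id` is isometric to the
cube, of measure `1`: `MeasureTheory.hausdorffMeasure_pi_real`).
Step: let `K` be a Lipschitz constant of `F.symm`; choose `m ≥ 64`, `m ≥ 64 N` with
`2 K s / m ≤ (1/2)^(n+1)`, `s' = s / m`, `δ = s' / 64`, `ε > 0` with `μH (gr F) + ε < 2`; take `h`, `ch` from STEP;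
`F' = (h.trans F).symm`, the new child map is `(ch p k).swap`, `P'` the set of all these
(`p ∈ P`, `k j < m`, a finset).  Invariants: new margins `2 s' ≤ 2 s - δ`, `1 - 4 s + s + δ ≤ 1 - 4 s'`;
OSC: `dist (F' x) (F' y) = dist (h⁻¹ (F⁻¹ x)) (h⁻¹ (F⁻¹ y)) ≤ K (2 s') + 2 (s + δ) ≤ (1/2)^(n+1) + 4 s
≤ 2 (1/2)^(n+1)` because `dist (h⁻¹ u) u ≤ s + δ ≤ 2 s`; `μH (gr F') = μH (gr (h.trans F)) < 2` by SWAP.
close1: `F'.symm x = F (h x)`, `dist (h x) x ≤ 2 s`, OSC.  close2: `F' x = h⁻¹ (F⁻¹ x)`,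
`≤ s + δ ≤ 2 s`. -/
def S_REC : Prop := ∀ (d : ℕ), 3 ≤ d → ∀ N : ℕ, 1 ≤ N → ∃ (F : ℕ → V d ≃ₜ V d) (s : ℕ → ℝ)
  (m : ℕ → ℕ) (P : ℕ → Set (V d × V d)) (ch : ℕ → V d × V d → (Fin d → ℕ) → V d × V d),
  Data d N F s m P ch

/-- **LIM** (limit of the homeomorphisms).  `G n` and `(G n).symm` are uniformly Cauchy
(`∑_{i ≥ n} 4 (1/2)^i = 8 (1/2)^n`), the limits `f`, `g` are continuous
(`TendstoUniformly.continuous`), and `f (g y) = y`: `dist (f (g y)) y = dist (f (g y)) (G n ((G n).symm y))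
≤ dist (f (g y)) (f ((G n).symm y)) + 8 (1/2)^n → 0`; in the same way `g (f x) = x`. -/
def S_LIM : Prop := ∀ (d : ℕ) (G : ℕ → V d ≃ₜ V d), (∀ n x, x ∉ U d → G n x = x) →
  (∀ n x, dist (G (n + 1) x) (G n x) ≤ 4 * (1 / 2 : ℝ) ^ n) →
  (∀ n x, dist ((G (n + 1)).symm x) ((G n).symm x) ≤ 4 * (1 / 2 : ℝ) ^ n) →
  ∃ f : V d ≃ₜ V d, (∀ x, x ∉ U d → f x = x) ∧ ∀ n x, dist (G n x) (f x) ≤ 8 * (1 / 2 : ℝ) ^ n

/-! ### The lower bound -/

/-- swap in the odd stages -/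
def sw {d : ℕ} (n : ℕ) (p : V d × V d) : V d × V d := if Even n then p else p.swap

/-- inverse in the odd stages -/
def par {d : ℕ} (F : ℕ → V d ≃ₜ V d) (n : ℕ) : V d ≃ₜ V d := if Even n then F n else (F n).symm

/-- the branch with the digits `a` -/
def br {d : ℕ} (ch : ℕ → V d × V d → (Fin d → ℕ) → V d × V d) (p : V d × V d)
    (a : ℕ → Fin d → ℕ) : ℕ → V d × V d
  | 0 => p
  | n + 1 => ch n (br ch p a n) (a n)

/-- **TAIL** (real sequences only).  Let `b n = br ch p a n ∈ P n`.  `b (n+1)` is within `s (n+1) / 64` of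
`(b n).2` in the first coordinate and within `s (n+1) / 64 + s (n+1) (m n - 1) ≤ s n` of `(b n).1` in the
second one, so the sequence `sw n (b n)` is Cauchy; let `z` be its limit.  With
`T1 n = ‖(sw n z).1 - (b n).1‖`, `T2 n = ‖(sw n z).2 - (b n).2‖` one has `T1 n ≤ s n + T2 (n+1)`,
`T2 n ≤ s (n+1) / 64 + T1 (n+1)`; summing up (`s (n+1) ≤ s n / 64`, so e.g. the distance of `z`
from `sw n (b n)` tends to zero and `T1 n + 2 T2 n ≤ ...`) `T1 n ≤ (65/64) s n` and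
`T2 n ≤ (66/64) s (n+1)`. -/
def S_TAIL : Prop := ∀ (d N : ℕ) (F : ℕ → V d ≃ₜ V d) (s : ℕ → ℝ)
  (m : ℕ → ℕ) (P : ℕ → Set (V d × V d)) (ch : ℕ → V d × V d → (Fin d → ℕ) → V d × V d),
  Data d N F s m P ch → ∀ p ∈ P 0, ∀ a : ℕ → Fin d → ℕ, (∀ n j, a n j < m n) →
  (∀ n, br ch p a n ∈ P n) ∧ ∃ z : V d × V d,
    Tendsto (fun n => sw n (br ch p a n)) atTop (𝓝 z) ∧
    (∀ n j, |(sw n z).1 j - (br ch p a n).1 j| ≤ 2 * s n) ∧
    ∀ n j, |(sw n z).2 j - (br ch p a n).2 j| ≤ 2 * s (n + 1)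

/-- **DIG** (mixed radix digits).  `r 0 = t`, `dg n = min ⌊m n * r n⌋ (m n - 1)`,
`r (n+1) = m n * r n - dg n ∈ [0, 1]`.  If the digits below `n` agree, then
`t - t' = (r n - r' n) / ∏_{i < n} m i` and `m n * (r n - r' n) = dg n - dg' n + r (n+1) - r' (n+1)`. -/
def S_DIG : Prop := ∀ m : ℕ → ℕ, (∀ n, 1 ≤ m n) → ∃ dg : ℝ → ℕ → ℕ,
  (∀ t : ℝ, 0 ≤ t → t ≤ 1 → ∀ n, dg t n < m n) ∧
  ∀ t t' : ℝ, 0 ≤ t → t ≤ 1 → 0 ≤ t' → t' ≤ 1 → ∀ n, (∀ i < n, dg t i = dg t' i) →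
    |t - t'| * ∏ i ∈ Finset.range (n + 1), (m i : ℝ) ≤ |(dg t n : ℝ) - (dg t' n : ℝ)| + 1

/-- **ANTI** (given TAIL, DIG).  For `p = (st N i, st N i)` and `t ∈ Q d` let `a n j = dg (t j) n` and
let `z t` be the limit of TAIL.  Suppose that `t ≠ t'`; then the digits differ somewhere (if all digits of
`t j`, `t' j` agree, `|t j - t' j| * 64^(n+1) ≤ 1` for all `n`); let `n` be minimal with
`a n ≠ a' n`, and `D = max_j |a n j - a' n j| ≥ 1`.  Then `|t j - t' j| * ∏_{i ≤ n} m i ≤ D + 1`,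
i.e. `|t j - t' j| / 8 ≤ s (n+1) (D + 1)`; and `br` agree at `n`, so the second coordinates of
`br` at `n + 1` differ at some `j` by at least `s (n+1) (D - 2 / 64)`, so
`dist (z t) (z t') ≥ s (n+1) (D - 2/64) - 4 s (n+2) ≥ s (n+1) (D - 1/8) ≥ (7/16) s (n+1) (D + 1)`; so
`dist t t' ≤ 8 * 16/7 * dist (z t) (z t')`.
`z t` is on the graph of `f`: `par F n → f` uniformly, `(sw n b).2 = par F n (sw n b).1` for
`b = br ch p a n`.  `|(z t).1 j - st N i j| ≤ 2 s 0 = 1/4` gives `(z t).1 ∈ Q d`, and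
`|(z t).2 j - st N i j| ≤ 2 s 1 ≤ 2 / (8 * 64 N)`. -/
def S_ANTI : Prop := ∀ (d N : ℕ) (F : ℕ → V d ≃ₜ V d) (s : ℕ → ℝ)
  (m : ℕ → ℕ) (P : ℕ → Set (V d × V d)) (ch : ℕ → V d × V d → (Fin d → ℕ) → V d × V d),
  1 ≤ N → Data d N F s m P ch → ∀ f : V d ≃ₜ V d,
  (∀ n x, dist (par F n x) (f x) ≤ 8 * (1 / 2 : ℝ) ^ n) → ∀ i : Fin d → Fin N,
  ∃ z : V d → V d × V d, (∀ t ∈ Q d, z t ∈ gr f ∧ ∀ j, |(z t).2 j - st N i j| ≤ 1 / (16 * N)) ∧
    ∀ t ∈ Q d, ∀ t' ∈ Q d, dist t t' ≤ 32 * dist (z t) (z t')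

/-- **LOW** (given ANTI).  The measure of `Q d` is `1` (`hausdorffMeasure_pi_real`, volume of the cube;
`Q d = Icc 0 1`), so `1 ≤ 32 ^ d * μH (gr f ∩ B i)` for the closed sets
`B i = {p | ∀ j, |p.2 j - st N i j| ≤ 1 / (16 N)}` (`AntilipschitzWith.le_hausdorffMeasure_image` for the
restriction of `z` to the subtype `Q d`, or the inverse map on the image:
`LipschitzOnWith.hausdorffMeasure_image_le` for a left inverse of `z` on `z '' Q d`, which is
`32`-Lipschitz there).  The `B i` are pairwise disjoint (`st` values differ by `≥ 1 / (4 N)`), so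
`∑_i μH (gr f ∩ B i) ≤ μH (gr f)`, and there are `N ^ d` of them. -/
def S_LOW : Prop := ∀ (d N : ℕ) (F : ℕ → V d ≃ₜ V d) (s : ℕ → ℝ)
  (m : ℕ → ℕ) (P : ℕ → Set (V d × V d)) (ch : ℕ → V d × V d → (Fin d → ℕ) → V d × V d),
  1 ≤ N → Data d N F s m P ch → ∀ f : V d ≃ₜ V d,
  (∀ n x, dist (par F n x) (f x) ≤ 8 * (1 / 2 : ℝ) ^ n) →
  (N : ℝ≥0∞) ^ d ≤ 32 ^ d * μH[(d : ℝ)] (gr f)

/-! ### Euclidean metric -/

/-- the closed unit cube of the Euclidean space `ℝ^d` -/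
def Cube (d : ℕ) : Set (EuclideanSpace ℝ (Fin d)) := {x | ∀ i, 0 ≤ x i ∧ x i ≤ 1}

/-- the graph of a homeomorphism of the cube, in the Euclidean space `ℝ^{2d}` -/
def graph {d : ℕ} (f : Cube d ≃ₜ Cube d) : Set (EuclideanSpace ℝ (Fin d ⊕ Fin d)) :=
  {p | ∃ x : Cube d, (∀ i, p (Sum.inl i) = (x : EuclideanSpace ℝ (Fin d)) i) ∧
    ∀ i, p (Sum.inr i) = (f x : EuclideanSpace ℝ (Fin d)) i}

/-- **EUC**.  `f` maps `Q d` onto `Q d`; restrict it.  The map
`p ↦ (fun i => p (inl i), fun i => p (inr i))` from the Euclidean space to `V d × V d` is a bijection,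
`1`-Lipschitz, its inverse is `2 d`-Lipschitz, and it maps `graph f'` onto `gr f`. -/
def S_EUC : Prop := ∀ (d : ℕ), 1 ≤ d → ∀ (f : V d ≃ₜ V d), (∀ x, x ∉ U d → f x = x) →
  ∃ f' : Cube d ≃ₜ Cube d,
    (∀ (x : Cube d) (i : Fin d), (f' x : EuclideanSpace ℝ (Fin d)) i =
      f (fun j => (x : EuclideanSpace ℝ (Fin d)) j) i) ∧
    μH[(d : ℝ)] (gr f) ≤ μH[(d : ℝ)] (graph f') ∧
    μH[(d : ℝ)] (graph f') ≤ (2 * (d : ℝ≥0∞)) ^ d * μH[(d : ℝ)] (gr f)

/-- **Final statement**: for every `d ≥ 3` the graph measure is not lower semicontinuous. -/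
def S_FIN : Prop := ∀ (d : ℕ), 3 ≤ d → ∃ (c : ℝ) (f : Cube d ≃ₜ Cube d),
  ENNReal.ofReal c < μH[(d : ℝ)] (graph f) ∧ ∀ ε : ℝ, 0 < ε → ∃ g : Cube d ≃ₜ Cube d,
    (∀ x, dist (f x) (g x) < ε) ∧ μH[(d : ℝ)] (graph g) ≤ ENNReal.ofReal c

end Pool.Agent.H638.GM
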