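import Mathlib
import Pool.Agent.H638.GM.Stm

/-!
# Infinite graph measure (gluing), and the dimension two (helper638): statements

Part 1: countably many scaled copies are glued, so that the limit homeomorphism has infinite graph
measure.  Part 2: for `d = 2` the graph measure is lower semicontinuous up to a constant factor.
-/

set_option autoImplicit false

open MeasureTheory Set Filter Topology
open scoped ENNReal NNReal

namespace Pool.Agent.H638.GM

/-! ### Gluing -/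

/-- the side of the cube number `k` -/
noncomputable def lam (k : ℕ) : ℝ := (1 / 2 : ℝ) ^ (k + 1)

/-- the lower corner of the cube number `k` -/
noncomputable def ctr {d : ℕ} (k : ℕ) : V d := fun j => if (j : ℕ) = 0 then 1 - (1 / 2 : ℝ) ^ k else 0

/-- the map of the unit cube onto the cube number `k` -/
noncomputable def emb {d : ℕ} (k : ℕ) (x : V d) : V d := ctr k + lam k • x

/-- `G` acts as `f k` on the cube number `k` and is the identity elsewhere -/
def Glued {d : ℕ} (f : ℕ → V d ≃ₜ V d) (G : V d ≃ₜ V d) : Prop :=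
  (∀ k, ∀ x ∈ U d, G (emb k x) = emb k (f k x)) ∧
    ∀ x, (∀ k, ∀ u ∈ U d, x ≠ emb k u) → G x = x

/-- **GLUE**.  The cubes `C k = emb k '' U d` are open, pairwise disjoint (the first coordinates are in
the intervals `(1 - (1/2)^k, 1 - (1/2)^(k+1))`) and contained in `U d`.  `f k` maps `U d` onto
`U d`, so `G` (defined by cases) is a bijection with inverse obtained from the inverses of the `f k`.
Continuity (of `G`, and in the same way of the inverse): the map
`G_k = emb k ∘ f k ∘ (emb k)⁻¹` is a homeomorphism of `V d` which is the identity off `C k`; the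
composition `H_K` of `G_0, ..., G_(K-1)` agrees with `G` except on the `C k`, `k ≥ K`, where
`dist (G x) x ≤ lam k ≤ (1/2)^K` (both points are in the cube `C k` of side `lam k`); so
`H_K → G` uniformly, and uniform limits of continuous maps are continuous. -/
def S_GLUE : Prop := ∀ d : ℕ, 1 ≤ d → ∀ f : ℕ → V d ≃ₜ V d, (∀ k x, x ∉ U d → f k x = x) →
  ∃ G : V d ≃ₜ V d, Glued f G

/-- **GUP**.  `gr G` is the union of a subset of the diagonal of `Q d` (measure at most `1`:
`x ↦ (x, x)` is `1`-Lipschitz, `hausdorffMeasure_pi_real`, the volume of `Q d = Icc 0 1` is `1`)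
and of subsets of the images of `gr (f k)` under `emb k × emb k`, which is `lam k`-Lipschitz. -/
def S_GUP : Prop := ∀ d : ℕ, 1 ≤ d → ∀ f : ℕ → V d ≃ₜ V d, (∀ k x, x ∉ U d → f k x = x) →
  ∀ G : V d ≃ₜ V d, Glued f G →
  μH[(d : ℝ)] (gr G) ≤ 1 + ∑' k, ENNReal.ofReal (lam k) ^ d * μH[(d : ℝ)] (gr (f k))

/-- **GLO**.  `gr f ∩ {p | p.1 ∈ U d}` has the same measure as `gr f` (the rest is
`{(x, x) | x ∈ Q d \ U d}`, of measure at most the volume of `Q d \ U d`, zero).  Its image under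
`emb k × emb k` has `lam k ^ d` times its measure (the inverse is `1 / lam k`-Lipschitz) and is contained
in `gr G ∩ {p | p.1 ∈ C k}`; the sets `{p | p.1 ∈ C k}` are open and pairwise disjoint. -/
def S_GLO : Prop := ∀ d : ℕ, 1 ≤ d → ∀ f : ℕ → V d ≃ₜ V d, (∀ k x, x ∉ U d → f k x = x) →
  ∀ G : V d ≃ₜ V d, Glued f G →
  ∑' k, ENNReal.ofReal (lam k) ^ d * μH[(d : ℝ)] (gr (f k)) ≤ μH[(d : ℝ)] (gr G)

/-- **Final statement, dimension at least three.** -/
def S_INF : Prop := ∀ (d : ℕ), 3 ≤ d → ∃ f : Cube d ≃ₜ Cube d, μH[(d : ℝ)] (graph f) = ⊤ ∧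
  ∃ c : ℝ, ∀ ε : ℝ, 0 < ε → ∃ g : Cube d ≃ₜ Cube d,
    (∀ x, dist (f x) (g x) < ε) ∧ μH[(d : ℝ)] (graph g) ≤ ENNReal.ofReal c

/-! ### Dimension two -/

/-- the graph of a homeomorphism of the closed square (sup metric) -/
def gq (g : Q 2 ≃ₜ Q 2) : Set (V 2 × V 2) := {p | ∃ x : Q 2, p = ((x : V 2), (g x : V 2))}

/-- **CIRC**.  Let `σ j = ±1` with `x j + σ j ρ ∈ [0, 1]` (possible since `ρ < 1/2`) and
`c = (x 0 + σ 0 ρ, x 1 + σ 1 ρ)`.  A point of the set is on one of the four sides of the square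
`{y | dist y x = ρ}`; if it is on a side through `c` the segment to `c` is in the set; otherwise it is
on the side `y 0 = x 0 - σ 0 ρ` (or the same with `1`): the segment to `(x 0 - σ 0 ρ, x 1 + σ 1 ρ)` and
then the segment to `c` are in the set.  So every point is joined to `c` by a path in the set
(`IsPathConnected`/`JoinedIn` or unions of preconnected sets through `c`).
Two points at distance `≥ ρ`: `c` and `(x 0 + σ 0 ρ, x 1)`. -/
def S_CIRC : Prop := ∀ x ∈ Q 2, ∀ ρ : ℝ, 0 < ρ → ρ < 1 / 2 →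
  IsPreconnected {y : V 2 | y ∈ Q 2 ∧ dist y x = ρ} ∧
  ∃ a ∈ Q 2, dist a x = ρ ∧ ∃ b ∈ Q 2, dist b x = ρ ∧ ρ ≤ dist a b

/-- **LBC** (given CIRC).  `Sρ = {y ∈ Q | dist y x = ρ}`.
Case 1: there is `ρ ∈ (r/2, r)` such that `dist (g y) (g x) ≥ r/2` for all `y ∈ Sρ`.  The set
`W = Q ∩ ball (g x) (r/2)` is convex, so `g⁻¹ W` is connected, contains `x` and does not meet `Sρ`, so it is
contained in `{y | dist y x < ρ}`.  So every `w ∈ W` is the second coordinate of a point of the set on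
the left hand side, so `volume W ≤ ∑ volume (snd '' t i) ≤ ∑ diam (t i)^2`
(`Real.volume_pi_le_diam_pow`), and `volume W ≥ (r/2)^2` (a product of two intervals of length
`≥ r/2`).
Case 2: for every `ρ ∈ (r/2, r)` there is `a ∈ Sρ` with `dist (g a) (g x) < r/2`.  Claim:
`∑_{i : ρ ∈ J i} diam (t i) ≥ r/2` where `J i = φ '' t i`, `φ p = dist p.1 x`.  If
`dist (g y) (g x) ≤ r` for all `y ∈ Sρ`: let `a, b ∈ Sρ` with `dist a b ≥ ρ`; the function
`dist y a` takes on the connected set `Sρ` all the values in `[0, ρ]`, and the points `(y, g y)`,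
`y ∈ Sρ`, are covered, so `[0, ρ] ⊆ ⋃_{i : ρ ∈ J i} {dist p.1 a | p ∈ t i}`, sets of outer measure at
most `diam (t i)`.  Otherwise the function `dist (g y) (g x)` takes on `Sρ` all the values in
`[r/2, r]`, and the points with value `≤ r` are covered: the same with `dist p.2 (g x)`.
Then integrate: with the measurable hulls of the `J i`,
`(r/2) (r/2) ≤ ∫⁻ ρ in (r/2, r), ∑' i, diam (t i) * 1_{J i} ≤ ∑' i, diam (t i) * diam (t i)`
(`lintegral_tsum`, `Real.volume_le_diam`). -/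
def S_LBC : Prop := ∀ (g : Q 2 ≃ₜ Q 2) (x : Q 2) (r : ℝ), 0 < r → r ≤ 1 / 2 →
  ∀ t : ℕ → Set (V 2 × V 2), {p | p ∈ gq g ∧ dist p ((x : V 2), (g x : V 2)) ≤ r} ⊆ ⋃ i, t i →
  ENNReal.ofReal (r ^ 2 / 4) ≤ ∑' i, Metric.ediam (t i) ^ 2

/-- **LBM** (given LBC).  `MeasureTheory.Measure.hausdorffMeasure_apply`. -/
def S_LBM : Prop := ∀ (g : Q 2 ≃ₜ Q 2) (x : Q 2) (r : ℝ), 0 < r → r ≤ 1 / 2 →
  ENNReal.ofReal (r ^ 2 / 4) ≤
    μH[(2 : ℝ)] {p | p ∈ gq g ∧ dist p ((x : V 2), (g x : V 2)) ≤ r}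

/-- **QLS** (given LBM).  For `0 < δ ≤ 1` let `N δ` be the cardinality of a maximal `δ`-separated
subset of the compact set `gq f` (pairwise distances `≥ δ`); the closed balls of radius `δ` about its points
cover `gq f` and have diameter `≤ 2 δ`.  If `N δ * (2 δ)^2 ≤ 256 c` for all small `δ` (or for a sequence
`δ → 0`) then `μH (gq f) ≤ 256 c` (`hausdorffMeasure_le_liminf_sum`).  So there is `δ ≤ 1` with
`256 c < 4 N δ^2`.  Take `ε = δ / 8`.  If `p_i = (x_i, f x_i)` are the points, `p_i' = (x_i, g x_i)`, the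
closed balls of radius `δ / 4` about the `p_i'` are pairwise disjoint
(`dist p_i' p_j' ≥ δ - δ/4 > δ/2`), so `μH (gq g) ≥ N (δ/4)^2 / 4 > c` by LBM. -/
def S_QLS : Prop := ∀ (f : Q 2 ≃ₜ Q 2) (c : ℝ≥0∞), 256 * c < μH[(2 : ℝ)] (gq f) →
  ∃ ε : ℝ, 0 < ε ∧ ∀ g : Q 2 ≃ₜ Q 2, (∀ x, dist (f x) (g x) < ε) → c < μH[(2 : ℝ)] (gq g)

/-- **TWO** (given QLS).  The bijection `x ↦ (fun j => x j)` of `Cube 2` onto `Q 2` conjugates `f` to a
homeomorphism `f'` of `Q 2`; the map `p ↦ (fun i => p (inl i), fun i => p (inr i))` from the Euclidean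
space to `V 2 × V 2` is `1`-Lipschitz with `4`-Lipschitz inverse and maps `graph f` onto `gq f'`; so
`μH (gq f') ≤ μH (graph f) ≤ 16 μH (gq f')` (compare the proof of S_EUC in
`Pool/Agent/H638/GM/Euc.lean`, namespace `Pool.Agent.H400.GMEUC`). -/
def S_TWO : Prop := ∀ (f : Cube 2 ≃ₜ Cube 2) (c : ℝ≥0∞), 4096 * c < μH[(2 : ℝ)] (graph f) →
  ∃ ε : ℝ, 0 < ε ∧ ∀ g : Cube 2 ≃ₜ Cube 2, (∀ x, dist (f x) (g x) < ε) →
    c < μH[(2 : ℝ)] (graph g)

end Pool.Agent.H638.GM
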