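import Pool.Agent.H638.GM.Stm

set_option autoImplicit false

/-!
GM ANTI (MP_ccb05f_an, helper638): an expanding map of the cube into the graph.
-/

open MeasureTheory Set Filter Topology
open scoped ENNReal NNReal

namespace Pool.Agent.H726.GMANTI

open Pool.Agent.H638.GM

variable {d N : ℕ} {F : ℕ → V d ≃ₜ V d} {s : ℕ → ℝ} {m : ℕ → ℕ} {P : ℕ → Set (V d × V d)}
  {ch : ℕ → V d × V d → (Fin d → ℕ) → V d × V d}

theorem m_pos (h : Data d N F s m P ch) (n : ℕ) : (64 : ℝ) ≤ (m n : ℝ) := by
  exact_mod_cast h.m64 n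

theorem s_pos (h : Data d N F s m P ch) (n : ℕ) : 0 < s n := by
  induction n with
  | zero => rw [h.s0]; norm_num
  | succ n ih =>
    rw [h.sm]
    have := m_pos h n
    exact div_pos ih (by linarith)

theorem s_le (h : Data d N F s m P ch) (n : ℕ) : s (n + 1) ≤ s n / 64 := by
  rw [h.sm]
  have h1 := m_pos h n
  have h2 := s_pos h n
  exact div_le_div_of_nonneg_left h2.le (by norm_num) h1

theorem s_prod (h : Data d N F s m P ch) (n : ℕ) :
    s n * ∏ i ∈ Finset.range n, (m i : ℝ) = 1 / 8 := by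
  induction n with
  | zero => rw [Finset.range_zero, Finset.prod_empty, mul_one, h.s0]
  | succ n ih =>
    rw [Finset.prod_range_succ, h.sm]
    have h1 := m_pos h n
    have h2 : (m n : ℝ) ≠ 0 := by positivity
    rw [← ih]
    field_simp

theorem prod_ge (h : Data d N F s m P ch) (n : ℕ) :
    (64 : ℝ) ^ n ≤ ∏ i ∈ Finset.range n, (m i : ℝ) := by
  induction n with
  | zero => simp
  | succ n ih =>
    rw [Finset.prod_range_succ, pow_succ]
    exact mul_le_mul ih (m_pos h n) (by norm_num) (le_trans (by positivity) ih)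

/-- the branch depends only on the digits below -/
theorem br_congr (p : V d × V d) (a a' : ℕ → Fin d → ℕ) (n : ℕ)
    (haa : ∀ i < n, a i = a' i) : br ch p a n = br ch p a' n := by
  induction n with
  | zero => rfl
  | succ n ih =>
    have h1 := ih fun i hi => haa i (by omega)
    have h2 := haa n (by omega)
    show ch n (br ch p a n) (a n) = ch n (br ch p a' n) (a' n)
    rw [h1, h2]

theorem sw_zero (p : V d × V d) : sw 0 p = p := by
  unfold sw
  rw [if_pos (by simp)]

/-- `par F n` maps the first coordinate of `sw n b` to the second one -/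
theorem par_sw (h : Data d N F s m P ch) (n : ℕ) (b : V d × V d) (hb : b ∈ P n) :
    par F n (sw n b).1 = (sw n b).2 := by
  have hg := h.graph n b hb
  unfold par sw
  by_cases he : Even n
  · rw [if_pos he, if_pos he]
    exact hg.symm
  · rw [if_neg he, if_neg he]
    show (F n).symm b.2 = b.1
    rw [hg]
    exact (F n).symm_apply_apply b.1

/-- distances of second coordinates of swapped points -/
theorem sw_dist (n : ℕ) (z z' : V d × V d) (j : Fin d) :
    |(sw n z).2 j - (sw n z').2 j| ≤ dist z z' := by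
  unfold sw
  by_cases he : Even n
  · rw [if_pos he, if_pos he]
    have h1 : dist (z.2 j) (z'.2 j) ≤ dist z.2 z'.2 := dist_le_pi_dist _ _ _
    have h2 : dist z.2 z'.2 ≤ dist z z' := by
      rw [Prod.dist_eq]; exact le_max_right _ _
    rw [Real.dist_eq] at h1
    exact h1.trans h2
  · rw [if_neg he, if_neg he]
    have h1 : dist (z.1 j) (z'.1 j) ≤ dist z.1 z'.1 := dist_le_pi_dist _ _ _
    have h2 : dist z.1 z'.1 ≤ dist z z' := by
      rw [Prod.dist_eq]; exact le_max_left _ _
    rw [Real.dist_eq] at h1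
    exact h1.trans h2

/-- the main estimate -/
theorem anti (h : Data d N F s m P ch) (dg : ℝ → ℕ → ℕ)
    (hdg : ∀ t : ℝ, 0 ≤ t → t ≤ 1 → ∀ n, dg t n < m n)
    (hdg' : ∀ t t' : ℝ, 0 ≤ t → t ≤ 1 → 0 ≤ t' → t' ≤ 1 → ∀ n, (∀ i < n, dg t i = dg t' i) →
      |t - t'| * ∏ i ∈ Finset.range (n + 1), (m i : ℝ) ≤ |(dg t n : ℝ) - (dg t' n : ℝ)| + 1)
    (p : V d × V d) (t t' : V d) (ht : t ∈ Q d) (ht' : t' ∈ Q d) (z z' : V d × V d)
    (hP : ∀ n, br ch p (fun n j => dg (t j) n) n ∈ P n)
    (hz : ∀ n j, |(sw n z).2 j - (br ch p (fun n j => dg (t j) n) n).2 j| ≤ 2 * s (n + 1))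
    (hz' : ∀ n j, |(sw n z').2 j - (br ch p (fun n j => dg (t' j) n) n).2 j| ≤ 2 * s (n + 1)) :
    dist t t' ≤ 32 * dist z z' := by
  classical
  by_cases hall : ∀ n j, dg (t j) n = dg (t' j) n
  · -- all digits agree
    have h0 : t = t' := by
      funext j
      by_contra hne
      have hpos : 0 < |t j - t' j| := abs_pos.2 (sub_ne_zero.2 hne)
      obtain ⟨n, hn⟩ := pow_unbounded_of_one_lt (1 / |t j - t' j|) (by norm_num : (1 : ℝ) < 64)
      have h1 := hdg' (t j) (t' j) (ht j).1 (ht j).2 (ht' j).1 (ht' j).2 n fun i _ => hall i j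
      rw [hall n j, sub_self, abs_zero, zero_add] at h1
      have h2 := prod_ge h (n + 1)
      have h3 : (64 : ℝ) ^ n ≤ 64 ^ (n + 1) := pow_le_pow_right₀ (by norm_num) (Nat.le_succ n)
      have h4 : 1 / |t j - t' j| < ∏ i ∈ Finset.range (n + 1), (m i : ℝ) := by linarith
      rw [div_lt_iff₀ hpos] at h4
      rw [mul_comm] at h4
      linarith
    rw [h0, dist_self]
    have : 0 ≤ dist z z' := dist_nonneg
    linarith
  · push Not at hall
    set n := Nat.find hall with hn
    obtain ⟨j1, hj1⟩ := Nat.find_spec hall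
    rw [← hn] at hj1
    have hlow : ∀ i < n, ∀ j, dg (t j) i = dg (t' j) i := by
      intro i hi j
      have := Nat.find_min hall hi
      push Not at this
      exact this j
    obtain ⟨j0, _, hj0⟩ := Finset.exists_max_image (Finset.univ : Finset (Fin d))
      (fun j => |(dg (t j) n : ℝ) - (dg (t' j) n : ℝ)|) ⟨j1, Finset.mem_univ _⟩
    set D := |(dg (t j0) n : ℝ) - (dg (t' j0) n : ℝ)| with hD
    have hD1 : 1 ≤ D := by
      refine le_trans ?_ (hj0 j1 (Finset.mem_univ _))
      have h1 : ((dg (t j1) n : ℤ) - (dg (t' j1) n : ℤ)) ≠ 0 := by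
        intro h0
        apply hj1
        omega
      have h2 : 1 ≤ |((dg (t j1) n : ℤ) - (dg (t' j1) n : ℤ))| := Int.one_le_abs h1
      exact_mod_cast h2
    have hs := s_pos h (n + 1)
    have hprod := s_prod h (n + 1)
    have hup : ∀ j, |t j - t' j| ≤ 8 * s (n + 1) * (D + 1) := by
      intro j
      have h1 := hdg' (t j) (t' j) (ht j).1 (ht j).2 (ht' j).1 (ht' j).2 n
        fun i hi => hlow i hi j
      have h2 := hj0 j (Finset.mem_univ _)
      have h3 : |t j - t' j| * ∏ i ∈ Finset.range (n + 1), (m i : ℝ) ≤ D + 1 := by linarith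
      have h4 : s (n + 1) * (|t j - t' j| * ∏ i ∈ Finset.range (n + 1), (m i : ℝ)) ≤
          s (n + 1) * (D + 1) := mul_le_mul_of_nonneg_left h3 hs.le
      have h5 : s (n + 1) * (|t j - t' j| * ∏ i ∈ Finset.range (n + 1), (m i : ℝ)) =
          |t j - t' j| * (s (n + 1) * ∏ i ∈ Finset.range (n + 1), (m i : ℝ)) := by ring
      rw [h5, hprod] at h4
      linarith
    have hdist : dist t t' ≤ 8 * s (n + 1) * (D + 1) := by
      rw [dist_pi_le_iff (by positivity)]
      intro j
      rw [Real.dist_eq]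
      exact hup j
    -- the lower bound
    have hbr : br ch p (fun n j => dg (t j) n) n = br ch p (fun n j => dg (t' j) n) n :=
      br_congr p _ _ n fun i hi => funext fun j => hlow i hi j
    set b := br ch p (fun n j => dg (t j) n) n with hb
    have hc1 := (h.child n b (hP n) (fun j => dg (t j) n)
      (fun j => hdg _ (ht j).1 (ht j).2 n)).2.2 j0
    have hc2 := (h.child n b (hP n) (fun j => dg (t' j) n)
      (fun j => hdg _ (ht' j).1 (ht' j).2 n)).2.2 j0
    have hz1 := hz (n + 1) j0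
    have hz2 := hz' (n + 1) j0
    have e1 : br ch p (fun n j => dg (t j) n) (n + 1) = ch n b (fun j => dg (t j) n) := rfl
    have e2 : br ch p (fun n j => dg (t' j) n) (n + 1) = ch n b (fun j => dg (t' j) n) := by
      show ch n (br ch p (fun n j => dg (t' j) n) n) (fun j => dg (t' j) n) = _
      rw [← hbr]
    rw [e1] at hz1
    rw [e2] at hz2
    have hsn := s_le h (n + 1)
    have hkey := sw_dist (n + 1) z z' j0
    -- numbers
    generalize (sw (n + 1) z).2 j0 = u at hz1 hkey
    generalize (sw (n + 1) z').2 j0 = u' at hz2 hkey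
    generalize (ch n b fun j => dg (t j) n).2 j0 = v at hz1 hc1
    generalize (ch n b fun j => dg (t' j) n).2 j0 = v' at hz2 hc2
    have hlowD : s (n + 1) * D ≤ |u - u'| + s (n + 1) * (3 / 32) := by
      have h1 : s (n + 1) * D = |s (n + 1) * ((dg (t j0) n : ℝ) - (dg (t' j0) n : ℝ))| := by
        rw [abs_mul, abs_of_pos hs]
      have h2 : s (n + 1) * ((dg (t j0) n : ℝ) - (dg (t' j0) n : ℝ)) =
          (u - u') - (u - v) + (u' - v') - (v - (b.1 j0 + s (n + 1) * (dg (t j0) n : ℝ))) +
            (v' - (b.1 j0 + s (n + 1) * (dg (t' j0) n : ℝ))) := by ring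
      rw [h1, h2]
      have h3 := abs_add_le ((u - u') - (u - v) + (u' - v') -
        (v - (b.1 j0 + s (n + 1) * (dg (t j0) n : ℝ)))) (v' - (b.1 j0 + s (n + 1) * (dg (t' j0) n : ℝ)))
      have h4 := abs_sub ((u - u') - (u - v) + (u' - v'))
        (v - (b.1 j0 + s (n + 1) * (dg (t j0) n : ℝ)))
      have h5 := abs_add_le ((u - u') - (u - v)) (u' - v')
      have h6 := abs_sub (u - u') (u - v)
      linarith
    have h7 : s (n + 1) * 1 ≤ s (n + 1) * D := mul_le_mul_of_nonneg_left hD1 hs.le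
    have h8 : 8 * s (n + 1) * (D + 1) = 8 * (s (n + 1) * D) + 8 * s (n + 1) := by ring
    rw [h8] at hdist
    nlinarith

theorem main (h1 : S_TAIL) (h2 : S_DIG) : S_ANTI := by
  classical
  intro d N F s m P ch hN hD f hf i
  obtain ⟨dg, hdg, hdg'⟩ := h2 m fun n => le_trans (by norm_num) (hD.m64 n)
  have hp : (st N i, st N i) ∈ P 0 := hD.P0 i
  have hdig : ∀ t ∈ Q d, ∀ n (j : Fin d), dg (t j) n < m n :=
    fun t ht n j => hdg _ (ht j).1 (ht j).2 n
  have hN' : (1 : ℝ) ≤ (N : ℝ) := by exact_mod_cast hN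
  have hex : ∀ t : V d, ∃ z : V d × V d, t ∈ Q d →
      (∀ n, br ch (st N i, st N i) (fun n j => dg (t j) n) n ∈ P n) ∧
      Tendsto (fun n => sw n (br ch (st N i, st N i) (fun n j => dg (t j) n) n)) atTop (𝓝 z) ∧
      (∀ n j, |(sw n z).1 j - (br ch (st N i, st N i) (fun n j => dg (t j) n) n).1 j| ≤
        2 * s n) ∧
      ∀ n j, |(sw n z).2 j - (br ch (st N i, st N i) (fun n j => dg (t j) n) n).2 j| ≤
        2 * s (n + 1) := by
    intro t
    by_cases ht : t ∈ Q d
    · obtain ⟨hP, z, hz⟩ := h1 d N F s m P ch hD _ hp (fun n j => dg (t j) n) fun n j => hdig t ht n j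
      exact ⟨z, fun _ => ⟨hP, hz⟩⟩
    · exact ⟨0, fun h => absurd h ht⟩
  choose z hz using hex
  refine ⟨z, ?_, ?_⟩
  · intro t ht
    obtain ⟨hP, hlim, hz1, hz2⟩ := hz t ht
    have hst : ∀ j, 1 / 4 ≤ st N i j ∧ st N i j ≤ 1 / 2 := by
      intro j
      unfold st
      have hi : ((i j : ℕ) : ℝ) ≤ (N : ℝ) := by exact_mod_cast (i j).2.le
      have hi0 : (0 : ℝ) ≤ ((i j : ℕ) : ℝ) := Nat.cast_nonneg _
      have h3 : 0 ≤ ((i j : ℕ) : ℝ) / (4 * N) := by positivity
      have h4 : ((i j : ℕ) : ℝ) / (4 * N) ≤ 1 / 4 := by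
        rw [div_le_iff₀ (by positivity)]
        linarith
      constructor <;> linarith
    refine ⟨⟨?_, ?_⟩, ?_⟩
    · intro j
      have h3 := hz1 0 j
      rw [sw_zero, hD.s0] at h3
      have h4 := hst j
      have h5 : (br ch (st N i, st N i) (fun n j => dg (t j) n) 0).1 j = st N i j := rfl
      rw [h5, abs_le] at h3
      constructor <;> linarith [h3.1, h3.2, h4.1, h4.2]
    · -- on the graph
      have e1 : Tendsto (fun n => (sw n (br ch (st N i, st N i) (fun n j => dg (t j) n) n)).1)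
          atTop (𝓝 (z t).1) := (continuous_fst.tendsto _).comp hlim
      have e2 : Tendsto (fun n => (sw n (br ch (st N i, st N i) (fun n j => dg (t j) n) n)).2)
          atTop (𝓝 (z t).2) := (continuous_snd.tendsto _).comp hlim
      have e3 : Tendsto (fun n => f (sw n (br ch (st N i, st N i) (fun n j => dg (t j) n) n)).1)
          atTop (𝓝 (f (z t).1)) := (f.continuous.tendsto _).comp e1
      have e4 : Tendsto (fun n => dist
          (sw n (br ch (st N i, st N i) (fun n j => dg (t j) n) n)).2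
          (f (sw n (br ch (st N i, st N i) (fun n j => dg (t j) n) n)).1)) atTop
          (𝓝 (dist (z t).2 (f (z t).1))) := e2.dist e3
      have e5 : Tendsto (fun n : ℕ => 8 * (1 / 2 : ℝ) ^ n) atTop (𝓝 (8 * 0)) :=
        (tendsto_pow_atTop_nhds_zero_of_lt_one (by norm_num) (by norm_num)).const_mul 8
      have e6 : dist (z t).2 (f (z t).1) ≤ 8 * 0 := by
        refine le_of_tendsto_of_tendsto' e4 e5 fun n => ?_
        rw [← par_sw hD n _ (hP n)]
        exact hf n _
      exact dist_le_zero.1 (by linarith)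
    · intro j
      have h3 := hz2 0 j
      rw [sw_zero, hD.sm 0, hD.s0] at h3
      have h5 : (br ch (st N i, st N i) (fun n j => dg (t j) n) 0).2 j = st N i j := rfl
      rw [h5] at h3
      refine h3.trans ?_
      have h6 : (64 * (N : ℝ)) ≤ (m 0 : ℝ) := by exact_mod_cast hD.m0
      have h7 : (0 : ℝ) < (m 0 : ℝ) := by linarith
      rw [← mul_div_assoc, div_le_div_iff₀ h7 (by positivity)]
      linarith
  · intro t ht t' ht'
    obtain ⟨hP, hlim, hz1, hz2⟩ := hz t ht
    obtain ⟨hP', hlim', hz1', hz2'⟩ := hz t' ht'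
    exact anti hD dg hdg hdg' (st N i, st N i) t t' ht ht' (z t) (z t') hP hz2 hz2'

end Pool.Agent.H726.GMANTI
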