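import Mathlib
import Pool.Agent.H638.GM.Stm

set_option autoImplicit false

open MeasureTheory Set Filter Topology
open scoped ENNReal NNReal

namespace Pool.Agent.H638.GM

section

variable {d : ℕ}

lemma par_symm_gr (hsw : S_SWAP) (F : ℕ → V d ≃ₜ V d) (hF : ∀ n, Good (U d) (F n)) (n : ℕ) :
    μH[(d : ℝ)] (gr (par F n)) = μH[(d : ℝ)] (gr (F n)) := by
  unfold par
  split_ifs with h
  · rfl
  · exact hsw d (F n) (hF n).2.2

lemma symm_off {f : V d ≃ₜ V d} (hf : ∀ x, x ∉ U d → f x = x) : ∀ x, x ∉ U d → f.symm x = x := by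
  intro x hx
  rw [Homeomorph.symm_apply_eq, hf x hx]

lemma par_off (F : ℕ → V d ≃ₜ V d) (hF : ∀ n, Good (U d) (F n)) (n : ℕ) :
    ∀ x, x ∉ U d → par F n x = x := by
  unfold par
  split_ifs with h
  · exact (hF n).2.2
  · exact symm_off (hF n).2.2

lemma par_close (F : ℕ → V d ≃ₜ V d)
    (h1 : ∀ n x, dist ((F (n + 1)).symm x) (F n x) ≤ 4 * (1 / 2 : ℝ) ^ n)
    (h2 : ∀ n x, dist (F (n + 1) x) ((F n).symm x) ≤ 4 * (1 / 2 : ℝ) ^ n) (n : ℕ) (x : V d) :
    dist (par F (n + 1) x) (par F n x) ≤ 4 * (1 / 2 : ℝ) ^ n := by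
  unfold par
  by_cases h : Even n
  · have h' : ¬ Even (n + 1) := by rw [Nat.even_add_one]; exact fun h'' => h'' h
    rw [if_pos h, if_neg h']
    exact h1 n x
  · have h' : Even (n + 1) := by rw [Nat.even_add_one]; exact h
    rw [if_neg h, if_pos h']
    exact h2 n x

lemma par_close' (F : ℕ → V d ≃ₜ V d)
    (h1 : ∀ n x, dist ((F (n + 1)).symm x) (F n x) ≤ 4 * (1 / 2 : ℝ) ^ n)
    (h2 : ∀ n x, dist (F (n + 1) x) ((F n).symm x) ≤ 4 * (1 / 2 : ℝ) ^ n) (n : ℕ) (x : V d) :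
    dist ((par F (n + 1)).symm x) ((par F n).symm x) ≤ 4 * (1 / 2 : ℝ) ^ n := by
  unfold par
  by_cases h : Even n
  · have h' : ¬ Even (n + 1) := by rw [Nat.even_add_one]; exact fun h'' => h'' h
    rw [if_pos h, if_neg h']
    exact h2 n x
  · have h' : Even (n + 1) := by rw [Nat.even_add_one]; exact h
    rw [if_neg h, if_pos h']
    exact h1 n x

/-- distance in the Euclidean cube -/
lemma dist_cube (hd : 1 ≤ d) {a b : Cube d} {r : ℝ} (hr : 0 ≤ r)
    (h : ∀ i, |(a : EuclideanSpace ℝ (Fin d)) i - (b : EuclideanSpace ℝ (Fin d)) i| ≤ r) :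
    dist a b ≤ d * r := by
  rw [Subtype.dist_eq, EuclideanSpace.dist_eq]
  have h1 : ∑ i, dist ((a : EuclideanSpace ℝ (Fin d)) i) ((b : EuclideanSpace ℝ (Fin d)) i) ^ 2 ≤
      (d * r) ^ 2 := by
    calc _ ≤ ∑ _i : Fin d, r ^ 2 := by
          refine Finset.sum_le_sum fun i _ => ?_
          rw [Real.dist_eq]
          exact pow_le_pow_left₀ (abs_nonneg _) (h i) 2
      _ = d * r ^ 2 := by simp
      _ ≤ (d * r) ^ 2 := by
          have : (1 : ℝ) ≤ d := by exact_mod_cast hd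
          nlinarith [sq_nonneg r, mul_nonneg (sub_nonneg.2 this) (sq_nonneg r)]
  calc _ ≤ Real.sqrt ((d * r) ^ 2) := Real.sqrt_le_sqrt h1
    _ = d * r := Real.sqrt_sq (by positivity)

end

theorem assemble (hrec : S_REC) (hsw : S_SWAP) (hlim : S_LIM) (hlow : S_LOW) (heuc : S_EUC) :
    S_FIN := by
  intro d hd
  have hd1 : 1 ≤ d := by omega
  obtain ⟨F, s, m, P, ch, hD⟩ := hrec d hd (32 * (4 * d + 2)) (by omega)
  obtain ⟨f, hf0, hf⟩ := hlim d (par F) (par_off F hD.good) (par_close F hD.close1 hD.close2)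
    (par_close' F hD.close1 hD.close2)
  have hlo := hlow d (32 * (4 * d + 2)) F s m P ch (by omega) hD f hf
  obtain ⟨f', hf', hf1, -⟩ := heuc d hd1 f hf0
  refine ⟨(2 * (d : ℝ)) ^ d * 2, f', ?_, ?_⟩
  · -- the graph of `f` is large
    have e1 : ENNReal.ofReal ((2 * (d : ℝ)) ^ d * 2) = (2 * (d : ℝ≥0∞)) ^ d * 2 := by
      rw [ENNReal.ofReal_mul (by positivity), ENNReal.ofReal_pow (by positivity),
        ENNReal.ofReal_mul (by norm_num)]
      simp
    have e2 : ((4 * d + 2 : ℕ) : ℝ≥0∞) ^ d ≤ μH[(d : ℝ)] (gr f) := by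
      have h1 : ((32 * (4 * d + 2) : ℕ) : ℝ≥0∞) ^ d = 32 ^ d * ((4 * d + 2 : ℕ) : ℝ≥0∞) ^ d := by
        rw [Nat.cast_mul, mul_pow]
        norm_num
      rw [h1] at hlo
      exact (ENNReal.mul_le_mul_iff_right (by positivity) (by finiteness)).1 hlo
    refine lt_of_lt_of_le ?_ (e2.trans hf1)
    rw [e1]
    have e3 : (2 * d) ^ d * 2 < (4 * d + 2) ^ d := by
      obtain ⟨k, rfl⟩ : ∃ k, d = k + 1 := ⟨d - 1, by omega⟩
      calc (2 * (k + 1)) ^ (k + 1) * 2 < (2 * (k + 1) + 1) ^ (k + 1) * 2 := by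
            have := Nat.pow_lt_pow_left (show 2 * (k + 1) < 2 * (k + 1) + 1 by omega)
              (show k + 1 ≠ 0 by omega)
            omega
        _ ≤ (2 * (k + 1) + 1) ^ (k + 1) * 2 ^ (k + 1) := by
            refine Nat.mul_le_mul_left _ ?_
            calc 2 = 2 ^ 1 := rfl
              _ ≤ 2 ^ (k + 1) := Nat.pow_le_pow_right (by norm_num) (by omega)
        _ = (4 * (k + 1) + 2) ^ (k + 1) := by
            rw [← mul_pow]
            congr 1
            ring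
    have e4 : (((2 * d) ^ d * 2 : ℕ) : ℝ≥0∞) < (((4 * d + 2) ^ d : ℕ) : ℝ≥0∞) := by
      exact_mod_cast e3
    push_cast at e4
    push_cast
    exact e4
  · intro ε hε
    -- choose `n`
    obtain ⟨n, hn⟩ : ∃ n : ℕ, (d : ℝ) * (8 * (1 / 2 : ℝ) ^ n) < ε := by
      have h1 : Tendsto (fun n : ℕ => (d : ℝ) * (8 * (1 / 2 : ℝ) ^ n)) atTop (𝓝 ((d : ℝ) * (8 * 0))) :=
        ((tendsto_pow_atTop_nhds_zero_of_lt_one (by norm_num) (by norm_num)).const_mul 8).const_mul _
      rw [mul_zero, mul_zero] at h1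
      exact ((tendsto_order.1 h1).2 ε hε).exists
    obtain ⟨g, hg, -, hg2⟩ := heuc d hd1 (par F n) (par_off F hD.good n)
    refine ⟨g, ?_, ?_⟩
    · intro x
      refine lt_of_le_of_lt (dist_cube hd1 (by positivity) ?_) hn
      intro i
      rw [hf', hg]
      have h1 := hf n (fun j => (x : EuclideanSpace ℝ (Fin d)) j)
      have h2 := (dist_pi_le_iff (by positivity)).1 h1 i
      rw [Real.dist_eq, abs_sub_comm] at h2
      exact h2
    · refine hg2.trans ?_
      have e1 : ENNReal.ofReal ((2 * (d : ℝ)) ^ d * 2) = (2 * (d : ℝ≥0∞)) ^ d * 2 := by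
        rw [ENNReal.ofReal_mul (by positivity), ENNReal.ofReal_pow (by positivity),
          ENNReal.ofReal_mul (by norm_num)]
        simp
      rw [e1, par_symm_gr hsw F hD.good]
      exact mul_le_mul_right (hD.meas n) _

end Pool.Agent.H638.GM
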