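import Pool.Agent.H638.GM.Stm

/-! Task COV for helper638 (project GM, MP_ccb05f_an). -/

set_option autoImplicit false

open MeasureTheory Set Filter Topology
open scoped ENNReal NNReal

namespace Pool.Agent.H640.GMCOV

open Pool.Agent.H638.GM

theorem cell (N : ℕ) (hN : 1 ≤ N) (δ x : ℝ) (hδ : 0 < δ) (h0 : 0 ≤ x) (h1 : x ≤ N * δ) :
    ∃ k : Fin N, (k : ℝ) * δ ≤ x ∧ x ≤ ((k : ℝ) + 1) * δ := by
  by_cases h : x / δ < N
  · refine ⟨⟨⌊x / δ⌋₊, ?_⟩, ?_, ?_⟩
    · exact (Nat.floor_lt (div_nonneg h0 hδ.le)).2 h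
    · have := Nat.floor_le (div_nonneg h0 hδ.le)
      simpa using (le_div_iff₀ hδ).1 this
    · have := (Nat.lt_floor_add_one (x / δ)).le
      simpa using (div_le_iff₀ hδ).1 this
  · have h2 : x = N * δ := by
      have := (le_div_iff₀ hδ).1 (not_lt.1 h)
      linarith
    refine ⟨⟨N - 1, by omega⟩, ?_, ?_⟩
    · have h3 : ((N - 1 : ℕ) : ℝ) = N - 1 := by
        rw [Nat.cast_sub hN, Nat.cast_one]
      simp only [h3]
      rw [h2]
      nlinarith
    · have h3 : ((N - 1 : ℕ) : ℝ) = N - 1 := by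
        rw [Nat.cast_sub hN, Nat.cast_one]
      simp only [h3]
      rw [h2]
      nlinarith

/-- number of the cells in the coordinate `j` -/
def nc {d : ℕ} (i : Fin d) (M n : ℕ) (j : Fin d) : ℕ := if j = i then (M + 2) * n else 2 * n

/-- index type -/
abbrev Idx {d : ℕ} (i : Fin d) (M n : ℕ) : Type := (∀ j : Fin d, Fin (nc i M n j)) × Fin (4 * M + 1)

theorem card_Idx {d : ℕ} (i : Fin d) (M n : ℕ) :
    Fintype.card (Idx i M n) = (M + 2) * n * (2 * n) ^ (d - 1) * (4 * M + 1) := by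
  rw [Fintype.card_prod, Fintype.card_pi, Fintype.card_fin]
  congr 1
  simp only [Fintype.card_fin]
  rw [← Finset.mul_prod_erase Finset.univ _ (Finset.mem_univ i)]
  have h1 : ∏ j ∈ Finset.univ.erase i, nc i M n j = ∏ _j ∈ Finset.univ.erase i, (2 * n) := by
    apply Finset.prod_congr rfl
    intro j hj
    rw [nc, if_neg (Finset.ne_of_mem_erase hj)]
  rw [h1, Finset.prod_const, Finset.card_erase_of_mem (Finset.mem_univ i), Finset.card_univ,
    Fintype.card_fin, nc, if_pos rfl]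

/-- corner -/
noncomputable def cor {d : ℕ} (i : Fin d) (M n : ℕ) (δ : ℝ) (k : ∀ j : Fin d, Fin (nc i M n j)) :
    V d := fun j => -(1 / (M : ℝ)) + (k j : ℕ) * δ

/-- the pieces -/
def piece {d : ℕ} (i : Fin d) (M n : ℕ) (δ : ℝ) (η : V d → ℝ) (q : Idx i M n) : Set (V d × V d) :=
  {p | (∀ j, cor i M n δ q.1 j ≤ p.1 j ∧ p.1 j ≤ cor i M n δ q.1 j + δ) ∧
    (p.2 = p.1 + Pi.single i (η p.1)) ∧
    (cor i M n δ q.1 i + η (cor i M n δ q.1) - 2 * M * δ + (q.2 : ℕ) * δ ≤ p.2 i ∧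
      p.2 i ≤ cor i M n δ q.1 i + η (cor i M n δ q.1) - 2 * M * δ + (q.2 : ℕ) * δ + δ)}

theorem diam_piece {d : ℕ} (i : Fin d) (M n : ℕ) (δ : ℝ) (hδ : 0 < δ) (η : V d → ℝ)
    (q : Idx i M n) : Metric.ediam (piece i M n δ η q) ≤ ENNReal.ofReal δ := by
  apply Metric.ediam_le
  rintro x ⟨hx1, hx2, hx3, hx4⟩ y ⟨hy1, hy2, hy3, hy4⟩
  rw [edist_dist]
  apply ENNReal.ofReal_le_ofReal
  rw [Prod.dist_eq]
  apply max_le
  · rw [dist_pi_le_iff hδ.le]
    intro j
    rw [Real.dist_eq, abs_le]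
    have h1 := hx1 j
    have h2 := hy1 j
    constructor <;> linarith [h1.1, h1.2, h2.1, h2.2]
  · rw [dist_pi_le_iff hδ.le]
    intro j
    rw [Real.dist_eq, abs_le]
    by_cases hj : j = i
    · subst hj
      constructor <;> linarith
    · have h1 := hx1 j
      have h2 := hy1 j
      rw [hx2, hy2, Pi.add_apply, Pi.add_apply, Pi.single_eq_of_ne hj, Pi.single_eq_of_ne hj]
      constructor <;> linarith [h1.1, h1.2, h2.1, h2.2]

theorem main : S_COV := by
  intro d hd i M hM η hη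
  have hM0 : (0 : ℝ) < M := by exact_mod_cast hM
  have hMi : (M : ℝ) * (1 / M) = 1 := by
    rw [mul_one_div, div_self hM0.ne']
  set S : Set (V d × V d) := {p : V d × V d | (-(1 / (M : ℝ)) ≤ p.1 i ∧ p.1 i ≤ 1 + 1 / (M : ℝ) ∧
      ∀ j, j ≠ i → |p.1 j| ≤ 1 / (M : ℝ)) ∧ p.2 = p.1 + Pi.single i (η p.1)} with hS
  have hδ : ∀ n : ℕ, 0 < 1 / ((M : ℝ) * ((n : ℝ) + 1)) := fun n => by positivity
  have key := MeasureTheory.Measure.hausdorffMeasure_le_liminf_sum (β := ℕ)
    (ι := fun n => Idx i M (n + 1)) (d : ℝ) S (l := atTop)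
    (fun n => ENNReal.ofReal (1 / ((M : ℝ) * ((n : ℝ) + 1)))) ?_
    (fun n q => piece i M (n + 1) (1 / ((M : ℝ) * ((n : ℝ) + 1))) η q) ?_ ?_
  · refine key.trans ?_
    refine liminf_le_of_frequently_le' ?_
    apply Frequently.of_forall
    intro n
    calc ∑ q : Idx i M (n + 1), Metric.ediam (piece i M (n + 1) (1 / ((M : ℝ) * ((n : ℝ) + 1))) η q)
          ^ (d : ℝ)
        ≤ ∑ _q : Idx i M (n + 1), ENNReal.ofReal ((1 / ((M : ℝ) * ((n : ℝ) + 1))) ^ d) := by
          apply Finset.sum_le_sum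
          intro q _
          rw [ENNReal.rpow_natCast, ENNReal.ofReal_pow (hδ n).le]
          exact pow_le_pow_left' (diam_piece i M (n + 1) _ (hδ n) η q) d
      _ = ENNReal.ofReal ((((M + 2) * (n + 1) * (2 * (n + 1)) ^ (d - 1) * (4 * M + 1) : ℕ) : ℝ) *
            (1 / ((M : ℝ) * ((n : ℝ) + 1))) ^ d) := by
          rw [Finset.sum_const, Finset.card_univ, card_Idx, nsmul_eq_mul,
            ENNReal.ofReal_mul (Nat.cast_nonneg _), ENNReal.ofReal_natCast]
      _ ≤ ENNReal.ofReal (9 * 2 ^ d / M) := by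
          apply ENNReal.ofReal_le_ofReal
          obtain ⟨e, rfl⟩ : ∃ e, d = e + 3 := ⟨d - 3, by omega⟩
          have hn : (0 : ℝ) < (n : ℝ) + 1 := by positivity
          have hM1 : (1 : ℝ) ≤ M := by exact_mod_cast hM
          push_cast
          have e1 : ((M : ℝ) + 2) * ((n : ℝ) + 1) * (2 * ((n : ℝ) + 1)) ^ (e + 2) * (4 * M + 1) *
              (1 / ((M : ℝ) * ((n : ℝ) + 1))) ^ (e + 3) =
              ((M : ℝ) + 2) * (4 * M + 1) * 2 ^ (e + 2) / (M : ℝ) ^ (e + 3) := by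
            rw [one_div, inv_pow, mul_pow, mul_pow, ← div_eq_mul_inv,
              div_eq_div_iff (by positivity) (by positivity)]
            ring
          rw [e1, div_le_div_iff₀ (by positivity) hM0]
          have e2 : ((M : ℝ) + 2) * (4 * M + 1) ≤ 18 * (M : ℝ) ^ 2 := by nlinarith
          have e3 : (M : ℝ) ^ 3 ≤ (M : ℝ) ^ (e + 3) := pow_le_pow_right₀ hM1 (by omega)
          have e4 : (0 : ℝ) < 2 ^ (e + 2) := by positivity
          calc ((M : ℝ) + 2) * (4 * M + 1) * 2 ^ (e + 2) * M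
              ≤ 18 * (M : ℝ) ^ 2 * 2 ^ (e + 2) * M := by gcongr
            _ = 9 * 2 ^ (e + 3) * (M : ℝ) ^ 3 := by ring
            _ ≤ 9 * 2 ^ (e + 3) * (M : ℝ) ^ (e + 3) := by gcongr
  · rw [← ENNReal.ofReal_zero]
    apply ENNReal.tendsto_ofReal
    have h1 : Tendsto (fun n : ℕ => (1 / (M : ℝ)) * (1 / ((n : ℝ) + 1))) atTop
        (𝓝 ((1 / (M : ℝ)) * 0)) := tendsto_one_div_add_atTop_nhds_zero_nat.const_mul _
    rw [mul_zero] at h1
    refine h1.congr ?_
    intro n
    rw [one_div_mul_one_div]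
  · exact Eventually.of_forall fun n q => diam_piece i M (n + 1) _ (hδ n) η q
  · apply Eventually.of_forall
    intro n p hp
    obtain ⟨⟨hp1, hp2, hp3⟩, hp4⟩ := hp
    set δ : ℝ := 1 / ((M : ℝ) * ((n : ℝ) + 1)) with hδd
    have hδ0 : 0 < δ := hδ n
    have hnδ : ((n : ℝ) + 1) * δ = 1 / M := by
      rw [hδd]
      field_simp
    have hk : ∀ j : Fin d, ∃ k : Fin (nc i M (n + 1) j), (k : ℝ) * δ ≤ p.1 j + 1 / M ∧
        p.1 j + 1 / M ≤ ((k : ℝ) + 1) * δ := by
      intro j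
      by_cases hj : j = i
      · apply cell
        · rw [nc, if_pos hj]
          exact Nat.mul_pos (by omega) (by omega)
        · exact hδ0
        · rw [hj]
          linarith
        · rw [nc, if_pos hj, hj]
          push_cast
          rw [mul_assoc, hnδ]
          linarith
      · have h1 := abs_le.1 (hp3 j hj)
        apply cell
        · rw [nc, if_neg hj]
          omega
        · exact hδ0
        · linarith [h1.1]
        · rw [nc, if_neg hj]
          push_cast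
          rw [mul_assoc, hnδ]
          linarith [h1.2]
    choose k hk1 hk2 using hk
    have hc : ∀ j, cor i M (n + 1) δ k j ≤ p.1 j ∧ p.1 j ≤ cor i M (n + 1) δ k j + δ := by
      intro j
      have h1 := hk1 j
      have h2 := hk2 j
      unfold cor
      constructor <;> linarith
    have hdist : dist p.1 (cor i M (n + 1) δ k) ≤ δ := by
      rw [dist_pi_le_iff hδ0.le]
      intro j
      rw [Real.dist_eq, abs_le]
      have h1 := hc j
      constructor <;> linarith [h1.1, h1.2]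
    have hL : |η p.1 - η (cor i M (n + 1) δ k)| ≤ 2 * M * δ := by
      have h1 := hη.dist_le_mul p.1 (cor i M (n + 1) δ k)
      rw [Real.dist_eq] at h1
      refine h1.trans ?_
      push_cast
      exact mul_le_mul_of_nonneg_left hdist (by positivity)
    have hL' := abs_le.1 hL
    obtain ⟨l, hl1, hl2⟩ := cell (4 * M + 1) (by omega) δ
      (p.1 i + η p.1 - (cor i M (n + 1) δ k i + η (cor i M (n + 1) δ k) - 2 * M * δ)) hδ0
      (by linarith [(hc i).1, hL'.1]) (by push_cast; linarith [(hc i).2, hL'.2])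
    rw [mem_iUnion]
    refine ⟨(k, l), hc, hp4, ?_, ?_⟩
    · rw [hp4, Pi.add_apply, Pi.single_eq_same]
      linarith
    · rw [hp4, Pi.add_apply, Pi.single_eq_same]
      linarith

end Pool.Agent.H640.GMCOV
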