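import Pool.Agent.H638.GM.Stm

set_option autoImplicit false

namespace Pool.Agent.H163.GMDIG

open Pool.Agent.H638.GM

/-- The digit of `x` in base `k`. -/
noncomputable def dig (k : ℕ) (x : ℝ) : ℕ := min ⌊(k : ℝ) * x⌋₊ (k - 1)

/-- The remainders. -/
noncomputable def rem (m : ℕ → ℕ) (t : ℝ) : ℕ → ℝ
  | 0 => t
  | n + 1 => (m n : ℝ) * rem m t n - (dig (m n) (rem m t n) : ℝ)

theorem dig_lt {k : ℕ} (hk : 1 ≤ k) (x : ℝ) : dig k x < k := by
  unfold dig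
  have : min ⌊(k : ℝ) * x⌋₊ (k - 1) ≤ k - 1 := min_le_right _ _
  omega

theorem rem_step {k : ℕ} (hk : 1 ≤ k) {x : ℝ} (h0 : 0 ≤ x) (h1 : x ≤ 1) :
    0 ≤ (k : ℝ) * x - (dig k x : ℝ) ∧ (k : ℝ) * x - (dig k x : ℝ) ≤ 1 := by
  have hk0 : (0 : ℝ) ≤ (k : ℝ) := Nat.cast_nonneg k
  have hx : 0 ≤ (k : ℝ) * x := mul_nonneg hk0 h0
  have hx1 : (k : ℝ) * x ≤ k := by nlinarith
  have hf : (⌊(k : ℝ) * x⌋₊ : ℝ) ≤ (k : ℝ) * x := Nat.floor_le hx
  have hf1 : (k : ℝ) * x < (⌊(k : ℝ) * x⌋₊ : ℝ) + 1 := Nat.lt_floor_add_one _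
  constructor
  · have : (dig k x : ℝ) ≤ (⌊(k : ℝ) * x⌋₊ : ℝ) := by
      unfold dig; exact_mod_cast min_le_left _ _
    linarith
  · unfold dig
    rcases min_choice ⌊(k : ℝ) * x⌋₊ (k - 1) with h | h
    · rw [h]; linarith
    · rw [h, Nat.cast_sub hk, Nat.cast_one]
      linarith

theorem rem_mem (m : ℕ → ℕ) (hm : ∀ n, 1 ≤ m n) {t : ℝ} (h0 : 0 ≤ t) (h1 : t ≤ 1) (n : ℕ) :
    0 ≤ rem m t n ∧ rem m t n ≤ 1 := by
  induction n with
  | zero => exact ⟨h0, h1⟩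
  | succ n ih => exact rem_step (hm n) ih.1 ih.2

theorem rem_sub (m : ℕ → ℕ) (t t' : ℝ) (n : ℕ)
    (h : ∀ i < n, dig (m i) (rem m t i) = dig (m i) (rem m t' i)) :
    (t - t') * ∏ i ∈ Finset.range n, (m i : ℝ) = rem m t n - rem m t' n := by
  induction n with
  | zero => simp [rem]
  | succ n ih =>
    rw [Finset.prod_range_succ, ← mul_assoc, ih (fun i hi => h i (Nat.lt_succ_of_lt hi))]
    show _ = ((m n : ℝ) * rem m t n - (dig (m n) (rem m t n) : ℝ)) -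
      ((m n : ℝ) * rem m t' n - (dig (m n) (rem m t' n) : ℝ))
    rw [h n (Nat.lt_succ_self n)]
    ring

theorem main : S_DIG := by
  intro m hm
  refine ⟨fun t n => dig (m n) (rem m t n), fun t _ _ n => dig_lt (hm n) _, ?_⟩
  intro t t' h0 h1 h0' h1' n h
  have e := rem_sub m t t' n h
  have a := rem_mem m hm h0 h1 (n + 1)
  have b := rem_mem m hm h0' h1' (n + 1)
  have hp : 0 ≤ ∏ i ∈ Finset.range (n + 1), (m i : ℝ) := Finset.prod_nonneg fun i _ => Nat.cast_nonneg _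
  have e2 : (t - t') * ∏ i ∈ Finset.range (n + 1), (m i : ℝ) =
      ((dig (m n) (rem m t n) : ℝ) - (dig (m n) (rem m t' n) : ℝ)) +
        (rem m t (n + 1) - rem m t' (n + 1)) := by
    rw [Finset.prod_range_succ, ← mul_assoc, e]
    show _ = ((dig (m n) (rem m t n) : ℝ) - (dig (m n) (rem m t' n) : ℝ)) +
      (((m n : ℝ) * rem m t n - (dig (m n) (rem m t n) : ℝ)) -
      ((m n : ℝ) * rem m t' n - (dig (m n) (rem m t' n) : ℝ)))
    ring
  calc |t - t'| * ∏ i ∈ Finset.range (n + 1), (m i : ℝ)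
      = |(t - t') * ∏ i ∈ Finset.range (n + 1), (m i : ℝ)| := by rw [abs_mul, abs_of_nonneg hp]
    _ ≤ |(dig (m n) (rem m t n) : ℝ) - (dig (m n) (rem m t' n) : ℝ)| +
        |rem m t (n + 1) - rem m t' (n + 1)| := by rw [e2]; exact abs_add_le _ _
    _ ≤ _ := by
        have : |rem m t (n + 1) - rem m t' (n + 1)| ≤ 1 := by
          rw [abs_le]; constructor <;> linarith [a.1, a.2, b.1, b.2]
        linarith

end Pool.Agent.H163.GMDIG
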