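import Pool.Agent.H638.GM.Stm

/-!
# Uniform limit of homeomorphisms whose inverses converge as well
-/

set_option autoImplicit false

namespace Pool.Agent.H935.GMLIM

open Filter Topology Pool.Agent.H638.GM

theorem limF {X : Type} [MetricSpace X] [CompleteSpace X] (φ : ℕ → X → X)
    (hc : ∀ n, Continuous (φ n)) (h : ∀ n x, dist (φ (n + 1) x) (φ n x) ≤ 4 * (1 / 2 : ℝ) ^ n) :
    ∃ f : X → X, Continuous f ∧ ∀ n x, dist (φ n x) (f x) ≤ 8 * (1 / 2 : ℝ) ^ n := by
  have h1 : ∀ x n, dist (φ n x) (φ (n + 1) x) ≤ 4 * (1 / 2 : ℝ) ^ n := fun x n => by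
    rw [dist_comm]; exact h n x
  have h2 : ∀ x, ∃ a, Tendsto (fun n => φ n x) atTop (𝓝 a) := fun x =>
    cauchySeq_tendsto_of_complete (cauchySeq_of_le_geometric (1 / 2) 4 (by norm_num) (h1 x))
  choose f hf using h2
  have h3 : ∀ n x, dist (φ n x) (f x) ≤ 8 * (1 / 2 : ℝ) ^ n := by
    intro n x
    have h4 := dist_le_of_le_geometric_of_tendsto (1 / 2) 4 (by norm_num) (h1 x) (hf x) n
    refine h4.trans (le_of_eq ?_)
    ring
  refine ⟨f, ?_, h3⟩
  have h5 : Tendsto (fun n : ℕ => 8 * (1 / 2 : ℝ) ^ n) atTop (𝓝 0) := by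
    have h6 := (tendsto_pow_atTop_nhds_zero_of_lt_one (r := (1 / 2 : ℝ)) (by norm_num)
      (by norm_num)).const_mul 8
    rwa [mul_zero] at h6
  have h7 : TendstoUniformly φ f atTop := by
    rw [Metric.tendstoUniformly_iff]
    intro ε hε
    filter_upwards [h5.eventually_lt_const hε] with n hn x
    rw [dist_comm]
    exact (h3 n x).trans_lt hn
  exact h7.continuous (Frequently.of_forall hc)

theorem inv_of {X : Type} [MetricSpace X] (φ ψ : ℕ → X → X) (f g : X → X) (hf : Continuous f)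
    (h : ∀ n x, φ n (ψ n x) = x) (h1 : ∀ n x, dist (φ n x) (f x) ≤ 8 * (1 / 2 : ℝ) ^ n)
    (h2 : ∀ n x, dist (ψ n x) (g x) ≤ 8 * (1 / 2 : ℝ) ^ n) (y : X) : f (g y) = y := by
  have h5 : Tendsto (fun n : ℕ => 8 * (1 / 2 : ℝ) ^ n) atTop (𝓝 0) := by
    have h6 := (tendsto_pow_atTop_nhds_zero_of_lt_one (r := (1 / 2 : ℝ)) (by norm_num)
      (by norm_num)).const_mul 8
    rwa [mul_zero] at h6
  have h3 : Tendsto (fun n => ψ n y) atTop (𝓝 (g y)) := by
    rw [tendsto_iff_dist_tendsto_zero]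
    exact squeeze_zero (fun _ => dist_nonneg) (fun n => h2 n y) h5
  have h4 : Tendsto (fun n => f (ψ n y)) atTop (𝓝 (f (g y))) := (hf.tendsto _).comp h3
  have h6 : Tendsto (fun n => f (ψ n y)) atTop (𝓝 y) := by
    rw [tendsto_iff_dist_tendsto_zero]
    refine squeeze_zero (fun _ => dist_nonneg) (fun n => ?_) h5
    have h7 := h1 n (ψ n y)
    rw [h n y, dist_comm] at h7
    exact h7
  exact tendsto_nhds_unique h4 h6

theorem main : S_LIM := by
  intro d G hU h1 h2
  obtain ⟨f, hf, hf'⟩ := limF (fun n => (G n : V d → V d)) (fun n => (G n).continuous) h1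
  obtain ⟨g, hg, hg'⟩ := limF (fun n => ((G n).symm : V d → V d)) (fun n => (G n).symm.continuous) h2
  have e1 : ∀ y, f (g y) = y := inv_of (fun n => (G n : V d → V d))
    (fun n => ((G n).symm : V d → V d)) f g hf (fun n x => (G n).apply_symm_apply x) hf' hg'
  have e2 : ∀ y, g (f y) = y := inv_of (fun n => ((G n).symm : V d → V d))
    (fun n => (G n : V d → V d)) g f hg (fun n x => (G n).symm_apply_apply x) hg' hf'
  refine ⟨⟨⟨f, g, e2, e1⟩, hf, hg⟩, fun x hx => ?_, hf'⟩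
  have h5 : Tendsto (fun n : ℕ => 8 * (1 / 2 : ℝ) ^ n) atTop (𝓝 0) := by
    have h6 := (tendsto_pow_atTop_nhds_zero_of_lt_one (r := (1 / 2 : ℝ)) (by norm_num)
      (by norm_num)).const_mul 8
    rwa [mul_zero] at h6
  have h3 : dist x (f x) ≤ 0 := by
    refine ge_of_tendsto' h5 fun n => ?_
    have h4 := hf' n x
    rwa [hU n x hx] at h4
  exact (dist_le_zero.1 h3).symm

end Pool.Agent.H935.GMLIM
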