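import Pool.Agent.H638.GM.Stm

/-! # LOW of the project GM (helper972, for helper638) -/

set_option autoImplicit false

open MeasureTheory Set Filter Topology
open scoped ENNReal NNReal
open Pool.Agent.H638.GM

namespace Pool.Agent.H972.GMLow

theorem one_le_Q (d : ℕ) : μH[(d : ℝ)] (Q d) = 1 := by
  have h1 : Q d = Icc (fun _ : Fin d => (0 : ℝ)) (fun _ => 1) := by
    ext x
    simp only [Q, mem_ofPred_eq, mem_Icc, Pi.le_def]
    exact forall_and
  have h2 : (μH[(d : ℝ)] : Measure (V d)) = volume := by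
    have := hausdorffMeasure_pi_real (ι := Fin d)
    simpa using this
  rw [h2, h1, Real.volume_Icc_pi]
  simp

theorem anti (d : ℕ) (z : V d → V d × V d)
    (hz : ∀ t ∈ Q d, ∀ t' ∈ Q d, dist t t' ≤ 32 * dist (z t) (z t')) :
    1 ≤ (32 : ℝ≥0∞) ^ d * μH[(d : ℝ)] (z '' Q d) := by
  have hinj : InjOn z (Q d) := by
    intro t ht t' ht' h
    have := hz t ht t' ht'
    rw [h, dist_self, mul_zero] at this
    exact dist_le_zero.1 this
  have hl : LipschitzOnWith 32 (Function.invFunOn z (Q d)) (z '' Q d) := by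
    apply LipschitzOnWith.of_dist_le_mul
    rintro _ ⟨t, ht, rfl⟩ _ ⟨t', ht', rfl⟩
    rw [hinj.leftInvOn_invFunOn ht, hinj.leftInvOn_invFunOn ht']
    exact hz t ht t' ht'
  have h1 := hl.hausdorffMeasure_image_le (Nat.cast_nonneg d : (0 : ℝ) ≤ (d : ℝ))
  have h2 : Function.invFunOn z (Q d) '' (z '' Q d) = Q d := by
    apply subset_antisymm
    · rintro _ ⟨_, ⟨t, ht, rfl⟩, rfl⟩
      rw [hinj.leftInvOn_invFunOn ht]
      exact ht
    · intro t ht
      exact ⟨z t, ⟨t, ht, rfl⟩, hinj.leftInvOn_invFunOn ht⟩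
  rw [h2, one_le_Q, ENNReal.rpow_natCast] at h1
  simpa using h1

theorem main (h : S_ANTI) : S_LOW := by
  intro d N F s m P ch hN hD f hf
  have hN0 : (0 : ℝ) < N := by exact_mod_cast hN
  set B : (Fin d → Fin N) → Set (V d × V d) :=
    fun i => {p | ∀ j, |p.2 j - st N i j| ≤ 1 / (16 * (N : ℝ))} with hB
  have hBm : ∀ i, MeasurableSet (B i) := by
    intro i
    apply IsClosed.measurableSet
    have : B i = ⋂ j, {p : V d × V d | |p.2 j - st N i j| ≤ 1 / (16 * (N : ℝ))} := by
      ext p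
      simp [hB]
    rw [this]
    apply isClosed_iInter
    intro j
    apply isClosed_le
    · fun_prop
    · exact continuous_const
  have hBd : Pairwise (fun i i' => Disjoint (B i) (B i')) := by
    intro i i' hii
    rw [Set.disjoint_left]
    intro p hp hp'
    apply hii
    funext j
    have h1 := hp j
    have h2 := hp' j
    by_contra hne
    have h3 : ((i j : ℕ) : ℤ) ≠ ((i' j : ℕ) : ℤ) := by
      intro h4
      apply hne
      apply Fin.ext
      exact_mod_cast h4
    have h5 : (1 : ℤ) ≤ |((i j : ℕ) : ℤ) - ((i' j : ℕ) : ℤ)| := Int.one_le_abs (sub_ne_zero.2 h3)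
    have h6 : (1 : ℝ) ≤ |((i j : ℕ) : ℝ) - ((i' j : ℕ) : ℝ)| := by exact_mod_cast h5
    have h7 : |st N i j - st N i' j| ≤ 1 / (8 * (N : ℝ)) := by
      have h8 : st N i j - st N i' j = (p.2 j - st N i' j) - (p.2 j - st N i j) := by ring
      rw [h8]
      refine (abs_sub _ _).trans ?_
      have : 1 / (8 * (N : ℝ)) = 1 / (16 * (N : ℝ)) + 1 / (16 * (N : ℝ)) := by
        field_simp
        norm_num
      rw [this]
      exact add_le_add h2 h1
    have h9 : st N i j - st N i' j = (((i j : ℕ) : ℝ) - ((i' j : ℕ) : ℝ)) / (4 * N) := by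
      simp only [st]
      ring
    rw [h9, abs_div, abs_of_pos (by positivity : (0 : ℝ) < 4 * N), div_le_div_iff₀ (by positivity) (by positivity)] at h7
    nlinarith
  have key : ∀ i : Fin d → Fin N, (1 : ℝ≥0∞) ≤ 32 ^ d * (μH[(d : ℝ)].restrict (gr f)) (B i) := by
    intro i
    obtain ⟨z, hz1, hz2⟩ := h d N F s m P ch hN hD f hf i
    refine (anti d z hz2).trans (mul_le_mul' le_rfl ?_)
    rw [Measure.restrict_apply (hBm i)]
    apply measure_mono
    rintro _ ⟨t, ht, rfl⟩
    exact ⟨(hz1 t ht).2, (hz1 t ht).1⟩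
  calc (N : ℝ≥0∞) ^ d = ∑ _i : Fin d → Fin N, (1 : ℝ≥0∞) := by simp
    _ ≤ ∑ i : Fin d → Fin N, 32 ^ d * (μH[(d : ℝ)].restrict (gr f)) (B i) :=
        Finset.sum_le_sum fun i _ => key i
    _ = 32 ^ d * ∑ i : Fin d → Fin N, (μH[(d : ℝ)].restrict (gr f)) (B i) := by
        rw [Finset.mul_sum]
    _ ≤ 32 ^ d * μH[(d : ℝ)] (gr f) := by
        refine mul_le_mul' le_rfl ?_
        have h1 : ∑ i : Fin d → Fin N, (μH[(d : ℝ)].restrict (gr f)) (B i) =
            (μH[(d : ℝ)].restrict (gr f)) (⋃ i, B i) := by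
          rw [measure_iUnion hBd hBm, tsum_fintype]
        rw [h1]
        refine (measure_mono (subset_univ _)).trans ?_
        rw [Measure.restrict_apply_univ]

end Pool.Agent.H972.GMLow
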