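import Mathlib
import Pool.Agent.H638.GM.Stm

/-!
# Project GM: moving finitely many points
-/

set_option autoImplicit false

open MeasureTheory Set Filter Topology
open scoped ENNReal NNReal

namespace Pool.Agent.H671.GMMULTI

open Pool.Agent.H638.GM

theorem U_open (d : ℕ) : IsOpen (U d) := by
  have h : U d = Set.pi univ (fun _ : Fin d => Ioo (0 : ℝ) 1) := by
    ext x
    simp [U, Set.mem_pi]
  rw [h]
  exact isOpen_set_pi finite_univ (fun _ _ => isOpen_Ioo)

theorem U_convex (d : ℕ) : Convex ℝ (U d) := by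
  have h : U d = Set.pi univ (fun _ : Fin d => Ioo (0 : ℝ) 1) := by
    ext x
    simp [U, Set.mem_pi]
  rw [h]
  exact convex_pi (fun _ _ => convex_Ioo 0 1)

theorem seg_compact {d : ℕ} (x y : V d) : IsCompact (segment ℝ x y) := by
  rw [segment_eq_image]
  exact isCompact_Icc.image (by fun_prop)

/-- pairwise disjoint neighbourhoods of finitely many disjoint compact sets -/
theorem nhds {d : ℕ} {J : Type} [Fintype J] (S : J → Set (V d)) (hS : ∀ j, IsCompact (S j))
    (hd : ∀ i j, i ≠ j → Disjoint (S i) (S j)) (W : Set (V d)) (hW : IsOpen W)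
    (hSW : ∀ j, S j ⊆ W) : ∃ O : J → Set (V d), (∀ j, IsOpen (O j)) ∧ (∀ j, S j ⊆ O j) ∧
      (∀ j, O j ⊆ W) ∧ ∀ i j, i ≠ j → Disjoint (O i) (O j) := by
  have h1 : ∀ i j, ∃ A B : Set (V d), IsOpen A ∧ IsOpen B ∧ (i ≠ j → S i ⊆ A) ∧
      (i ≠ j → S j ⊆ B) ∧ (i ≠ j → Disjoint A B) := by
    intro i j
    by_cases hij : i = j
    · exact ⟨univ, univ, isOpen_univ, isOpen_univ, fun h => absurd hij h, fun h => absurd hij h,
        fun h => absurd hij h⟩
    · obtain ⟨A, B, hA, hB, hSA, hSB, hAB⟩ :=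
        SeparatedNhds.of_isCompact_isCompact (hS i) (hS j) (hd i j hij)
      exact ⟨A, B, hA, hB, fun _ => hSA, fun _ => hSB, fun _ => hAB⟩
  choose A B hA hB hSA hSB hAB using h1
  refine ⟨fun i => W ∩ ⋂ j, {x | i ≠ j → x ∈ A i j ∩ B j i}, ?_, ?_, ?_, ?_⟩
  · intro i
    refine hW.inter (isOpen_iInter_of_finite fun j => ?_)
    by_cases hij : i = j
    · have : {x : V d | i ≠ j → x ∈ A i j ∩ B j i} = univ := by
        ext x
        simp [hij]
      rw [this]
      exact isOpen_univ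
    · have : {x : V d | i ≠ j → x ∈ A i j ∩ B j i} = A i j ∩ B j i := by
        ext x
        simp [hij]
      rw [this]
      exact (hA i j).inter (hB j i)
  · intro i x hx
    refine ⟨hSW i hx, ?_⟩
    rw [mem_iInter]
    intro j hij
    exact ⟨hSA i j hij hx, hSB j i hij.symm hx⟩
  · intro i x hx
    exact hx.1
  · intro i j hij
    rw [Set.disjoint_left]
    intro x hx hx'
    have h2 := mem_iInter.1 hx.2 j hij
    have h3 := mem_iInter.1 hx'.2 i hij.symm
    exact Set.disjoint_left.1 (hAB i j hij) h2.1 h3.2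

theorem maps {d : ℕ} {O : Set (V d)} {g : V d ≃ₜ V d} (hg : ∀ x, x ∉ O → g x = x) {x : V d}
    (hx : x ∈ O) : g x ∈ O := by
  by_contra h
  have h1 := hg (g x) h
  have h2 : g x = x := g.injective h1
  rw [h2] at h
  exact h hx

/-- composition of homeomorphisms with disjoint supports -/
theorem comp {d : ℕ} {J : Type} (O : J → Set (V d)) (hO : ∀ i j, i ≠ j → Disjoint (O i) (O j))
    (g : J → V d ≃ₜ V d) (hg : ∀ j, Good (O j) (g j)) (δ : ℝ≥0∞)
    (hm : ∀ j, μH[(d : ℝ)] (mv (g j)) ≤ δ) (s : Finset J) :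
    ∃ h : V d ≃ₜ V d, (∃ K : ℝ≥0, LipschitzWith K h) ∧ (∃ K : ℝ≥0, LipschitzWith K h.symm) ∧
      (∀ j ∈ s, ∀ x ∈ O j, h x = g j x) ∧ (∀ x, (∀ j ∈ s, x ∉ O j) → h x = x) ∧
      μH[(d : ℝ)] (mv h) ≤ s.card * δ := by
  classical
  induction s using Finset.induction_on with
  | empty =>
    refine ⟨Homeomorph.refl _, ⟨1, LipschitzWith.id⟩, ⟨1, LipschitzWith.id⟩, ?_, fun _ _ => rfl, ?_⟩
    · intro j hj
      exact absurd hj (Finset.notMem_empty j)
    · have : mv (Homeomorph.refl (V d)) = ∅ := by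
        ext x
        simp only [mv, mem_ofPred_eq, Homeomorph.refl_apply, id, mem_empty_iff_false, iff_false,
          not_and, not_not, imp_self]
      rw [this, measure_empty]
      exact zero_le
  | insert a s ha ih =>
    obtain ⟨h, ⟨K1, hK1⟩, ⟨K2, hK2⟩, h1, h2, h3⟩ := ih
    obtain ⟨⟨L1, hL1⟩, ⟨L2, hL2⟩, hga⟩ := hg a
    have hin : ∀ x ∈ O a, h (g a x) = g a x := by
      intro x hx
      apply h2
      intro j hj hxj
      have hja : a ≠ j := fun h4 => ha (h4 ▸ hj)
      exact Set.disjoint_left.1 (hO a j hja) (maps hga hx) hxj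
    refine ⟨(g a).trans h, ⟨K1 * L1, hK1.comp hL1⟩, ⟨L2 * K2, hL2.comp hK2⟩, ?_, ?_, ?_⟩
    · intro j hj x hx
      rw [Homeomorph.trans_apply]
      rcases Finset.mem_insert.1 hj with rfl | hj
      · exact hin x hx
      · have hja : j ≠ a := fun h4 => ha (h4 ▸ hj)
        rw [hga x (fun hxa => Set.disjoint_left.1 (hO j a hja) hx hxa)]
        exact h1 j hj x hx
    · intro x hx
      rw [Homeomorph.trans_apply, hga x (hx a (Finset.mem_insert_self a s))]
      exact h2 x fun j hj => hx j (Finset.mem_insert_of_mem hj)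
    · have hsub : mv ((g a).trans h) ⊆ mv (g a) ∪ mv h := by
        rintro ⟨x, y⟩ ⟨hy, hyx⟩
        simp only [Homeomorph.trans_apply] at hy
        by_cases hxa : x ∈ O a
        · left
          exact ⟨by rw [hy]; exact hin x hxa, hyx⟩
        · right
          refine ⟨?_, hyx⟩
          rw [hy, hga x hxa]
      refine le_trans (measure_mono hsub) (le_trans (measure_union_le _ _) ?_)
      rw [Finset.card_insert_of_notMem ha]
      push_cast
      rw [add_mul, one_mul, add_comm]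
      exact add_le_add h3 (hm a)

theorem main (hT : S_TUBE) : S_MULTI := by
  intro d hd J _ p q hp hq hdis R hR hpq ε hε
  obtain ⟨O, hO, hSO, hOU, hOd⟩ := nhds (fun j => segment ℝ (p j) (q j))
    (fun j => seg_compact _ _) hdis (U d) (U_open d)
    (fun j => (U_convex d).segment_subset (hp j) (hq j))
  set δ : ℝ≥0∞ := ε / Fintype.card J with hδ
  have hδ0 : 0 < δ := ENNReal.div_pos hε.ne' (ENNReal.natCast_ne_top _)
  have h1 : ∀ j, ∃ h : V d ≃ₜ V d, Good (O j) h ∧ h (p j) = q j ∧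
      (∀ x, dist (h x) x ≤ dist (p j) (q j)) ∧ μH[(d : ℝ)] (mv h) ≤ δ :=
    fun j => hT d hd (p j) (q j) (O j) (hO j) (hSO j) δ hδ0
  choose g hg hgp hgd hgm using h1
  obtain ⟨h, hK1, hK2, h2, h3, h4⟩ := comp O hOd g hg δ hgm (Finset.univ : Finset J)
  refine ⟨h, ⟨hK1, hK2, ?_⟩, ?_, ?_, ?_⟩
  · intro x hx
    exact h3 x fun j _ hxj => hx (hOU j hxj)
  · intro j
    rw [h2 j (Finset.mem_univ j) (p j) (hSO j (left_mem_segment ℝ _ _))]
    exact hgp j
  · intro x
    by_cases hx : ∃ j, x ∈ O j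
    · obtain ⟨j, hj⟩ := hx
      rw [h2 j (Finset.mem_univ j) x hj]
      exact le_trans (hgd j x) (hpq j)
    · rw [h3 x fun j _ hxj => hx ⟨j, hxj⟩, dist_self]
      exact hR
  · refine le_trans h4 ?_
    rw [Finset.card_univ, hδ]
    exact ENNReal.mul_div_le

end Pool.Agent.H671.GMMULTI
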