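import Pool.Agent.H638.GM.Stm

/-!
# A homeomorphism changing one coordinate (`S_ONE` of the project GM of helper638)
-/

set_option autoImplicit false

open MeasureTheory Set Filter Topology
open scoped ENNReal NNReal

namespace Pool.Agent.H653.GMONE

open Pool.Agent.H638.GM

variable {d : ℕ} {i : Fin d} {η : V d → ℝ} {K : ℝ≥0} {c : ℝ}

/-- the map -/
noncomputable def hh (i : Fin d) (η : V d → ℝ) (x : V d) : V d := x + Pi.single i (η x)

theorem hh_apply (x : V d) (j : Fin d) : hh i η x j = x j + if j = i then η x else 0 := by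
  unfold hh
  rw [Pi.add_apply, Pi.single_apply]

theorem hh_lip (hK : LipschitzWith K η) : LipschitzWith (1 + K) (hh i η) := by
  apply LipschitzWith.of_dist_le_mul
  intro x y
  rw [dist_pi_le_iff (by positivity)]
  intro j
  have h1 : dist (x j) (y j) ≤ dist x y := dist_le_pi_dist x y j
  have h2 := hK.dist_le_mul x y
  rw [Real.dist_eq] at h1 h2 ⊢
  rw [hh_apply, hh_apply]
  push_cast
  split_ifs
  · have h3 : x j + η x - (y j + η y) = (x j - y j) + (η x - η y) := by ring
    rw [h3]
    refine (abs_add_le _ _).trans ?_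
    linarith
  · have h3 : x j + 0 - (y j + 0) = x j - y j := by ring
    rw [h3]
    have : 0 ≤ (K : ℝ) * dist x y := by positivity
    linarith

theorem line_mono (hs : ∀ (x : V d) (t : ℝ), 0 ≤ t →
    -((1 - c) * t) ≤ η (x + Pi.single i t) - η x) (u : V d) {s s' : ℝ} (h : s ≤ s') :
    c * (s' - s) ≤ (s' + η (u + Pi.single i s')) - (s + η (u + Pi.single i s)) := by
  have h1 := hs (u + Pi.single i s) (s' - s) (by linarith)
  rw [add_assoc, ← Pi.single_add, add_sub_cancel] at h1
  linarith

theorem line_cont (hK : LipschitzWith K η) (u : V d) :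
    Continuous (fun s : ℝ => s + η (u + Pi.single i s)) := by
  apply continuous_id.add
  apply hK.continuous.comp
  apply continuous_const.add
  exact continuous_single (A := fun _ : Fin d => ℝ) i

theorem line_ex (hK : LipschitzWith K η) (hc : 0 < c) (hs : ∀ (x : V d) (t : ℝ), 0 ≤ t →
    -((1 - c) * t) ≤ η (x + Pi.single i t) - η x) (u : V d) :
    ∃ s : ℝ, s + η (u + Pi.single i s) = 0 := by
  set φ : ℝ → ℝ := fun s => s + η (u + Pi.single i s) with hφ
  have htop : Tendsto φ atTop atTop := by
    apply tendsto_atTop_mono' atTop (f₁ := fun s => c * s + φ 0)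
    · filter_upwards [eventually_ge_atTop 0] with s hs0
      have h1 := line_mono (c := c) hs u hs0
      show c * s + φ 0 ≤ φ s
      rw [sub_zero] at h1
      have : φ s = s + η (u + Pi.single i s) := rfl
      have : φ 0 = 0 + η (u + Pi.single i 0) := rfl
      linarith
    · exact tendsto_atTop_add_const_right _ _ (tendsto_id.const_mul_atTop hc)
  have hbot : Tendsto φ atBot atBot := by
    refine tendsto_atBot_mono' atBot (?_ : φ ≤ᶠ[atBot] fun s => c * s + φ 0) ?_
    · filter_upwards [eventually_le_atBot 0] with s hs0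
      have h1 := line_mono (c := c) hs u hs0
      show φ s ≤ c * s + φ 0
      have : φ s = s + η (u + Pi.single i s) := rfl
      have : φ 0 = 0 + η (u + Pi.single i 0) := rfl
      linarith
    · exact tendsto_atBot_add_const_right _ _ (tendsto_id.const_mul_atBot hc)
  exact (line_cont hK u).surjective htop hbot 0

theorem line_uniq (hc : 0 < c) (hs : ∀ (x : V d) (t : ℝ), 0 ≤ t →
    -((1 - c) * t) ≤ η (x + Pi.single i t) - η x) (u : V d) {s s' : ℝ}
    (h : s + η (u + Pi.single i s) = 0) (h' : s' + η (u + Pi.single i s') = 0) : s = s' := by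
  rcases le_total s s' with h1 | h1
  · have h2 := line_mono (c := c) hs u h1
    rw [h, h', sub_self] at h2
    nlinarith
  · have h2 := line_mono (c := c) hs u h1
    rw [h, h', sub_self] at h2
    nlinarith

theorem expand (hK : LipschitzWith K η) (hc : 0 < c) (hs : ∀ (x : V d) (t : ℝ), 0 ≤ t →
    -((1 - c) * t) ≤ η (x + Pi.single i t) - η x) (x y : V d) :
    dist x y ≤ max 1 ((K + 1) / c) * dist (hh i η x) (hh i η y) := by
  set D := dist (hh i η x) (hh i η y) with hD
  have hD0 : 0 ≤ D := dist_nonneg
  have hj : ∀ j, j ≠ i → |x j - y j| ≤ D := by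
    intro j hj
    have h1 : dist (hh i η x j) (hh i η y j) ≤ D := dist_le_pi_dist _ _ j
    rw [hh_apply, hh_apply, if_neg hj, if_neg hj, add_zero, add_zero, Real.dist_eq] at h1
    exact h1
  set y' : V d := y + Pi.single i (x i - y i) with hy'
  have hy'i : y' i = x i := by
    rw [hy', Pi.add_apply, Pi.single_eq_same]
    ring
  have hy'j : ∀ j, j ≠ i → y' j = y j := by
    intro j hj
    rw [hy', Pi.add_apply, Pi.single_apply, if_neg hj, add_zero]
  have h1 : dist y' x ≤ D := by
    rw [dist_pi_le_iff hD0]
    intro j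
    by_cases hji : j = i
    · rw [hji, hy'i, dist_self]; exact hD0
    · rw [hy'j j hji, dist_comm, Real.dist_eq]; exact hj j hji
  have h2 : c * |x i - y i| ≤ |(x i + η y') - (y i + η y)| := by
    rcases le_total 0 (x i - y i) with h3 | h3
    · have h4 := hs y (x i - y i) h3
      rw [← hy'] at h4
      rw [abs_of_nonneg h3]
      refine le_trans ?_ (le_abs_self _)
      linarith
    · have h4 := hs y' (-(x i - y i)) (by linarith)
      have h5 : y' + Pi.single i (-(x i - y i)) = y := by
        rw [hy', add_assoc, ← Pi.single_add, add_neg_cancel, Pi.single_zero, add_zero]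
      rw [h5] at h4
      rw [abs_of_nonpos h3]
      refine le_trans ?_ (neg_le_abs _)
      linarith
  have h3 : |(x i + η y') - (y i + η y)| ≤ (K + 1) * D := by
    have h4 : (x i + η y') - (y i + η y) = (η y' - η x) + ((x i + η x) - (y i + η y)) := by ring
    rw [h4]
    refine (abs_add_le _ _).trans ?_
    have h5 : |η y' - η x| ≤ K * D := by
      have := hK.dist_le_mul y' x
      rw [Real.dist_eq] at this
      exact this.trans (mul_le_mul_of_nonneg_left h1 K.2)
    have h6 : |(x i + η x) - (y i + η y)| ≤ D := by
      have h7 : dist (hh i η x i) (hh i η y i) ≤ D := dist_le_pi_dist _ _ i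
      rw [hh_apply, hh_apply, if_pos rfl, if_pos rfl, Real.dist_eq] at h7
      exact h7
    linarith
  rw [dist_pi_le_iff (by positivity)]
  intro j
  rw [Real.dist_eq]
  by_cases hji : j = i
  · rw [hji]
    have h4 : |x i - y i| ≤ (K + 1) / c * D := by
      rw [div_mul_eq_mul_div, le_div_iff₀ hc, mul_comm]
      exact h2.trans h3
    exact h4.trans (mul_le_mul_of_nonneg_right (le_max_right _ _) hD0)
  · have h4 := hj j hji
    calc |x j - y j| ≤ 1 * D := by rw [one_mul]; exact h4
      _ ≤ _ := mul_le_mul_of_nonneg_right (le_max_left _ _) hD0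

theorem main : S_ONE := by
  intro d i η K c hK hc hs
  choose s hsol using line_ex hK hc hs
  have hinv : ∀ u, hh i η (u + Pi.single i (s u)) = u := by
    intro u
    unfold hh
    rw [add_assoc, ← Pi.single_add, hsol u, Pi.single_zero, add_zero]
  have hinv' : ∀ x, hh i η x + Pi.single i (s (hh i η x)) = x := by
    intro x
    have h1 : s (hh i η x) = - η x := by
      apply line_uniq hc hs (hh i η x) (hsol _)
      unfold hh
      rw [add_assoc, ← Pi.single_add, add_neg_cancel, Pi.single_zero, add_zero, neg_add_cancel]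
    rw [h1]
    unfold hh
    rw [add_assoc, ← Pi.single_add, add_neg_cancel, Pi.single_zero, add_zero]
  let g : V d → V d := fun u => u + Pi.single i (s u)
  have hg : ∀ u, g u = u + Pi.single i (s u) := fun _ => rfl
  have hL : LipschitzWith (max 1 ((K + 1) / ⟨c, hc.le⟩)) g := by
    apply LipschitzWith.of_dist_le_mul
    intro u v
    have h1 := expand hK hc hs (g u) (g v)
    rw [hg, hg, hinv, hinv, ← hg, ← hg] at h1
    refine h1.trans (le_of_eq ?_)
    push_cast
    rfl
  refine ⟨{ toFun := hh i η
            invFun := g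
            left_inv := hinv'
            right_inv := hinv
            continuous_toFun := (hh_lip hK).continuous
            continuous_invFun := hL.continuous }, fun x => rfl, ⟨1 + K, hh_lip hK⟩, ⟨_, hL⟩⟩

end Pool.Agent.H653.GMONE
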