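import Pool.Agent.H638.GM.Stm

set_option autoImplicit false

open MeasureTheory Set Filter Topology
open scoped ENNReal NNReal

namespace Pool.Agent.H767.GMREC

open Pool.Agent.H638.GM

/-- the state of the recursion -/
structure St (d n : ℕ) where
  F : V d ≃ₜ V d
  P : Finset (V d × V d)
  s : ℝ
  good : Good (U d) F
  graph : ∀ p ∈ P, p.2 = F p.1
  spos : 0 < s
  sle : s ≤ 1 / 8 * (1 / 2 : ℝ) ^ n
  marg : ∀ p ∈ P, ∀ j, 2 * s ≤ p.1 j ∧ p.1 j ≤ 1 - 4 * s ∧ 2 * s ≤ p.2 j ∧ p.2 j ≤ 1 - 4 * s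
  osc : ∀ x y, dist x y ≤ 2 * s → dist (F x) (F y) ≤ 3 * (1 / 2 : ℝ) ^ n
  meas : μH[(d : ℝ)] (gr F) < 2

lemma step (h1 : S_STEP) (h2 : S_SWAP) (d : ℕ) (hd : 3 ≤ d) (N n : ℕ) (X : St d n) :
    ∃ (m : ℕ) (ch : V d × V d → (Fin d → ℕ) → V d × V d) (X' : St d (n + 1)),
      X'.s = X.s / m ∧ 64 ≤ m ∧ 64 * N ≤ m ∧
      (∀ p ∈ X.P, ∀ k : Fin d → ℕ, (∀ j, k j < m) → ch p k ∈ X'.P ∧
        (∀ j, |(ch p k).1 j - p.2 j| ≤ X'.s / 64) ∧
        ∀ j, |(ch p k).2 j - (p.1 j + X'.s * k j)| ≤ X'.s / 64) ∧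
      (∀ x, dist (X'.F.symm x) (X.F x) ≤ 4 * (1 / 2 : ℝ) ^ n) ∧
      (∀ x, dist (X'.F x) (X.F.symm x) ≤ 4 * (1 / 2 : ℝ) ^ n) := by
  obtain ⟨F, P, s, good, graph, spos, sle, marg, osc, meas⟩ := X
  dsimp only
  obtain ⟨K, hK⟩ := good.2.1
  -- choice of m
  obtain ⟨m₁, hm₁⟩ := exists_nat_ge (2 * (K : ℝ) * s / (1 / 2 : ℝ) ^ (n + 1))
  let m : ℕ := m₁ + 64 + 64 * N
  have hm64 : 64 ≤ m := by simp only [m]; omega
  have hmN : 64 * N ≤ m := by simp only [m]; omega
  have hm0 : (0 : ℝ) < m := by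
    have : 0 < m := by omega
    exact_mod_cast this
  have hm64' : (64 : ℝ) ≤ m := by exact_mod_cast hm64
  have hKm : 2 * (K : ℝ) * s / m ≤ (1 / 2 : ℝ) ^ (n + 1) := by
    rw [div_le_iff₀ hm0]
    have h3 : (m₁ : ℝ) ≤ m := by
      have : m₁ ≤ m := by simp only [m]; omega
      exact_mod_cast this
    have h4 : (0 : ℝ) < (1 / 2 : ℝ) ^ (n + 1) := by positivity
    rw [div_le_iff₀ h4] at hm₁
    calc 2 * (K : ℝ) * s ≤ m₁ * (1 / 2 : ℝ) ^ (n + 1) := hm₁
      _ ≤ m * (1 / 2 : ℝ) ^ (n + 1) := by gcongr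
      _ = _ := by ring
  set s' : ℝ := s / m with hs'
  have hs'0 : 0 < s' := by positivity
  have hs's : 64 * s' ≤ s := by
    rw [hs', ← mul_div_assoc, div_le_iff₀ hm0]
    nlinarith
  obtain ⟨ε, hε0, hε⟩ := ENNReal.lt_iff_exists_add_pos_lt.1 meas
  obtain ⟨h, ch, hgood, hdist, hmeas, hch⟩ := h1 d hd F good P graph s m spos (by omega)
    (fun p hp j => ⟨by linarith [(marg p hp j).1], by linarith [(marg p hp j).2.1]⟩)
    (s' / 64) (by positivity) (ε : ℝ≥0∞) (by exact_mod_cast hε0)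
  have hoff : ∀ x, x ∉ U d → (h.trans F) x = x := by
    intro x hx
    rw [Homeomorph.trans_apply, hgood.2.2 x hx, good.2.2 x hx]
  have hinv : ∀ x, dist (h.symm x) x ≤ 2 * s := by
    intro x
    have h3 := hdist (h.symm x)
    rw [Homeomorph.apply_symm_apply, dist_comm] at h3
    linarith
  let P' : Finset (V d × V d) := by
    classical
    exact (P ×ˢ Fintype.piFinset (fun _ : Fin d => Finset.range m)).image
      (fun pk => (ch pk.1 pk.2).swap)
  have hP' : ∀ q, q ∈ P' ↔ ∃ p ∈ P, ∃ k : Fin d → ℕ, (∀ j, k j < m) ∧ q = (ch p k).swap := by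
    intro q
    simp only [P', Finset.mem_image, Finset.mem_product, Fintype.mem_piFinset, Finset.mem_range]
    constructor
    · rintro ⟨⟨p, k⟩, ⟨hp, hk⟩, rfl⟩
      exact ⟨p, hp, k, hk, rfl⟩
    · rintro ⟨p, hp, k, hk, rfl⟩
      exact ⟨(p, k), ⟨hp, hk⟩, rfl⟩
  have hk' : ∀ k : ℕ, k < m → 0 ≤ s' * k ∧ s' * k ≤ s := by
    intro k hk
    refine ⟨by positivity, ?_⟩
    have h3 : (k : ℝ) ≤ m := by exact_mod_cast hk.le
    calc s' * k ≤ s' * m := by gcongr
      _ = s := by rw [hs']; field_simp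
  have hpow : (0 : ℝ) < (1 / 2 : ℝ) ^ n := by positivity
  refine ⟨m, fun p k => (ch p k).swap, ⟨(h.trans F).symm, P', s', ?_, ?_, hs'0, ?_, ?_, ?_, ?_⟩,
    rfl, hm64, hmN, ?_, ?_, ?_⟩
  · -- Good
    refine ⟨?_, ?_, ?_⟩
    · obtain ⟨K1, hK1⟩ := hgood.2.1
      exact ⟨K1 * K, hK1.comp hK⟩
    · obtain ⟨K1, hK1⟩ := hgood.1
      obtain ⟨K2, hK2⟩ := good.1
      exact ⟨K2 * K1, hK2.comp hK1⟩
    · intro x hx
      have h3 := hoff x hx
      calc (h.trans F).symm x = (h.trans F).symm ((h.trans F) x) := by rw [h3]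
        _ = x := Homeomorph.symm_apply_apply _ _
  · intro q hq
    obtain ⟨p, hp, k, hk, rfl⟩ := (hP' q).1 hq
    have h3 := (hch p hp k hk).1
    simp only [Prod.fst_swap, Prod.snd_swap]
    rw [h3]
    exact (Homeomorph.symm_apply_apply (h.trans F) _).symm
  · -- s'
    calc s' ≤ s / 2 := by linarith
      _ ≤ (1 / 8 * (1 / 2 : ℝ) ^ n) / 2 := by linarith
      _ = _ := by rw [pow_succ]; ring
  · intro q hq j
    obtain ⟨p, hp, k, hk, rfl⟩ := (hP' q).1 hq
    obtain ⟨_, h4, h5⟩ := hch p hp k hk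
    have h4 := abs_le.1 (h4 j)
    have h5 := abs_le.1 (h5 j)
    have h6 := marg p hp j
    have h7 := hk' (k j) (hk j)
    simp only [Prod.fst_swap, Prod.snd_swap]
    refine ⟨?_, ?_, ?_, ?_⟩ <;> linarith [h4.1, h4.2, h5.1, h5.2, h6.1, h6.2.1, h6.2.2.1, h6.2.2.2,
      h7.1, h7.2]
  · -- osc
    intro x y hxy
    have e1 : ∀ z, (h.trans F).symm z = h.symm (F.symm z) := fun z => rfl
    rw [e1, e1]
    have h3 := hinv (F.symm x)
    have h4 := hinv (F.symm y)
    have h5 : dist (F.symm x) (F.symm y) ≤ K * dist x y := hK.dist_le_mul x y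
    have h6 : (K : ℝ) * dist x y ≤ (1 / 2 : ℝ) ^ (n + 1) := by
      calc (K : ℝ) * dist x y ≤ K * (2 * s') := by gcongr
        _ = 2 * (K : ℝ) * s / m := by rw [hs']; ring
        _ ≤ _ := hKm
    have h7 : dist (h.symm (F.symm x)) (h.symm (F.symm y)) ≤
        dist (h.symm (F.symm x)) (F.symm x) + dist (F.symm x) (F.symm y) +
          dist (F.symm y) (h.symm (F.symm y)) := dist_triangle4 _ _ _ _
    rw [dist_comm (F.symm y) (h.symm (F.symm y))] at h7
    have h8 : (1 / 2 : ℝ) ^ (n + 1) = (1 / 2) * (1 / 2 : ℝ) ^ n := by rw [pow_succ]; ring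
    rw [h8] at h6 ⊢
    linarith
  · -- measure
    rw [h2 d (h.trans F) hoff]
    exact lt_of_le_of_lt hmeas hε
  · intro p hp k hk
    obtain ⟨_, h4, h5⟩ := hch p hp k hk
    refine ⟨(hP' _).2 ⟨p, hp, k, hk, rfl⟩, h5, h4⟩
  · intro x
    have e1 : ((h.trans F).symm).symm x = F (h x) := rfl
    rw [e1]
    have h3 := osc (h x) x (by linarith [hdist x])
    linarith
  · intro x
    have e1 : ((h.trans F).symm) x = h.symm (F.symm x) := rfl
    rw [e1]
    linarith [hinv (F.symm x)]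

lemma start_meas (d : ℕ) : μH[(d : ℝ)] (gr (Homeomorph.refl (V d))) < 2 := by
  have h1 : gr (Homeomorph.refl (V d)) = (fun x : V d => (x, x)) '' Q d := by
    ext p
    constructor
    · rintro ⟨hp1, hp2⟩
      refine ⟨p.1, hp1, ?_⟩
      exact Prod.ext rfl hp2.symm
    · rintro ⟨x, hx, rfl⟩
      exact ⟨hx, rfl⟩
  have h2 : Isometry (fun x : V d => (x, x)) := by
    apply Isometry.of_dist_eq
    intro x y
    rw [Prod.dist_eq]
    exact max_self _
  rw [h1, h2.hausdorffMeasure_image (Or.inl (by positivity))]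
  have h3 : (μH[(d : ℝ)] : Measure (V d)) = volume := by
    have := hausdorffMeasure_pi_real (ι := Fin d)
    rwa [Fintype.card_fin] at this
  rw [h3]
  have h4 : Q d = Set.Icc (0 : V d) 1 := by
    ext x
    simp only [Q, Set.mem_Icc, Pi.le_def]
    constructor
    · intro hx
      exact ⟨fun i => (hx i).1, fun i => (hx i).2⟩
    · rintro ⟨hx1, hx2⟩ i
      exact ⟨hx1 i, hx2 i⟩
  rw [h4, Real.volume_Icc_pi]
  simp

theorem main (h1 : S_STEP) (h2 : S_SWAP) : S_REC := by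
  classical
  intro d hd N hN
  have hN0 : (0 : ℝ) < N := by exact_mod_cast hN
  have hst : ∀ (i : Fin d → Fin N) (j : Fin d), 1 / 4 ≤ st N i j ∧ st N i j ≤ 1 / 2 := by
    intro i j
    unfold st
    have h3 : ((i j : ℕ) : ℝ) ≤ N := by exact_mod_cast (i j).2.le
    constructor
    · have : 0 ≤ ((i j : ℕ) : ℝ) / (4 * N) := by positivity
      linarith
    · have : ((i j : ℕ) : ℝ) / (4 * N) ≤ 1 / 4 := by
        rw [div_le_iff₀ (by positivity)]
        linarith
      linarith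
  let X0 : St d 0 := {
    F := Homeomorph.refl (V d)
    P := Finset.univ.image (fun i : Fin d → Fin N => (st N i, st N i))
    s := 1 / 8
    good := ⟨⟨1, LipschitzWith.id⟩, ⟨1, LipschitzWith.id⟩, fun x _ => rfl⟩
    graph := by
      intro p hp
      obtain ⟨i, _, rfl⟩ := Finset.mem_image.1 hp
      rfl
    spos := by norm_num
    sle := by norm_num
    marg := by
      intro p hp j
      obtain ⟨i, _, rfl⟩ := Finset.mem_image.1 hp
      have := hst i j
      refine ⟨?_, ?_, ?_, ?_⟩ <;> dsimp only <;> linarith [this.1, this.2]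
    osc := by
      intro x y hxy
      change dist x y ≤ _
      rw [pow_zero]
      linarith
    meas := start_meas d }
  choose mm chh nx hs h64 h64N hchild hc1 hc2 using fun (n : ℕ) (X : St d n) =>
    step h1 h2 d hd N n X
  let seq : (n : ℕ) → St d n := fun n => Nat.rec X0 (fun n X => nx n X) n
  have hseq : ∀ n, seq (n + 1) = nx n (seq n) := fun n => rfl
  refine ⟨fun n => (seq n).F, fun n => (seq n).s, fun n => mm n (seq n),
    fun n => ((seq n).P : Set (V d × V d)), fun n => chh n (seq n), ?_⟩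
  exact {
    s0 := rfl
    P0 := by
      intro i
      change (st N i, st N i) ∈ (X0.P : Set (V d × V d))
      exact Finset.mem_coe.2 (Finset.mem_image.2 ⟨i, Finset.mem_univ _, rfl⟩)
    sm := fun n => hs n (seq n)
    m64 := fun n => h64 n (seq n)
    m0 := h64N 0 (seq 0)
    good := fun n => (seq n).good
    graph := fun n p hp => (seq n).graph p hp
    child := fun n p hp k hk => hchild n (seq n) p hp k hk
    close1 := fun n x => hc1 n (seq n) x
    close2 := fun n x => hc2 n (seq n) x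
    meas := fun n => (seq n).meas.le }

end Pool.Agent.H767.GMREC
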