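import Pool.Agent.H638.GM.Stm

set_option autoImplicit false

/-! Project GM, part STEP: one step of the construction. -/

open MeasureTheory Set Filter Topology
open scoped ENNReal NNReal

namespace Pool.Agent.H84.GMSTEP

open Pool.Agent.H638.GM

theorem main (h1 : S_GP) (h2 : S_MULTI) (h3 : S_COST) : S_STEP := by
  classical
  intro d hd F hF P hP s m hs hm hmar δ hδ ε hε
  obtain ⟨⟨K, hK⟩, -, -⟩ := hF
  have hK0 : (0 : ℝ) ≤ K := K.2
  set δ' : ℝ := min (δ / 2) (min (δ / (K + 1)) (s / 2)) with hδ'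
  have hδ'0 : 0 < δ' := by
    refine lt_min (by positivity) (lt_min (by positivity) (by positivity))
  have hd1 : δ' ≤ δ / 2 := min_le_left _ _
  have hd2 : δ' ≤ δ / (K + 1) := (min_le_right _ _).trans (min_le_left _ _)
  have hd3 : δ' ≤ s / 2 := (min_le_right _ _).trans (min_le_right _ _)
  have hd4 : K * δ' ≤ δ := by
    have : (K : ℝ) * δ' ≤ K * (δ / (K + 1)) := mul_le_mul_of_nonneg_left hd2 hK0
    refine this.trans ?_
    rw [mul_div_assoc', div_le_iff₀ (by positivity)]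
    nlinarith
  have hm0 : (0 : ℝ) < m := by exact_mod_cast hm
  let J : Type := {p // p ∈ P} × (Fin d → Fin m)
  let a : J → V d := fun x j => x.1.1.1 j + s / m * ((x.2 j : ℕ) : ℝ)
  let b : J → V d := fun x => x.1.1.1
  obtain ⟨pp, qq, hp, hq, hdis⟩ := h1 d hd J a b δ' hδ'0
  have hk : ∀ (x : J) (j : Fin d), 0 ≤ s / m * ((x.2 j : ℕ) : ℝ) ∧
      s / m * ((x.2 j : ℕ) : ℝ) ≤ s := by
    intro x j
    have h5 : ((x.2 j : ℕ) : ℝ) ≤ m := by exact_mod_cast (x.2 j).2.le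
    refine ⟨by positivity, ?_⟩
    calc s / m * ((x.2 j : ℕ) : ℝ) ≤ s / m * m := mul_le_mul_of_nonneg_left h5 (by positivity)
      _ = s := by field_simp
  have hpc : ∀ (x : J) (j : Fin d), |pp x j - (x.1.1.1 j + s / m * ((x.2 j : ℕ) : ℝ))| ≤ δ' := by
    intro x j
    have := (dist_pi_le_iff hδ'0.le).1 (hp x) j
    rwa [Real.dist_eq] at this
  have hqc : ∀ (x : J) (j : Fin d), |qq x j - x.1.1.1 j| ≤ δ' := by
    intro x j
    have := (dist_pi_le_iff hδ'0.le).1 (hq x) j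
    rwa [Real.dist_eq] at this
  have hpU : ∀ x, pp x ∈ U d := by
    intro x j
    have e1 := abs_le.1 (hpc x j)
    have e2 := hk x j
    have e3 := hmar x.1.1 x.1.2 j
    constructor <;> linarith [e1.1, e1.2, e2.1, e2.2, e3.1, e3.2]
  have hqU : ∀ x, qq x ∈ U d := by
    intro x j
    have e1 := abs_le.1 (hqc x j)
    have e3 := hmar x.1.1 x.1.2 j
    constructor <;> linarith [e1.1, e1.2, e3.1, e3.2]
  have hpq : ∀ x, dist (pp x) (qq x) ≤ s + δ := by
    intro x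
    have e1 := hp x
    have e2 : dist (a x) (b x) ≤ s := by
      refine (dist_pi_le_iff hs.le).2 fun j => ?_
      have e3 := hk x j
      rw [Real.dist_eq]
      show |x.1.1.1 j + s / m * ((x.2 j : ℕ) : ℝ) - x.1.1.1 j| ≤ s
      rw [add_sub_cancel_left, abs_of_nonneg e3.1]
      exact e3.2
    have e3 := hq x
    rw [dist_comm] at e3
    have e4 := dist_triangle4 (pp x) (a x) (b x) (qq x)
    linarith
  set c : ℝ≥0∞ := ((max 1 K : ℝ≥0) : ℝ≥0∞) ^ (d : ℝ) with hc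
  have hc1 : c ≠ ∞ := ENNReal.rpow_ne_top_of_nonneg (by positivity) ENNReal.coe_ne_top
  have hε' : 0 < ε / c := ENNReal.div_pos hε.ne' hc1
  obtain ⟨h, hG, hh, hdist, hmv⟩ := h2 d hd J pp qq hpU hqU hdis (s + δ) (by positivity) hpq
    (ε / c) hε'
  refine ⟨h, fun p k => if hx : p ∈ P ∧ ∀ j, k j < m then
    (pp ⟨⟨p, hx.1⟩, fun j => ⟨k j, hx.2 j⟩⟩, F (qq ⟨⟨p, hx.1⟩, fun j => ⟨k j, hx.2 j⟩⟩)) else (0, 0),
    hG, hdist, ?_, ?_⟩
  · refine (h3 d F h K hK).trans (add_le_add le_rfl ?_)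
    calc c * μH[(d : ℝ)] (mv h) ≤ c * (ε / c) := by gcongr
      _ ≤ ε := ENNReal.mul_div_le
  · intro p hpP k hkm
    have hx : p ∈ P ∧ ∀ j, k j < m := ⟨hpP, hkm⟩
    simp only [dif_pos hx]
    set x : J := ⟨⟨p, hx.1⟩, fun j => ⟨k j, hx.2 j⟩⟩ with hxd
    refine ⟨by rw [hh x], fun j => ?_, fun j => ?_⟩
    · have := hpc x j
      refine this.trans ?_
      linarith
    · have e1 : dist (F (qq x)) (F p.1) ≤ K * dist (qq x) p.1 := hK.dist_le_mul _ _
      have e2 : dist (qq x) p.1 ≤ δ' := hq x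
      have e3 : dist (F (qq x)) (F p.1) ≤ δ :=
        e1.trans ((mul_le_mul_of_nonneg_left e2 hK0).trans hd4)
      have e4 := (dist_pi_le_iff hδ.le).1 e3 j
      rw [Real.dist_eq] at e4
      rw [hP p hpP]
      exact e4

end Pool.Agent.H84.GMSTEP
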