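import Pool.Agent.H638.GM.Stm

/-!
# Project GM (helper638), task TAIL: convergence of the branches
-/

set_option autoImplicit false

open MeasureTheory Set Filter Topology

namespace Pool.Agent.H142.GMTAIL

open Pool.Agent.H638.GM

theorem seq_lim (x s : ℕ → ℝ) (hs0 : ∀ n, 0 ≤ s n) (hs : ∀ n, s (n + 1) ≤ s n / 64)
    (hx : ∀ n, |x (n + 1) - x n| ≤ s n) :
    ∃ L, Tendsto x atTop (𝓝 L) ∧ ∀ n, |L - x n| ≤ 64 / 63 * s n := by
  have hk : ∀ n k, |x (n + k) - x n| ≤ 64 / 63 * (s n - s (n + k)) := by
    intro n k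
    induction k with
    | zero => simp
    | succ k ih =>
      have h1 := abs_le.1 (hx (n + k))
      have h2 := abs_le.1 ih
      have h3 := hs (n + k)
      rw [← add_assoc, abs_le]
      constructor <;> linarith [h1.1, h1.2, h2.1, h2.2]
  have hk' : ∀ n m, n ≤ m → |x m - x n| ≤ 64 / 63 * s n := by
    intro n m hnm
    obtain ⟨k, rfl⟩ := Nat.exists_eq_add_of_le hnm
    have := hs0 (n + k)
    linarith [hk n k]
  have hgeo : ∀ n, s n ≤ s 0 * (1 / 64) ^ n := by
    intro n
    induction n with
    | zero => simp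
    | succ n ih =>
      rw [pow_succ]
      linarith [hs n]
  have hs1 : Tendsto (fun n => 64 / 63 * s n) atTop (𝓝 0) := by
    have h1 : Tendsto (fun n : ℕ => 64 / 63 * (s 0 * (1 / 64 : ℝ) ^ n)) atTop (𝓝 (64 / 63 * (s 0 * 0))) :=
      ((tendsto_pow_atTop_nhds_zero_of_lt_one (by norm_num) (by norm_num)).const_mul _).const_mul _
    rw [mul_zero, mul_zero] at h1
    exact squeeze_zero (fun n => mul_nonneg (by norm_num) (hs0 n))
      (fun n => mul_le_mul_of_nonneg_left (hgeo n) (by norm_num)) h1
  have hc : CauchySeq x := by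
    refine cauchySeq_of_le_tendsto_0' (fun n => 64 / 63 * s n) ?_ hs1
    intro n m hnm
    rw [dist_comm, Real.dist_eq]
    exact hk' n m hnm
  obtain ⟨L, hL⟩ := cauchySeq_tendsto_of_complete hc
  refine ⟨L, hL, fun n => ?_⟩
  have h2 : Tendsto (fun m => |x m - x n|) atTop (𝓝 |L - x n|) := (hL.sub_const _).abs
  exact le_of_tendsto h2 (eventually_atTop.2 ⟨n, fun m hm => hk' n m hm⟩)

theorem main : S_TAIL := by
  intro d N F s m P ch hD p hp a ha
  have hm : ∀ n, (64 : ℝ) ≤ m n := fun n => by exact_mod_cast hD.m64 n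
  have hspos : ∀ n, 0 < s n := by
    intro n
    induction n with
    | zero => rw [hD.s0]; norm_num
    | succ n ih =>
      rw [hD.sm n]
      exact div_pos ih (by linarith [hm n])
  have hs0 : ∀ n, 0 ≤ s n := fun n => (hspos n).le
  have hs : ∀ n, s (n + 1) ≤ s n / 64 := by
    intro n
    rw [hD.sm n]
    exact div_le_div_of_nonneg_left (hs0 n) (by norm_num) (hm n)
  set b : ℕ → V d × V d := br ch p a with hb
  have hbs : ∀ n, b (n + 1) = ch n (b n) (a n) := fun n => rfl
  have hbP : ∀ n, b n ∈ P n := by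
    intro n
    induction n with
    | zero => exact hp
    | succ n ih =>
      rw [hbs]
      exact (hD.child n (b n) ih (a n) (ha n)).1
  have h1 : ∀ n j, |(b (n + 1)).1 j - (b n).2 j| ≤ s (n + 1) / 64 := fun n j =>
    (hD.child n (b n) (hbP n) (a n) (ha n)).2.1 j
  have h2 : ∀ n j, |(b (n + 1)).2 j - (b n).1 j| ≤ s n := by
    intro n j
    have h3 := abs_le.1 ((hD.child n (b n) (hbP n) (a n) (ha n)).2.2 j)
    rw [← hbs] at h3
    have h4 : (a n j : ℝ) + 1 ≤ m n := by exact_mod_cast ha n j
    have h5 : s (n + 1) * m n = s n := by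
      rw [hD.sm n]
      exact div_mul_cancel₀ _ (by linarith [hm n])
    have h6 : 0 ≤ s (n + 1) * a n j := mul_nonneg (hs0 _) (Nat.cast_nonneg _)
    have h7 : s (n + 1) * (a n j + 1) ≤ s (n + 1) * m n := mul_le_mul_of_nonneg_left h4 (hs0 _)
    have h8 := hs0 (n + 1)
    have h9 := hs n
    rw [abs_le]
    constructor <;> nlinarith [h3.1, h3.2]
  have h1' : ∀ n j, |(b (n + 1)).1 j - (b n).2 j| ≤ s n := by
    intro n j
    have h3 := h1 n j
    have h4 := hs n
    have h5 := hs0 n
    linarith
  have hA : ∀ j, ∃ L, Tendsto (fun n => (sw n (b n)).1 j) atTop (𝓝 L) ∧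
      ∀ n, |L - (sw n (b n)).1 j| ≤ 64 / 63 * s n := by
    intro j
    refine seq_lim _ s hs0 hs fun n => ?_
    by_cases hn : Even n
    · have hn' : ¬ Even (n + 1) := by rw [Nat.even_add_one, not_not]; exact hn
      simp only [sw, if_pos hn, if_neg hn', Prod.fst_swap]
      exact h2 n j
    · have hn' : Even (n + 1) := by rw [Nat.even_add_one]; exact hn
      simp only [sw, if_neg hn, if_pos hn', Prod.fst_swap]
      exact h1' n j
  have hB : ∀ j, ∃ L, Tendsto (fun n => (sw n (b n)).2 j) atTop (𝓝 L) ∧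
      ∀ n, |L - (sw n (b n)).2 j| ≤ 64 / 63 * s n := by
    intro j
    refine seq_lim _ s hs0 hs fun n => ?_
    by_cases hn : Even n
    · have hn' : ¬ Even (n + 1) := by rw [Nat.even_add_one, not_not]; exact hn
      simp only [sw, if_pos hn, if_neg hn', Prod.snd_swap]
      exact h1' n j
    · have hn' : Even (n + 1) := by rw [Nat.even_add_one]; exact hn
      simp only [sw, if_neg hn, if_pos hn', Prod.snd_swap]
      exact h2 n j
  choose A hA1 hA2 using hA
  choose B hB1 hB2 using hB
  refine ⟨hbP, (A, B), ?_, ?_, ?_⟩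
  · rw [Prod.tendsto_iff]
    constructor
    · rw [tendsto_pi_nhds]
      exact hA1
    · rw [tendsto_pi_nhds]
      exact hB1
  · intro n j
    have h8 := hs0 n
    by_cases hn : Even n
    · have h3 := hA2 j n
      simp only [sw, if_pos hn] at h3 ⊢
      linarith
    · have h3 := hB2 j n
      simp only [sw, if_neg hn, Prod.snd_swap, Prod.fst_swap] at h3 ⊢
      linarith
  · intro n j
    have h8 := hs0 (n + 1)
    have h9 := abs_le.1 (h1 n j)
    by_cases hn : Even n
    · have hn' : ¬ Even (n + 1) := by rw [Nat.even_add_one, not_not]; exact hn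
      have h3 := abs_le.1 (hB2 j (n + 1))
      simp only [sw, if_neg hn', Prod.snd_swap] at h3
      simp only [sw, if_pos hn]
      rw [abs_le]
      constructor <;> linarith [h3.1, h3.2, h9.1, h9.2]
    · have hn' : Even (n + 1) := by rw [Nat.even_add_one]; exact hn
      have h3 := abs_le.1 (hA2 j (n + 1))
      simp only [sw, if_pos hn'] at h3
      simp only [sw, if_neg hn, Prod.snd_swap]
      rw [abs_le]
      constructor <;> linarith [h3.1, h3.2, h9.1, h9.2]

end Pool.Agent.H142.GMTAIL
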