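import Pool.Agent.H638.GM.Stm

/-!
# Task TUB0: the explicit finger homeomorphism
-/

set_option autoImplicit false

open MeasureTheory Set Filter Topology
open scoped ENNReal NNReal

namespace Pool.Agent.H772.GMTUB0

open Pool.Agent.H638.GM

/-- the largest absolute value of the other coordinates -/
noncomputable def N {d : ℕ} (i : Fin d) (x : V d) : ℝ := ‖Function.update x i 0‖

theorem N_lip {d : ℕ} (i : Fin d) (x y : V d) : |N i x - N i y| ≤ ‖x - y‖ := by
  apply (abs_norm_sub_norm_le _ _).trans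
  rw [pi_norm_le_iff_of_nonneg (norm_nonneg _)]
  intro j
  rw [Pi.sub_apply]
  by_cases hj : j = i
  · subst hj
    rw [Function.update_self, Function.update_self, sub_zero, norm_zero]
    exact norm_nonneg _
  · rw [Function.update_of_ne hj, Function.update_of_ne hj, ← Pi.sub_apply]
    exact norm_le_pi_norm _ _

theorem N_single {d : ℕ} (i : Fin d) (x : V d) (t : ℝ) : N i (x + Pi.single i t) = N i x := by
  unfold N
  congr 1
  funext j
  by_cases hj : j = i
  · subst hj
    rw [Function.update_self, Function.update_self]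
  · rw [Function.update_of_ne hj, Function.update_of_ne hj, Pi.add_apply, Pi.single_eq_of_ne hj,
      add_zero]

theorem le_N {d : ℕ} (i : Fin d) (x : V d) (j : Fin d) (hj : j ≠ i) : |x j| ≤ N i x := by
  have h := norm_le_pi_norm (Function.update x i 0) j
  rw [Function.update_of_ne hj, Real.norm_eq_abs] at h
  exact h

theorem N_zero {d : ℕ} (i : Fin d) : N i (0 : V d) = 0 := by
  unfold N
  rw [norm_eq_zero]
  funext j
  by_cases hj : j = i
  · subst hj
    rw [Function.update_self]
    rfl
  · rw [Function.update_of_ne hj]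

/-- the first factor -/
noncomputable def lam {d : ℕ} (i : Fin d) (M : ℝ) (x : V d) : ℝ := max (1 - M * N i x) 0

/-- the second factor -/
noncomputable def beta (M : ℝ) (t : ℝ) : ℝ :=
  max (min (1 + M * t) ((1 + 1 / M - t) / (1 + 1 / M))) 0

theorem lam_nonneg {d : ℕ} (i : Fin d) (M : ℝ) (x : V d) : 0 ≤ lam i M x := le_max_right _ _

theorem lam_le_one {d : ℕ} (i : Fin d) {M : ℝ} (hM : 1 ≤ M) (x : V d) : lam i M x ≤ 1 := by
  apply max_le _ zero_le_one
  have h : 0 ≤ M * N i x := mul_nonneg (by linarith) (norm_nonneg _)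
  linarith

theorem beta_nonneg (M t : ℝ) : 0 ≤ beta M t := le_max_right _ _

theorem beta_le_one {M : ℝ} (hM : 1 ≤ M) (t : ℝ) : beta M t ≤ 1 := by
  have hM0 : 0 < M := by linarith
  have hw : 0 < 1 / M := by positivity
  apply max_le _ zero_le_one
  rcases le_total t 0 with ht | ht
  · apply (min_le_left _ _).trans
    nlinarith
  · apply (min_le_right _ _).trans
    rw [div_le_one (by linarith)]
    linarith

theorem lam_lip {d : ℕ} (i : Fin d) {M : ℝ} (hM : 1 ≤ M) (x y : V d) :
    |lam i M x - lam i M y| ≤ M * ‖x - y‖ := by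
  apply (abs_max_sub_max_le_abs _ _ _).trans
  have h : 1 - M * N i x - (1 - M * N i y) = M * (N i y - N i x) := by ring
  rw [h, abs_mul, abs_of_pos (by linarith), abs_sub_comm]
  exact mul_le_mul_of_nonneg_left (N_lip i x y) (by linarith)

theorem beta_lip {M : ℝ} (hM : 1 ≤ M) (s t : ℝ) : |beta M s - beta M t| ≤ M * |s - t| := by
  have hM0 : 0 < M := by linarith
  have hw : 0 < 1 / M := by positivity
  apply (abs_max_sub_max_le_abs _ _ _).trans
  apply (abs_min_sub_min_le_max _ _ _ _).trans
  apply max_le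
  · have h : 1 + M * s - (1 + M * t) = M * (s - t) := by ring
    rw [h, abs_mul, abs_of_pos hM0]
  · have h : (1 + 1 / M - s) / (1 + 1 / M) - (1 + 1 / M - t) / (1 + 1 / M) =
        (t - s) / (1 + 1 / M) := by ring
    rw [h, abs_div, abs_of_pos (by linarith : 0 < 1 + 1 / M), abs_sub_comm,
      div_le_iff₀ (by linarith)]
    have h1 : 0 ≤ |s - t| := abs_nonneg _
    have h2 : |s - t| ≤ M * |s - t| := by nlinarith
    have h3 : 0 ≤ M * |s - t| * (1 / M) := by positivity
    linarith

theorem beta_slope {M : ℝ} (hM : 1 ≤ M) (s t : ℝ) (ht : 0 ≤ t) :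
    -(t / (1 + 1 / M)) ≤ beta M (s + t) - beta M s := by
  have hM0 : 0 < M := by linarith
  have hw : 0 < 1 / M := by positivity
  have hd : 0 ≤ t / (1 + 1 / M) := by positivity
  have h1 : min (1 + M * s) ((1 + 1 / M - s) / (1 + 1 / M)) - t / (1 + 1 / M) ≤
      min (1 + M * (s + t)) ((1 + 1 / M - (s + t)) / (1 + 1 / M)) := by
    apply le_min
    · have := min_le_left (1 + M * s) ((1 + 1 / M - s) / (1 + 1 / M))
      have h2 : 0 ≤ M * t := by positivity
      linarith
    · have := min_le_right (1 + M * s) ((1 + 1 / M - s) / (1 + 1 / M))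
      have h2 : (1 + 1 / M - (s + t)) / (1 + 1 / M) =
          (1 + 1 / M - s) / (1 + 1 / M) - t / (1 + 1 / M) := by ring
      rw [h2]
      linarith
  unfold beta
  have h3 := le_max_left (min (1 + M * (s + t)) ((1 + 1 / M - (s + t)) / (1 + 1 / M))) 0
  have h4 := le_max_right (min (1 + M * (s + t)) ((1 + 1 / M - (s + t)) / (1 + 1 / M))) 0
  rcases le_total (min (1 + M * s) ((1 + 1 / M - s) / (1 + 1 / M))) 0 with h | h
  · rw [max_eq_right h]
    linarith
  · rw [max_eq_left h]
    linarith

/-- the displacement -/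
noncomputable def eta {d : ℕ} (i : Fin d) (M : ℝ) (x : V d) : ℝ := lam i M x * beta M (x i)

theorem eta_lip {d : ℕ} (i : Fin d) {M : ℝ} (hM : 1 ≤ M) (x y : V d) :
    |eta i M x - eta i M y| ≤ 2 * M * ‖x - y‖ := by
  have h : eta i M x - eta i M y = (lam i M x - lam i M y) * beta M (x i) +
      lam i M y * (beta M (x i) - beta M (y i)) := by
    unfold eta
    ring
  have h1 : |(lam i M x - lam i M y) * beta M (x i)| ≤ M * ‖x - y‖ := by
    rw [abs_mul, abs_of_nonneg (beta_nonneg M (x i))]
    calc |lam i M x - lam i M y| * beta M (x i) ≤ |lam i M x - lam i M y| * 1 :=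
          mul_le_mul_of_nonneg_left (beta_le_one hM _) (abs_nonneg _)
      _ ≤ M * ‖x - y‖ := by
          rw [mul_one]
          exact lam_lip i hM x y
  have h2 : |lam i M y * (beta M (x i) - beta M (y i))| ≤ M * ‖x - y‖ := by
    rw [abs_mul, abs_of_nonneg (lam_nonneg i M y)]
    calc lam i M y * |beta M (x i) - beta M (y i)| ≤ 1 * |beta M (x i) - beta M (y i)| :=
          mul_le_mul_of_nonneg_right (lam_le_one i hM _) (abs_nonneg _)
      _ ≤ M * |x i - y i| := by
          rw [one_mul]
          exact beta_lip hM _ _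
      _ ≤ M * ‖x - y‖ := by
          apply mul_le_mul_of_nonneg_left _ (by linarith)
          have := norm_le_pi_norm (x - y) i
          rwa [Pi.sub_apply, Real.norm_eq_abs] at this
  rw [h]
  have h3 := abs_add_le ((lam i M x - lam i M y) * beta M (x i))
    (lam i M y * (beta M (x i) - beta M (y i)))
  linarith

theorem eta_zero_of {d : ℕ} (i : Fin d) {M : ℝ} (hM : 1 ≤ M) (x : V d)
    (hx : ¬ (-(1 / M) < x i ∧ x i < 1 + 1 / M ∧ ∀ j, j ≠ i → |x j| < 1 / M)) :
    eta i M x = 0 := by
  have hM0 : 0 < M := by linarith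
  have hw : 0 < 1 / M := by positivity
  have hMw : M * (1 / M) = 1 := by field_simp
  unfold eta
  by_cases h1 : -(1 / M) < x i
  · by_cases h2 : x i < 1 + 1 / M
    · have h3 : ¬ ∀ j, j ≠ i → |x j| < 1 / M := fun h => hx ⟨h1, h2, h⟩
      push Not at h3
      obtain ⟨j, hj, h4⟩ := h3
      have h5 : lam i M x = 0 := by
        apply max_eq_right
        have h6 := mul_le_mul_of_nonneg_left (h4.trans (le_N i x j hj)) hM0.le
        linarith
      rw [h5, zero_mul]
    · have h5 : beta M (x i) = 0 := by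
        apply max_eq_right
        apply (min_le_right _ _).trans
        apply div_nonpos_of_nonpos_of_nonneg
        · linarith
        · linarith
      rw [h5, mul_zero]
  · have h5 : beta M (x i) = 0 := by
      apply max_eq_right
      apply (min_le_left _ _).trans
      have h6 := mul_le_mul_of_nonneg_left (not_lt.1 h1) hM0.le
      linarith
    rw [h5, mul_zero]

theorem main (h1 : S_ONE) (h2 : S_COV) : S_TUB0 := by
  intro d hd i M hM
  have hMr : (1 : ℝ) ≤ M := by exact_mod_cast hM
  have hM0 : (0 : ℝ) < M := by linarith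
  have hw : 0 < 1 / (M : ℝ) := by positivity
  have hlip : LipschitzWith (2 * (M : ℝ≥0)) (eta i (M : ℝ)) := by
    apply LipschitzWith.of_dist_le_mul
    intro x y
    rw [Real.dist_eq, dist_eq_norm]
    have := eta_lip i hMr x y
    push_cast
    exact this
  obtain ⟨h, hh, hL, hLs⟩ := h1 d i (eta i (M : ℝ)) (2 * (M : ℝ≥0))
    (1 / (M : ℝ) / (1 + 1 / (M : ℝ))) hlip (by positivity) (by
    intro x t ht
    have e1 : eta i (M : ℝ) (x + Pi.single i t) - eta i (M : ℝ) x =
        lam i (M : ℝ) x * (beta M (x i + t) - beta M (x i)) := by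
      have e2 : lam i (M : ℝ) (x + Pi.single i t) = lam i (M : ℝ) x := by
        unfold lam
        rw [N_single]
      unfold eta
      rw [e2, Pi.add_apply, Pi.single_eq_same]
      ring
    rw [e1]
    have e3 := beta_slope hMr (x i) t ht
    have e4 : (1 - 1 / (M : ℝ) / (1 + 1 / (M : ℝ))) * t = t / (1 + 1 / (M : ℝ)) := by
      field_simp
      ring
    rw [e4]
    have e5 : 0 ≤ t / (1 + 1 / (M : ℝ)) := by positivity
    have e6 := mul_le_mul_of_nonneg_left e3 (lam_nonneg i (M : ℝ) x)
    have e7 := mul_le_mul_of_nonneg_right (lam_le_one i hMr x) e5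
    linarith)
  have h0 : ∀ x, eta i (M : ℝ) x = 0 → h x = x := by
    intro x hx
    rw [hh, hx, Pi.single_zero, add_zero]
  refine ⟨h, ⟨hL, hLs, ?_⟩, ?_, ?_, ?_⟩
  · intro x hx
    exact h0 x (eta_zero_of i hMr x hx)
  · have e0 : eta i (M : ℝ) (0 : V d) = 1 := by
      unfold eta lam beta
      rw [N_zero, Pi.zero_apply, mul_zero, sub_zero, add_zero, sub_zero,
        div_self (by positivity), min_self, max_eq_left zero_le_one, mul_one]
    rw [hh, e0, zero_add]
  · intro x
    refine ⟨eta i (M : ℝ) x, mul_nonneg (lam_nonneg _ _ _) (beta_nonneg _ _), ?_, hh x⟩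
    exact mul_le_one₀ (lam_le_one i hMr x) (beta_nonneg _ _) (beta_le_one hMr _)
  · refine (measure_mono ?_).trans (h2 d hd i M hM (eta i (M : ℝ)) hlip)
    rintro p ⟨hp1, hp2⟩
    have hp3 : -(1 / (M : ℝ)) < p.1 i ∧ p.1 i < 1 + 1 / (M : ℝ) ∧
        ∀ j, j ≠ i → |p.1 j| < 1 / (M : ℝ) := by
      by_contra hcon
      apply hp2
      rw [hp1]
      exact h0 _ (eta_zero_of i hMr _ hcon)
    refine ⟨⟨hp3.1.le, hp3.2.1.le, fun j hj => (hp3.2.2 j hj).le⟩, ?_⟩
    rw [hp1, hh]

end Pool.Agent.H772.GMTUB0
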