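import Mathlib
import Pool.Agent.H638.GM.Asm
import Pool.Agent.H638.GM.One
import Pool.Agent.H638.GM.Cov
import Pool.Agent.H638.GM.Tub0
import Pool.Agent.H638.GM.Tube
import Pool.Agent.H638.GM.Gp
import Pool.Agent.H638.GM.Multi
import Pool.Agent.H638.GM.CostSwap
import Pool.Agent.H638.GM.Step
import Pool.Agent.H638.GM.Rec
import Pool.Agent.H638.GM.Lim
import Pool.Agent.H638.GM.Tail
import Pool.Agent.H638.GM.Dig
import Pool.Agent.H638.GM.Anti
import Pool.Agent.H638.GM.Low
import Pool.Agent.H638.GM.Euc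

set_option autoImplicit false

/-!
# All pieces together (helper638)
-/

namespace Pool.Agent.H638.GM

theorem t_tube : S_TUBE :=
  Pool.Agent.H407.GMTUBE.main
    (Pool.Agent.H772.GMTUB0.main Pool.Agent.H653.GMONE.main Pool.Agent.H640.GMCOV.main)

theorem t_step : S_STEP :=
  Pool.Agent.H84.GMSTEP.main Pool.Agent.H213.GMGP.main (Pool.Agent.H671.GMMULTI.main t_tube)
    Pool.Agent.H280.GMCOSTSWAP.cost

theorem t_rec : S_REC := Pool.Agent.H767.GMREC.main t_step Pool.Agent.H280.GMCOSTSWAP.swap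

theorem t_low : S_LOW :=
  Pool.Agent.H972.GMLow.main
    (Pool.Agent.H726.GMANTI.main Pool.Agent.H142.GMTAIL.main Pool.Agent.H163.GMDIG.main)

theorem t_fin : S_FIN :=
  assemble t_rec Pool.Agent.H280.GMCOSTSWAP.swap Pool.Agent.H935.GMLIM.main t_low
    Pool.Agent.H400.GMEUC.main

end Pool.Agent.H638.GM
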