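import Mathlib
import Pool.Agent.H638.GM.Fin
import Pool.Agent.H638.GM.StmB

set_option autoImplicit false

open MeasureTheory Set Filter Topology
open scoped ENNReal NNReal

namespace Pool.Agent.H638.GM

section

variable {d : ℕ}

lemma glued_off {f : ℕ → V d ≃ₜ V d} (_hf : ∀ k x, x ∉ U d → f k x = x) {G : V d ≃ₜ V d}
    (hG : Glued f G) : ∀ x, x ∉ U d → G x = x := by
  intro x hx
  refine hG.2 x fun k u hu h => hx ?_
  subst h
  intro i
  have hu' := hu i
  have hlam : 0 < lam k := by unfold lam; positivity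
  have h1 : (emb k u : V d) i = (ctr k : V d) i + lam k * u i := by
    simp [emb]
  rw [h1]
  unfold ctr
  have h2 : (1 / 2 : ℝ) ^ k = 2 * lam k := by unfold lam; rw [pow_succ]; ring
  have h3 : (1 / 2 : ℝ) ^ k ≤ 1 := pow_le_one₀ (by norm_num) (by norm_num)
  split_ifs with h
  · constructor
    · nlinarith [mul_pos hlam hu'.1]
    · nlinarith [mul_lt_mul_of_pos_left hu'.2 hlam]
  · constructor
    · nlinarith [mul_pos hlam hu'.1]
    · nlinarith [mul_lt_mul_of_pos_left hu'.2 hlam]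

lemma emb_dist (k : ℕ) (x y : V d) : dist (emb k x) (emb k y) ≤ dist x y := by
  have hlam : 0 ≤ lam k := by unfold lam; positivity
  have hlam1 : lam k ≤ 1 := by unfold lam; exact pow_le_one₀ (by norm_num) (by norm_num)
  have h : dist (emb k x) (emb k y) = lam k * dist x y := by
    unfold emb
    rw [dist_add_left, dist_smul₀, Real.norm_of_nonneg hlam]
  rw [h]
  nlinarith [dist_nonneg (x := x) (y := y)]

lemma glued_dist {f f' : ℕ → V d ≃ₜ V d} {G G' : V d ≃ₜ V d} (hG : Glued f G) (hG' : Glued f' G')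
    {r : ℝ} (hr : 0 ≤ r) (h : ∀ k x, dist (f k x) (f' k x) ≤ r) (x : V d) :
    dist (G x) (G' x) ≤ r := by
  by_cases hx : ∃ k, ∃ u ∈ U d, x = emb k u
  · obtain ⟨k, u, hu, rfl⟩ := hx
    rw [hG.1 k u hu, hG'.1 k u hu]
    exact (emb_dist k _ _).trans (h k u)
  · push_neg at hx
    rw [hG.2 x hx, hG'.2 x hx, dist_self]
    exact hr

lemma sum_lam (hd : 1 ≤ d) : ∑' k, ENNReal.ofReal (lam k) ^ d ≤ 1 := by
  have h1 : ∀ k, ENNReal.ofReal (lam k) ^ d ≤ ENNReal.ofReal (lam k) := by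
    intro k
    have hlam1 : lam k ≤ 1 := by unfold lam; exact pow_le_one₀ (by norm_num) (by norm_num)
    have h2 : ENNReal.ofReal (lam k) ≤ 1 := by
      rw [← ENNReal.ofReal_one]; exact ENNReal.ofReal_le_ofReal hlam1
    calc ENNReal.ofReal (lam k) ^ d ≤ ENNReal.ofReal (lam k) ^ 1 :=
          pow_le_pow_right_of_le_one' h2 hd
      _ = ENNReal.ofReal (lam k) := pow_one _
  refine (ENNReal.tsum_le_tsum h1).trans ?_
  have hs : HasSum lam 1 := by
    have h := hasSum_geometric_two' (1 : ℝ)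
    have e : (fun n : ℕ => (1 : ℝ) / 2 / 2 ^ n) = lam := by
      funext k
      unfold lam
      rw [pow_succ, one_div_pow]
      ring
    rw [e] at h
    exact h
  rw [← ENNReal.ofReal_tsum_of_nonneg (fun k => by unfold lam; positivity) hs.summable,
    hs.tsum_eq, ENNReal.ofReal_one]

end

theorem assembleB (hglue : S_GLUE) (hgup : S_GUP) (hglo : S_GLO) : S_INF := by
  intro d hd
  have hd1 : 1 ≤ d := by omega
  have hN : ∀ k : ℕ, 1 ≤ 32 * 2 ^ (k + 1) := fun k => by
    have := Nat.one_le_two_pow (n := k + 1)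
    omega
  choose F s m P ch hD using fun k : ℕ => t_rec d hd (32 * 2 ^ (k + 1)) (hN k)
  have hlim : ∀ k, ∃ f : V d ≃ₜ V d, (∀ x, x ∉ U d → f x = x) ∧
      ∀ n x, dist (par (F k) n x) (f x) ≤ 8 * (1 / 2 : ℝ) ^ n := fun k =>
    Pool.Agent.H935.GMLIM.main d (par (F k)) (par_off (F k) (hD k).good)
      (par_close (F k) (hD k).close1 (hD k).close2) (par_close' (F k) (hD k).close1 (hD k).close2)
  choose f hf0 hf using hlim
  have hlo : ∀ k, ((2 : ℝ≥0∞) ^ (k + 1)) ^ d ≤ μH[(d : ℝ)] (gr (f k)) := by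
    intro k
    have h1 := t_low d (32 * 2 ^ (k + 1)) (F k) (s k) (m k) (P k) (ch k) (hN k) (hD k) (f k) (hf k)
    have h2 : ((32 * 2 ^ (k + 1) : ℕ) : ℝ≥0∞) ^ d = 32 ^ d * ((2 : ℝ≥0∞) ^ (k + 1)) ^ d := by
      rw [Nat.cast_mul, mul_pow]
      push_cast
      norm_num
    rw [h2] at h1
    exact (ENNReal.mul_le_mul_iff_right (by positivity) (by finiteness)).1 h1
  obtain ⟨G, hG⟩ := hglue d hd1 f hf0
  have hGoff := glued_off hf0 hG
  have hGtop : μH[(d : ℝ)] (gr G) = ⊤ := by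
    rw [eq_top_iff]
    refine le_trans ?_ (hglo d hd1 f hf0 G hG)
    have h1 : ∀ k, (1 : ℝ≥0∞) ≤ ENNReal.ofReal (lam k) ^ d * μH[(d : ℝ)] (gr (f k)) := by
      intro k
      refine le_trans ?_ (mul_le_mul_right (hlo k) _)
      have h2 : ENNReal.ofReal (lam k) * (2 : ℝ≥0∞) ^ (k + 1) = 1 := by
        have h3 : (2 : ℝ≥0∞) ^ (k + 1) = ENNReal.ofReal ((2 : ℝ) ^ (k + 1)) := by
          rw [ENNReal.ofReal_pow (by norm_num)]
          norm_num
        rw [h3, ← ENNReal.ofReal_mul (by unfold lam; positivity)]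
        unfold lam
        rw [← mul_pow]
        norm_num
      rw [← mul_pow, h2, one_pow]
    calc (⊤ : ℝ≥0∞) = ∑' _k : ℕ, (1 : ℝ≥0∞) := by
          rw [ENNReal.tsum_const_eq_top_of_ne_zero one_ne_zero]
      _ ≤ _ := ENNReal.tsum_le_tsum h1
  obtain ⟨f', hf', hf1, -⟩ := Pool.Agent.H400.GMEUC.main d hd1 G hGoff
  refine ⟨f', ?_, (2 * (d : ℝ)) ^ d * 3, ?_⟩
  · rw [eq_top_iff, ← hGtop]
    exact hf1
  · intro ε hε
    obtain ⟨n, hn⟩ : ∃ n : ℕ, (d : ℝ) * (8 * (1 / 2 : ℝ) ^ n) < ε := by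
      have h1 : Tendsto (fun n : ℕ => (d : ℝ) * (8 * (1 / 2 : ℝ) ^ n)) atTop (𝓝 ((d : ℝ) * (8 * 0))) :=
        ((tendsto_pow_atTop_nhds_zero_of_lt_one (by norm_num) (by norm_num)).const_mul 8).const_mul _
      rw [mul_zero, mul_zero] at h1
      exact ((tendsto_order.1 h1).2 ε hε).exists
    have hpoff : ∀ k x, x ∉ U d → par (F k) n x = x := fun k => par_off (F k) (hD k).good n
    obtain ⟨H, hH⟩ := hglue d hd1 (fun k => par (F k) n) hpoff
    obtain ⟨g, hg, -, hg2⟩ := Pool.Agent.H400.GMEUC.main d hd1 H (glued_off hpoff hH)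
    refine ⟨g, ?_, ?_⟩
    · intro x
      refine lt_of_le_of_lt (dist_cube hd1 (by positivity) ?_) hn
      intro i
      rw [hf', hg]
      have h1 := glued_dist hH hG (r := 8 * (1 / 2 : ℝ) ^ n) (by positivity)
        (fun k x => hf k n x) (fun j => (x : EuclideanSpace ℝ (Fin d)) j)
      have h2 := (dist_pi_le_iff (by positivity)).1 h1 i
      rw [Real.dist_eq, abs_sub_comm] at h2
      exact h2
    · refine hg2.trans ?_
      have e1 : ENNReal.ofReal ((2 * (d : ℝ)) ^ d * 3) = (2 * (d : ℝ≥0∞)) ^ d * 3 := by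
        rw [ENNReal.ofReal_mul (by positivity), ENNReal.ofReal_pow (by positivity),
          ENNReal.ofReal_mul (by norm_num)]
        simp
      rw [e1]
      refine mul_le_mul_right ?_ _
      refine (hgup d hd1 _ hpoff H hH).trans ?_
      have h1 : ∀ k, ENNReal.ofReal (lam k) ^ d * μH[(d : ℝ)] (gr (par (F k) n)) ≤
          ENNReal.ofReal (lam k) ^ d * 2 := by
        intro k
        refine mul_le_mul_right ?_ _
        rw [par_symm_gr Pool.Agent.H280.GMCOSTSWAP.swap (F k) (hD k).good]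
        exact (hD k).meas n
      calc 1 + ∑' k, ENNReal.ofReal (lam k) ^ d * μH[(d : ℝ)] (gr (par (F k) n))
          ≤ 1 + ∑' k, ENNReal.ofReal (lam k) ^ d * 2 := by
            exact add_le_add_right (ENNReal.tsum_le_tsum h1) _
        _ = 1 + (∑' k, ENNReal.ofReal (lam k) ^ d) * 2 := by rw [ENNReal.tsum_mul_right]
        _ ≤ 1 + 1 * 2 := by gcongr; exact sum_lam hd1
        _ = 3 := by norm_num

end Pool.Agent.H638.GM
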