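import Pool.Agent.H638.GM.Stm

/-!
# GM EUC (helper400, for helper638): transfer to the Euclidean metric and to the cube
-/

set_option autoImplicit false

open MeasureTheory Set Filter Topology
open scoped ENNReal NNReal

namespace Pool.Agent.H400.GMEUC

open Pool.Agent.H638.GM

/-- The map from the Euclidean space to the product. -/
def Phi (d : ℕ) (p : EuclideanSpace ℝ (Fin d ⊕ Fin d)) : V d × V d :=
  (fun i => p (Sum.inl i), fun i => p (Sum.inr i))

/-- Its inverse. -/
def Psi (d : ℕ) (p : V d × V d) : EuclideanSpace ℝ (Fin d ⊕ Fin d) :=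
  WithLp.toLp 2 (Sum.elim p.1 p.2)

lemma Psi_inl (d : ℕ) (p : V d × V d) (i : Fin d) : Psi d p (Sum.inl i) = p.1 i := rfl

lemma Psi_inr (d : ℕ) (p : V d × V d) (i : Fin d) : Psi d p (Sum.inr i) = p.2 i := rfl

lemma Phi_Psi (d : ℕ) (p : V d × V d) : Phi d (Psi d p) = p := rfl

lemma Psi_Phi (d : ℕ) (p : EuclideanSpace ℝ (Fin d ⊕ Fin d)) : Psi d (Phi d p) = p := by
  ext i
  rcases i with i | i
  · rfl
  · rfl

lemma Phi_lip (d : ℕ) : LipschitzWith 1 (Phi d) := by
  apply LipschitzWith.of_dist_le_mul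
  intro p q
  rw [NNReal.coe_one, one_mul]
  have h : ∀ i, dist (p i) (q i) ≤ dist p q := by
    intro i
    rw [EuclideanSpace.dist_eq]
    apply Real.le_sqrt_of_sq_le
    exact Finset.single_le_sum (f := fun i => dist (p i) (q i) ^ 2) (fun j _ => sq_nonneg _)
      (Finset.mem_univ i)
  rw [Prod.dist_eq]
  refine max_le ?_ ?_
  · exact (dist_pi_le_iff dist_nonneg).2 fun i => h (Sum.inl i)
  · exact (dist_pi_le_iff dist_nonneg).2 fun i => h (Sum.inr i)

lemma Psi_lip (d : ℕ) (hd : 1 ≤ d) : LipschitzWith (2 * (d : ℝ≥0)) (Psi d) := by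
  apply LipschitzWith.of_dist_le_mul
  intro p q
  have hd' : (1 : ℝ) ≤ d := by exact_mod_cast hd
  have h : ∀ i, dist (Psi d p i) (Psi d q i) ≤ dist p q := by
    intro i
    rcases i with i | i
    · rw [Psi_inl, Psi_inl]
      exact (dist_le_pi_dist p.1 q.1 i).trans (by rw [Prod.dist_eq]; exact le_max_left _ _)
    · rw [Psi_inr, Psi_inr]
      exact (dist_le_pi_dist p.2 q.2 i).trans (by rw [Prod.dist_eq]; exact le_max_right _ _)
  have h0 : 0 ≤ dist p q := dist_nonneg
  have hc : ((2 * (d : ℝ≥0) : ℝ≥0) : ℝ) = 2 * d := by push_cast; ring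
  rw [hc, EuclideanSpace.dist_eq]
  apply Real.sqrt_le_iff.2
  refine ⟨by positivity, ?_⟩
  calc ∑ i, dist (Psi d p i) (Psi d q i) ^ 2 ≤ ∑ _i : Fin d ⊕ Fin d, dist p q ^ 2 :=
        Finset.sum_le_sum fun i _ => pow_le_pow_left₀ dist_nonneg (h i) 2
    _ = 2 * d * dist p q ^ 2 := by
        rw [Finset.sum_const, Finset.card_univ, Fintype.card_sum, Fintype.card_fin, nsmul_eq_mul]
        push_cast
        ring
    _ ≤ (2 * d * dist p q) ^ 2 := by
        rw [mul_pow]
        apply mul_le_mul_of_nonneg_right _ (sq_nonneg _)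
        nlinarith

/-- A homeomorphism which is the identity off the open cube preserves the closed cube. -/
lemma mapsQ {d : ℕ} (f : V d ≃ₜ V d) (hf : ∀ x, x ∉ U d → f x = x) (x : V d) (hx : x ∈ Q d) :
    f x ∈ Q d := by
  by_cases hU : f x ∈ U d
  · exact fun i => ⟨(hU i).1.le, (hU i).2.le⟩
  · have h1 : f x = x := f.injective (hf _ hU)
    rw [h1]
    exact hx

lemma symm_id {d : ℕ} (f : V d ≃ₜ V d) (hf : ∀ x, x ∉ U d → f x = x) (x : V d) (hx : x ∉ U d) :
    f.symm x = x := by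
  rw [Homeomorph.symm_apply_eq, hf x hx]

/-- The restriction to the cube. -/
noncomputable def res {d : ℕ} (f : V d ≃ₜ V d) (hf : ∀ x, x ∉ U d → f x = x) :
    Cube d ≃ₜ Cube d where
  toFun x := ⟨WithLp.toLp 2 (f (WithLp.ofLp x.1)), mapsQ f hf _ x.2⟩
  invFun x := ⟨WithLp.toLp 2 (f.symm (WithLp.ofLp x.1)), mapsQ f.symm (symm_id f hf) _ x.2⟩
  left_inv x := by
    apply Subtype.ext
    show WithLp.toLp 2 (f.symm (f (WithLp.ofLp x.1))) = x.1
    rw [f.symm_apply_apply]
  right_inv x := by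
    apply Subtype.ext
    show WithLp.toLp 2 (f (f.symm (WithLp.ofLp x.1))) = x.1
    rw [f.apply_symm_apply]
  continuous_toFun := by
    apply Continuous.subtype_mk
    exact (PiLp.continuous_toLp 2 _).comp (f.continuous.comp
      ((PiLp.continuous_ofLp 2 _).comp continuous_subtype_val))
  continuous_invFun := by
    apply Continuous.subtype_mk
    exact (PiLp.continuous_toLp 2 _).comp (f.symm.continuous.comp
      ((PiLp.continuous_ofLp 2 _).comp continuous_subtype_val))

lemma gr_eq {d : ℕ} (f : V d ≃ₜ V d) (hf : ∀ x, x ∉ U d → f x = x) :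
    graph (res f hf) = Psi d '' gr f := by
  ext p
  constructor
  · rintro ⟨x, h1, h2⟩
    refine ⟨Phi d p, ⟨?_, ?_⟩, Psi_Phi d p⟩
    · intro i
      show 0 ≤ p (Sum.inl i) ∧ p (Sum.inl i) ≤ 1
      rw [h1 i]
      exact x.2 i
    · have h3 : (Phi d p).1 = WithLp.ofLp x.1 := by
        funext i
        exact h1 i
      rw [h3]
      funext i
      exact h2 i
  · rintro ⟨q, ⟨hq1, hq2⟩, rfl⟩
    refine ⟨⟨WithLp.toLp 2 q.1, hq1⟩, ?_, ?_⟩
    · intro i
      rfl
    · intro i
      rw [Psi_inr, hq2]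
      rfl

theorem main : S_EUC := by
  intro d hd f hf
  have hd0 : (0 : ℝ) ≤ (d : ℝ) := Nat.cast_nonneg d
  refine ⟨res f hf, fun x i => rfl, ?_, ?_⟩
  · have h1 : gr f = Phi d '' graph (res f hf) := by
      rw [gr_eq, ← image_comp]
      have : Phi d ∘ Psi d = id := rfl
      rw [this, image_id]
    have h2 := (Phi_lip d).hausdorffMeasure_image_le hd0 (graph (res f hf))
    rw [← h1, ENNReal.coe_one, ENNReal.one_rpow, one_mul] at h2
    exact h2
  · have h2 := (Psi_lip d hd).hausdorffMeasure_image_le hd0 (gr f)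
    rw [← gr_eq f hf, ENNReal.rpow_natCast] at h2
    have h3 : ((2 * (d : ℝ≥0) : ℝ≥0) : ℝ≥0∞) = 2 * (d : ℝ≥0∞) := by push_cast; rfl
    rw [h3] at h2
    exact h2

end Pool.Agent.H400.GMEUC
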