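import Pool.Agent.H638.GM.StmB

set_option autoImplicit false

open MeasureTheory Set Filter Topology
open scoped ENNReal NNReal

namespace Pool.Agent.H975.GMBGLO

open Pool.Agent.H638.GM

theorem lam_pos (k : ℕ) : 0 < lam k := by
  unfold lam
  positivity

theorem Q_eq (d : ℕ) : Q d = Icc (0 : V d) 1 := by
  ext x
  simp only [Q, mem_ofPred_eq, mem_Icc, Pi.le_def, Pi.zero_apply, Pi.one_apply]
  exact forall_and

theorem U_eq (d : ℕ) : U d = Set.pi univ (fun _ => Ioo (0 : ℝ) 1) := by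
  ext x
  simp only [U, mem_ofPred_eq, Set.mem_pi, mem_univ, true_implies, mem_Ioo]

theorem U_sub (d : ℕ) : U d ⊆ Q d := fun _ hx i => ⟨(hx i).1.le, (hx i).2.le⟩

theorem U_open (d : ℕ) : IsOpen (U d) := by
  rw [U_eq]
  exact isOpen_set_pi finite_univ fun _ _ => isOpen_Ioo

theorem haus_diff (d : ℕ) : μH[(d : ℝ)] (Q d \ U d) = 0 := by
  have h := hausdorffMeasure_pi_real (ι := Fin d)
  rw [Fintype.card_fin] at h
  rw [h, measure_sdiff (U_sub d) (U_open d).measurableSet.nullMeasurableSet]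
  · have h1 : volume (Q d) = 1 := by
      rw [Q_eq, Real.volume_Icc_pi]
      simp
    have h2 : volume (U d) = 1 := by
      rw [U_eq, Real.volume_pi_Ioo]
      simp
    rw [h1, h2]
    simp
  · rw [U_eq, Real.volume_pi_Ioo]
    simp

theorem diag_lip (d : ℕ) : LipschitzWith 1 (fun x : V d => (x, x)) := by
  simpa using (LipschitzWith.id (α := V d)).prodMk (LipschitzWith.id (α := V d))

/-- the part of the graph over the open cube -/
def gU {d : ℕ} (f : V d ≃ₜ V d) : Set (V d × V d) := {p | p.1 ∈ U d ∧ p.2 = f p.1}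

theorem gr_le {d : ℕ} (f : V d ≃ₜ V d) (hf : ∀ x, x ∉ U d → f x = x) :
    μH[(d : ℝ)] (gr f) ≤ μH[(d : ℝ)] (gU f) := by
  have hsub : gr f ⊆ gU f ∪ (fun x : V d => (x, x)) '' (Q d \ U d) := by
    intro p hp
    by_cases h : p.1 ∈ U d
    · exact Or.inl ⟨h, hp.2⟩
    · refine Or.inr ⟨p.1, ⟨hp.1, h⟩, ?_⟩
      have h2 : p.2 = p.1 := by
        rw [hp.2]
        exact hf _ h
      exact Prod.ext rfl h2.symm
  have h1 : μH[(d : ℝ)] ((fun x : V d => (x, x)) '' (Q d \ U d)) = 0 := by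
    have h2 := (diag_lip d).hausdorffMeasure_image_le (d := (d : ℝ)) (Nat.cast_nonneg _) (Q d \ U d)
    rw [haus_diff, mul_zero] at h2
    exact nonpos_iff_eq_zero.1 h2
  calc μH[(d : ℝ)] (gr f) ≤ μH[(d : ℝ)] (gU f ∪ (fun x : V d => (x, x)) '' (Q d \ U d)) :=
        measure_mono hsub
    _ ≤ μH[(d : ℝ)] (gU f) + μH[(d : ℝ)] ((fun x : V d => (x, x)) '' (Q d \ U d)) :=
        measure_union_le _ _
    _ = μH[(d : ℝ)] (gU f) := by rw [h1, add_zero]

theorem emb_dist {d : ℕ} (k : ℕ) (x y : V d) : dist (emb k x) (emb k y) = lam k * dist x y := by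
  unfold emb
  rw [dist_add_left, dist_smul₀, Real.norm_of_nonneg (lam_pos k).le]

theorem map_anti {d : ℕ} (k : ℕ) :
    AntilipschitzWith (lam k).toNNReal⁻¹ (fun p : V d × V d => (emb k p.1, emb k p.2)) := by
  refine AntilipschitzWith.of_le_mul_dist fun p q => ?_
  rw [NNReal.coe_inv, Real.coe_toNNReal _ (lam_pos k).le, Prod.dist_eq, Prod.dist_eq]
  simp only [emb_dist]
  rw [← mul_max_of_nonneg _ _ (lam_pos k).le, ← mul_assoc, inv_mul_cancel₀ (lam_pos k).ne', one_mul]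

/-- the image of the graph is large -/
theorem image_ge {d : ℕ} (k : ℕ) (A : Set (V d × V d)) :
    ENNReal.ofReal (lam k) ^ d * μH[(d : ℝ)] A ≤
      μH[(d : ℝ)] ((fun p : V d × V d => (emb k p.1, emb k p.2)) '' A) := by
  have h := (map_anti (d := d) k).le_hausdorffMeasure_image (d := (d : ℝ)) (Nat.cast_nonneg _) A
  rw [ENNReal.rpow_natCast] at h
  have hne : (lam k).toNNReal ≠ 0 := by
    have := lam_pos k
    exact (Real.toNNReal_pos.2 this).ne'
  have h0 : ENNReal.ofReal (lam k) ≠ 0 := (ENNReal.ofReal_pos.2 (lam_pos k)).ne'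
  have ht : ENNReal.ofReal (lam k) ≠ ⊤ := ENNReal.ofReal_ne_top
  have h1 : (((lam k).toNNReal⁻¹ : ℝ≥0) : ℝ≥0∞) = (ENNReal.ofReal (lam k))⁻¹ := by
    rw [ENNReal.coe_inv hne]
    rfl
  rw [h1] at h
  calc ENNReal.ofReal (lam k) ^ d * μH[(d : ℝ)] A ≤ ENNReal.ofReal (lam k) ^ d *
        ((ENNReal.ofReal (lam k))⁻¹ ^ d *
          μH[(d : ℝ)] ((fun p : V d × V d => (emb k p.1, emb k p.2)) '' A)) := by
        gcongr
    _ = _ := by
        rw [← mul_assoc, ← mul_pow, ENNReal.mul_inv_cancel h0 ht, one_pow, one_mul]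

/-- the strip over the cube number `k` -/
def D {d : ℕ} (k : ℕ) : Set (V d × V d) := {p | (lam k)⁻¹ • (p.1 - ctr k) ∈ U d}

theorem D_meas {d : ℕ} (k : ℕ) : MeasurableSet (D (d := d) k) := by
  have h : Continuous (fun p : V d × V d => (lam k)⁻¹ • (p.1 - ctr k)) := by fun_prop
  exact ((U_open d).preimage h).measurableSet

theorem D_disj {d : ℕ} (hd : 1 ≤ d) : Pairwise (Function.onFun Disjoint (D (d := d))) := by
  have key : ∀ k l : ℕ, k < l → ∀ p : V d × V d, p ∈ D k → p ∈ D l → False := by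
    intro k l hkl p hk hl
    have h1 := (hk ⟨0, hd⟩).2
    have h2 := (hl ⟨0, hd⟩).1
    simp only [Pi.smul_apply, Pi.sub_apply, ctr, if_true, smul_eq_mul] at h1 h2
    have h3 : p.1 ⟨0, hd⟩ - (1 - (1 / 2 : ℝ) ^ k) < lam k := by
      rwa [inv_mul_lt_iff₀ (lam_pos k), mul_one] at h1
    have h4 : 0 < p.1 ⟨0, hd⟩ - (1 - (1 / 2 : ℝ) ^ l) := by
      rwa [mul_pos_iff_of_pos_left (inv_pos.2 (lam_pos l))] at h2
    have h5 : (1 / 2 : ℝ) ^ l ≤ (1 / 2) ^ (k + 1) :=
      pow_le_pow_of_le_one (by norm_num) (by norm_num) hkl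
    have h6 : lam k = (1 / 2 : ℝ) ^ (k + 1) := rfl
    have h7 : (1 / 2 : ℝ) ^ k = 2 * (1 / 2) ^ (k + 1) := by
      rw [pow_succ]
      ring
    rw [h6] at h3
    rw [h7] at h3
    linarith
  intro k l hkl
  rw [Function.onFun, Set.disjoint_left]
  intro p hk hl
  rcases lt_or_gt_of_ne hkl with h | h
  · exact key k l h p hk hl
  · exact key l k h p hl hk

theorem emb_mem {d : ℕ} (k : ℕ) {x : V d} (hx : x ∈ U d) : emb k x ∈ Q d := by
  intro i
  have h0 := lam_pos k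
  have h1 := hx i
  have h6 : lam k = (1 / 2 : ℝ) ^ (k + 1) := rfl
  have h7 : (1 / 2 : ℝ) ^ k = 2 * (1 / 2) ^ (k + 1) := by
    rw [pow_succ]
    ring
  have h8 : (1 / 2 : ℝ) ^ k ≤ 1 := pow_le_one₀ (by norm_num) (by norm_num)
  have h9 : 0 < lam k * x i := mul_pos h0 h1.1
  have h10 : lam k * x i ≤ lam k := by
    calc lam k * x i ≤ lam k * 1 := mul_le_mul_of_nonneg_left h1.2.le h0.le
      _ = lam k := mul_one _
  simp only [emb, ctr, Pi.add_apply, Pi.smul_apply, smul_eq_mul]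
  split_ifs with hi
  · constructor
    · linarith
    · rw [h7, ← h6]
      linarith
  · constructor
    · linarith
    · rw [h7, ← h6] at h8
      linarith

theorem image_sub {d : ℕ} (f : ℕ → V d ≃ₜ V d) (G : V d ≃ₜ V d) (hG : Glued f G) (k : ℕ) :
    (fun p : V d × V d => (emb k p.1, emb k p.2)) '' (gU (f k)) ⊆ D k ∩ gr G := by
  rintro _ ⟨p, hp, rfl⟩
  refine ⟨?_, emb_mem k hp.1, ?_⟩
  · have h1 : (lam k)⁻¹ • (emb k p.1 - ctr k) = p.1 := by
      unfold emb
      rw [add_sub_cancel_left, smul_smul, inv_mul_cancel₀ (lam_pos k).ne', one_smul]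
    change (lam k)⁻¹ • (emb k p.1 - ctr k) ∈ U d
    rw [h1]
    exact hp.1
  · change emb k p.2 = G (emb k p.1)
    rw [hG.1 k p.1 hp.1, hp.2]

theorem main : S_GLO := by
  intro d hd f hf G hG
  have h1 : ∀ k, ENNReal.ofReal (lam k) ^ d * μH[(d : ℝ)] (gr (f k)) ≤
      (μH[(d : ℝ)] : Measure (V d × V d)).restrict (gr G) (D k) := by
    intro k
    rw [Measure.restrict_apply (D_meas k)]
    calc ENNReal.ofReal (lam k) ^ d * μH[(d : ℝ)] (gr (f k)) ≤
          ENNReal.ofReal (lam k) ^ d * μH[(d : ℝ)] (gU (f k)) := by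
          exact mul_le_mul_of_nonneg_left (gr_le (f k) (hf k)) (by positivity)
      _ ≤ μH[(d : ℝ)] ((fun p : V d × V d => (emb k p.1, emb k p.2)) '' (gU (f k))) :=
          image_ge k _
      _ ≤ _ := measure_mono (image_sub f G hG k)
  calc ∑' k, ENNReal.ofReal (lam k) ^ d * μH[(d : ℝ)] (gr (f k)) ≤
        ∑' k, (μH[(d : ℝ)] : Measure (V d × V d)).restrict (gr G) (D k) :=
        ENNReal.tsum_le_tsum h1
    _ = (μH[(d : ℝ)] : Measure (V d × V d)).restrict (gr G) (⋃ k, D k) :=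
        (measure_iUnion (D_disj hd) D_meas).symm
    _ ≤ (μH[(d : ℝ)] : Measure (V d × V d)).restrict (gr G) univ := measure_mono (subset_univ _)
    _ = μH[(d : ℝ)] (gr G) := by rw [Measure.restrict_apply_univ]

end Pool.Agent.H975.GMBGLO
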