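import Mathlib
import Pool.Agent.H638.GM.StmB

/-!
# Project GM part B, GLUE: gluing countably many scaled homeomorphisms with disjoint supports
-/

set_option autoImplicit false

open MeasureTheory Set Filter Topology
open scoped ENNReal NNReal

namespace Pool.Agent.H549.GMBGLUE

open Pool.Agent.H638.GM

variable {d : ℕ}

/-- the inverse of `emb k` -/
noncomputable def una (k : ℕ) (x : V d) : V d := (lam k)⁻¹ • (x - ctr k)

theorem lam_pos (k : ℕ) : 0 < lam k := by
  unfold lam
  positivity

theorem emb_una (k : ℕ) (x : V d) : emb k (una k x) = x := by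
  unfold emb una
  rw [smul_smul, mul_inv_cancel₀ (lam_pos k).ne', one_smul, add_sub_cancel]

theorem una_emb (k : ℕ) (x : V d) : una k (emb k x) = x := by
  unfold emb una
  rw [add_sub_cancel_left, smul_smul, inv_mul_cancel₀ (lam_pos k).ne', one_smul]

theorem una_zero (hd : 0 < d) (k : ℕ) {x : V d} (hx : una k x ∈ U d) :
    1 - (1 / 2 : ℝ) ^ k < x ⟨0, hd⟩ ∧ x ⟨0, hd⟩ < 1 - (1 / 2 : ℝ) ^ (k + 1) := by
  have h1 := hx ⟨0, hd⟩
  have h2 := lam_pos k
  have e : una k x ⟨0, hd⟩ = (lam k)⁻¹ * (x ⟨0, hd⟩ - (1 - (1 / 2 : ℝ) ^ k)) := by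
    unfold una ctr
    simp
  rw [e] at h1
  obtain ⟨h3, h4⟩ := h1
  have h5 : 0 < x ⟨0, hd⟩ - (1 - (1 / 2 : ℝ) ^ k) := by
    rcases pos_and_pos_or_neg_and_neg_of_mul_pos h3 with h | h
    · exact h.2
    · exact absurd h.1 (not_lt.2 (inv_pos.2 h2).le)
  have h6 : x ⟨0, hd⟩ - (1 - (1 / 2 : ℝ) ^ k) < lam k := by
    rw [inv_mul_lt_iff₀ h2, mul_one] at h4
    exact h4
  have h7 : (1 / 2 : ℝ) ^ k = 2 * lam k := by
    unfold lam
    rw [pow_succ]
    ring
  have h8 : (1 / 2 : ℝ) ^ (k + 1) = lam k := rfl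
  rw [h8]
  constructor
  · linarith
  · linarith

theorem disj_lt (hd : 0 < d) {k j : ℕ} (hkj : k < j) {x : V d} (hk : una k x ∈ U d)
    (hj : una j x ∈ U d) : False := by
  have h1 := (una_zero hd k hk).2
  have h2 := (una_zero hd j hj).1
  have h3 : (1 / 2 : ℝ) ^ j ≤ (1 / 2 : ℝ) ^ (k + 1) :=
    pow_le_pow_of_le_one (by norm_num) (by norm_num) hkj
  linarith

theorem disj (hd : 0 < d) {k j : ℕ} {x : V d} (hk : una k x ∈ U d) (hj : una j x ∈ U d) :
    j = k := by
  rcases lt_trichotomy k j with h | h | h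
  · exact (disj_lt hd h hk hj).elim
  · exact h.symm
  · exact (disj_lt hd h hj hk).elim

/-- displacement of the map number `k` -/
noncomputable def term (F : V d → V d) (k : ℕ) (x : V d) : V d := emb k (F (una k x)) - x

theorem term_zero {F : V d → V d} (hF : ∀ x, x ∉ U d → F x = x) {k : ℕ} {x : V d}
    (hx : una k x ∉ U d) : term F k x = 0 := by
  unfold term
  rw [hF _ hx, emb_una, sub_self]

theorem term_norm {F : V d → V d} (hF : ∀ x, x ∉ U d → F x = x) (hU : ∀ x ∈ U d, F x ∈ U d)
    (k : ℕ) (x : V d) : ‖term F k x‖ ≤ lam k := by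
  by_cases hx : una k x ∈ U d
  · have e : term F k x = lam k • (F (una k x) - una k x) := by
      unfold term
      nth_rewrite 2 [← emb_una k x]
      unfold emb
      rw [add_sub_add_left_eq_sub, smul_sub]
    rw [e, norm_smul, Real.norm_eq_abs, abs_of_pos (lam_pos k)]
    have h1 : ‖F (una k x) - una k x‖ ≤ 1 := by
      rw [pi_norm_le_iff_of_nonneg zero_le_one]
      intro i
      have h2 := hU _ hx i
      have h3 := hx i
      rw [Pi.sub_apply, Real.norm_eq_abs, abs_le]
      constructor <;> linarith [h2.1, h2.2, h3.1, h3.2]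
    have h4 := mul_le_mul_of_nonneg_left h1 (lam_pos k).le
    rw [mul_one] at h4
    exact h4
  · rw [term_zero hF hx, norm_zero]
    exact (lam_pos k).le

theorem term_cont {F : V d → V d} (hF : Continuous F) (k : ℕ) : Continuous (term F k) := by
  have h1 : Continuous (fun x : V d => x - ctr k) := continuous_id.sub continuous_const
  have h2 : Continuous (fun x : V d => una k x) := h1.const_smul ((lam k)⁻¹)
  have h3 : Continuous (fun x : V d => lam k • F (una k x)) :=
    (hF.comp h2).const_smul (lam k)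
  exact (continuous_const.add h3).sub continuous_id

/-- the glued map -/
noncomputable def gl (F : ℕ → V d → V d) (x : V d) : V d := x + ∑' k, term (F k) k x

theorem gl_cont {F : ℕ → V d → V d} (hc : ∀ k, Continuous (F k))
    (hF : ∀ k, ∀ x, x ∉ U d → F k x = x) (hU : ∀ k, ∀ x ∈ U d, F k x ∈ U d) :
    Continuous (gl F) := by
  have hs : Summable lam := by
    have h1 : Summable (fun k : ℕ => (1 / 2 : ℝ) ^ k * (1 / 2)) :=
      (summable_geometric_of_lt_one (by norm_num) (by norm_num)).mul_right _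
    refine h1.congr fun k => ?_
    unfold lam
    rw [pow_succ]
  exact continuous_id.add (continuous_tsum (fun k => term_cont (hc k) k) hs
    (fun k x => term_norm (hF k) (hU k) k x))

theorem gl_in (hd : 0 < d) {F : ℕ → V d → V d} (hF : ∀ k, ∀ x, x ∉ U d → F k x = x) {k : ℕ}
    {x : V d} (hx : una k x ∈ U d) : gl F x = emb k (F k (una k x)) := by
  unfold gl
  rw [tsum_eq_single k (fun j hj => term_zero (hF j) (fun h => hj (disj hd hx h)))]
  unfold term
  rw [add_sub_cancel]

theorem gl_out {F : ℕ → V d → V d} (hF : ∀ k, ∀ x, x ∉ U d → F k x = x) {x : V d}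
    (hx : ∀ k, una k x ∉ U d) : gl F x = x := by
  unfold gl
  have h1 : (fun k => term (F k) k x) = fun _ => 0 := funext fun k => term_zero (hF k) (hx k)
  rw [h1, tsum_zero, add_zero]

theorem gl_inv (hd : 0 < d) {F F' : ℕ → V d → V d} (hF : ∀ k, ∀ x, x ∉ U d → F k x = x)
    (hF' : ∀ k, ∀ x, x ∉ U d → F' k x = x) (hU : ∀ k, ∀ x ∈ U d, F k x ∈ U d)
    (h : ∀ k x, F' k (F k x) = x) (x : V d) : gl F' (gl F x) = x := by
  by_cases hx : ∃ k, una k x ∈ U d
  · obtain ⟨k, hk⟩ := hx
    rw [gl_in hd hF hk]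
    have h1 : una k (emb k (F k (una k x))) ∈ U d := by
      rw [una_emb]
      exact hU k _ hk
    rw [gl_in hd hF' h1, una_emb, h, emb_una]
  · have hx' : ∀ k, una k x ∉ U d := fun k hk => hx ⟨k, hk⟩
    rw [gl_out hF hx', gl_out hF' hx']

theorem maps {g : V d ≃ₜ V d} (h : ∀ x, x ∉ U d → g x = x) : ∀ x ∈ U d, g x ∈ U d := by
  intro x hx
  by_contra hc
  have h1 := h (g x) hc
  have h2 := g.injective h1
  rw [h2] at hc
  exact hc hx

theorem main : S_GLUE := by
  intro d hd f hf
  have hd0 : 0 < d := hd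
  have hF : ∀ k, ∀ x, x ∉ U d → (f k : V d → V d) x = x := hf
  have hF' : ∀ k, ∀ x, x ∉ U d → ((f k).symm : V d → V d) x = x := by
    intro k x hx
    have h1 := hf k x hx
    nth_rewrite 1 [← h1]
    exact (f k).symm_apply_apply x
  have hU := fun k => maps (hF k)
  have hU' := fun k => maps (hF' k)
  let G : V d ≃ₜ V d :=
    { toFun := gl fun k => (f k : V d → V d)
      invFun := gl fun k => ((f k).symm : V d → V d)
      left_inv := gl_inv hd0 hF hF' hU fun k x => (f k).symm_apply_apply x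
      right_inv := gl_inv hd0 hF' hF hU' fun k x => (f k).apply_symm_apply x
      continuous_toFun := gl_cont (fun k => (f k).continuous) hF hU
      continuous_invFun := gl_cont (fun k => (f k).symm.continuous) hF' hU' }
  refine ⟨G, ?_, ?_⟩
  · intro k x hx
    have h1 : una k (emb k x) ∈ U d := by
      rw [una_emb]
      exact hx
    have h2 := gl_in hd0 hF h1
    rw [una_emb] at h2
    exact h2
  · intro x hx
    exact gl_out hF fun k hk => hx k (una k x) hk (emb_una k x).symm

end Pool.Agent.H549.GMBGLUE
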