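import Pool.Agent.H638.GM.StmB

set_option autoImplicit false

open MeasureTheory Set Filter Topology
open scoped ENNReal NNReal

namespace Pool.Agent.H860.GMBLBC

open Pool.Agent.H638.GM

/-- a map which does not increase distances does not increase diameters -/
lemma ediam_image_le_of {X Y : Type*} [PseudoMetricSpace X] [PseudoMetricSpace Y] (ψ : X → Y)
    (hψ : ∀ p q, dist (ψ p) (ψ q) ≤ dist p q) (s : Set X) :
    Metric.ediam (ψ '' s) ≤ Metric.ediam s := by
  rw [Metric.ediam_image_le_iff]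
  intro p hp q hq
  refine le_trans ?_ (Metric.edist_le_ediam_of_mem hp hq)
  rw [edist_dist, edist_dist]
  exact ENNReal.ofReal_le_ofReal (hψ p q)

/-- covering an interval by the images of sets -/
lemma cover_interval {X : Type*} [PseudoMetricSpace X] (ψ : X → ℝ)
    (hψ : ∀ p q, dist (ψ p) (ψ q) ≤ dist p q)
    (t : ℕ → Set X) (I : Set ℕ) (a b : ℝ)
    (hcov : ∀ s ∈ Icc a b, ∃ i ∈ I, ∃ p ∈ t i, ψ p = s) :
    ENNReal.ofReal (b - a) ≤ ∑' i, I.indicator (fun i => Metric.ediam (t i)) i := by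
  have hsub : Icc a b ⊆ ⋃ i, {s : ℝ | i ∈ I ∧ s ∈ ψ '' t i} := by
    intro s hs
    obtain ⟨i, hi, p, hp, hps⟩ := hcov s hs
    exact mem_iUnion.2 ⟨i, hi, p, hp, hps⟩
  calc ENNReal.ofReal (b - a) = volume (Icc a b) := Real.volume_Icc.symm
    _ ≤ volume (⋃ i, {s : ℝ | i ∈ I ∧ s ∈ ψ '' t i}) := measure_mono hsub
    _ ≤ ∑' i, volume {s : ℝ | i ∈ I ∧ s ∈ ψ '' t i} := measure_iUnion_le _
    _ ≤ ∑' i, I.indicator (fun i => Metric.ediam (t i)) i := by
        refine ENNReal.tsum_le_tsum fun i => ?_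
        by_cases hi : i ∈ I
        · rw [indicator_of_mem hi]
          calc volume {s : ℝ | i ∈ I ∧ s ∈ ψ '' t i} ≤ volume (ψ '' t i) :=
                measure_mono (fun s hs => hs.2)
            _ ≤ Metric.ediam (ψ '' t i) := Real.volume_le_diam _
            _ ≤ Metric.ediam (t i) := ediam_image_le_of ψ hψ _
        · rw [indicator_of_notMem hi]
          have h0 : {s : ℝ | i ∈ I ∧ s ∈ ψ '' t i} = ∅ := by
            ext s
            simp [hi]
          rw [h0, measure_empty]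

/-- a preconnected subset of the ambient space gives a preconnected subset of the subtype -/
lemma preconnected_sub {P : V 2 → Prop} (h : IsPreconnected {y : V 2 | y ∈ Q 2 ∧ P y}) :
    IsPreconnected {y : Q 2 | P (y : V 2)} := by
  rw [← IsInducing.subtypeVal.isPreconnected_image]
  have himg : (Subtype.val '' {y : Q 2 | P (y : V 2)} : Set (V 2)) = {y : V 2 | y ∈ Q 2 ∧ P y} := by
    ext y
    constructor
    · rintro ⟨z, hz, rfl⟩
      exact ⟨z.2, hz⟩
    · rintro ⟨hy, hP⟩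
      exact ⟨⟨y, hy⟩, hP, rfl⟩
  rw [himg]
  exact h

/-- intermediate values on a preconnected set -/
lemma ivt {X : Type*} [TopologicalSpace X] {S : Set X} (hS : IsPreconnected S) (F : X → ℝ)
    (hF : Continuous F) {a b : X} (ha : a ∈ S) (hb : b ∈ S) {s : ℝ} (h1 : F a ≤ s) (h2 : s ≤ F b) :
    ∃ y ∈ S, F y = s := by
  have := hS.intermediate_value ha hb hF.continuousOn ⟨h1, h2⟩
  exact this

lemma dist_dist_le' {X : Type*} [PseudoMetricSpace X] (c p q : X) :
    dist (dist p c) (dist q c) ≤ dist p q := by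
  rw [Real.dist_eq]
  exact abs_dist_sub_le p q c

/-- the set is covered: points of the graph -/
lemma mem_cover {g : Q 2 ≃ₜ Q 2} {x : Q 2} {r : ℝ} {t : ℕ → Set (V 2 × V 2)}
    (ht : {p | p ∈ gq g ∧ dist p ((x : V 2), (g x : V 2)) ≤ r} ⊆ ⋃ i, t i) (y : Q 2)
    (h1 : dist (y : V 2) (x : V 2) ≤ r) (h2 : dist (g y : V 2) (g x : V 2) ≤ r) :
    ∃ i, ((y : V 2), (g y : V 2)) ∈ t i := by
  have hm : ((y : V 2), (g y : V 2)) ∈ {p | p ∈ gq g ∧ dist p ((x : V 2), (g x : V 2)) ≤ r} := by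
    refine ⟨⟨y, rfl⟩, ?_⟩
    rw [Prod.dist_eq]
    exact max_le h1 h2
  exact mem_iUnion.1 (ht hm)

/-- Case 1 -/
lemma case1 (g : Q 2 ≃ₜ Q 2) (x : Q 2) (r : ℝ) (hr : 0 < r) (hr2 : r ≤ 1 / 2)
    (t : ℕ → Set (V 2 × V 2))
    (ht : {p | p ∈ gq g ∧ dist p ((x : V 2), (g x : V 2)) ≤ r} ⊆ ⋃ i, t i)
    (ρ : ℝ) (hρ0 : 0 < ρ) (hρr : ρ < r)
    (hρ : ∀ y : Q 2, dist (y : V 2) (x : V 2) = ρ → r / 2 ≤ dist (g y : V 2) (g x : V 2)) :
    ENNReal.ofReal (r ^ 2 / 4) ≤ ∑' i, Metric.ediam (t i) ^ 2 := by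
  -- the set W
  have hconv : Convex ℝ {w : V 2 | w ∈ Q 2 ∧ dist w (g x : V 2) < r / 2} := by
    have h1 : Convex ℝ (Q 2) := by
      have : Q 2 = Icc (0 : V 2) 1 := by
        ext w
        constructor
        · intro hw
          exact ⟨fun i => (hw i).1, fun i => (hw i).2⟩
        · intro hw i
          exact ⟨hw.1 i, hw.2 i⟩
      rw [this]
      exact convex_Icc _ _
    have h2 : Convex ℝ (Metric.ball (g x : V 2) (r / 2)) := convex_ball _ _
    exact h1.inter h2
  have hpre : IsPreconnected {w : Q 2 | dist (w : V 2) (g x : V 2) < r / 2} :=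
    preconnected_sub (P := fun w => dist w (g x : V 2) < r / 2) hconv.isPreconnected
  have hFc : Continuous (fun w : Q 2 => dist (g.symm w : V 2) (x : V 2)) :=
    (continuous_subtype_val.comp g.symm.continuous).dist continuous_const
  have hlt : ∀ w : Q 2, dist (w : V 2) (g x : V 2) < r / 2 → dist (g.symm w : V 2) (x : V 2) < ρ := by
    intro w hw
    by_contra hcon
    push Not at hcon
    have hx : g x ∈ {w : Q 2 | dist (w : V 2) (g x : V 2) < r / 2} := by
      show dist (g x : V 2) (g x : V 2) < r / 2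
      rw [dist_self]
      linarith
    obtain ⟨w', hw', hF⟩ := ivt hpre (fun w : Q 2 => dist (g.symm w : V 2) (x : V 2)) hFc hx hw
      (s := ρ) (by
        show dist (g.symm (g x) : V 2) (x : V 2) ≤ ρ
        rw [g.symm_apply_apply, dist_self]
        exact hρ0.le) hcon
    have h1 := hρ (g.symm w') hF
    rw [g.apply_symm_apply] at h1
    have h2 : dist (w' : V 2) (g x : V 2) < r / 2 := hw'
    linarith
  have hcov : {w : V 2 | w ∈ Q 2 ∧ dist w (g x : V 2) < r / 2} ⊆ ⋃ i, Prod.snd '' t i := by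
    rintro w ⟨hwQ, hw⟩
    have h1 := hlt ⟨w, hwQ⟩ hw
    obtain ⟨i, hi⟩ := mem_cover ht (g.symm ⟨w, hwQ⟩) (by linarith) (by
      rw [g.apply_symm_apply]
      show dist w (g x : V 2) ≤ r
      linarith)
    rw [g.apply_symm_apply] at hi
    exact mem_iUnion.2 ⟨i, _, hi, rfl⟩
  -- lower bound of the volume
  have hgx : ∀ i, 0 ≤ (g x : V 2) i ∧ (g x : V 2) i ≤ 1 := (g x).2
  obtain ⟨a, ha⟩ : ∃ a : Fin 2 → ℝ, ∀ i, ∀ s ∈ Ioo (a i) (a i + r / 2),
      0 ≤ s ∧ s ≤ 1 ∧ |s - (g x : V 2) i| < r / 2 := by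
    refine ⟨fun i => if (g x : V 2) i ≤ 1 / 2 then (g x : V 2) i else (g x : V 2) i - r / 2, ?_⟩
    intro i s hs
    have h0 := hgx i
    by_cases h : (g x : V 2) i ≤ 1 / 2
    · simp only [if_pos h] at hs
      obtain ⟨h1, h2⟩ := hs
      refine ⟨by linarith, by linarith, ?_⟩
      rw [abs_lt]
      constructor <;> linarith
    · simp only [if_neg h] at hs
      push Not at h
      obtain ⟨h1, h2⟩ := hs
      refine ⟨by linarith, by linarith, ?_⟩
      rw [abs_lt]
      constructor <;> linarith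
  have hsub : (univ : Set (Fin 2)).pi (fun i => Ioo (a i) (a i + r / 2)) ⊆
      {w : V 2 | w ∈ Q 2 ∧ dist w (g x : V 2) < r / 2} := by
    intro w hw
    refine ⟨fun i => ?_, ?_⟩
    · have := ha i (w i) (hw i (mem_univ i))
      exact ⟨this.1, this.2.1⟩
    · rw [dist_pi_lt_iff (by linarith)]
      intro i
      rw [Real.dist_eq]
      exact (ha i (w i) (hw i (mem_univ i))).2.2
  have hvol : volume ((univ : Set (Fin 2)).pi (fun i => Ioo (a i) (a i + r / 2))) =
      ENNReal.ofReal (r ^ 2 / 4) := by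
    rw [Real.volume_pi_Ioo]
    simp only [add_sub_cancel_left]
    rw [Fin.prod_univ_two, ← ENNReal.ofReal_mul (by linarith)]
    ring_nf
  calc ENNReal.ofReal (r ^ 2 / 4) = volume ((univ : Set (Fin 2)).pi (fun i => Ioo (a i) (a i + r / 2))) :=
        hvol.symm
    _ ≤ volume (⋃ i, Prod.snd '' t i) := measure_mono (hsub.trans hcov)
    _ ≤ ∑' i, volume (Prod.snd '' t i) := measure_iUnion_le _
    _ ≤ ∑' i, Metric.ediam (t i) ^ 2 := by
        refine ENNReal.tsum_le_tsum fun i => ?_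
        have h1 := Real.volume_pi_le_diam_pow (Prod.snd '' t i)
        rw [Fintype.card_fin] at h1
        refine h1.trans ?_
        have h2 : Metric.ediam (Prod.snd '' t i) ≤ Metric.ediam (t i) := by
          refine ediam_image_le_of Prod.snd (fun p q => ?_) _
          rw [Prod.dist_eq]
          exact le_max_right _ _
        exact pow_le_pow_left₀ zero_le h2 2

/-- the functions used -/
lemma fst_lip (c : V 2) (p q : V 2 × V 2) : dist (dist p.1 c) (dist q.1 c) ≤ dist p q :=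
  (dist_dist_le' c p.1 q.1).trans (by
    rw [Prod.dist_eq]
    exact le_max_left _ _)

lemma snd_lip (c : V 2) (p q : V 2 × V 2) : dist (dist p.2 c) (dist q.2 c) ≤ dist p q :=
  (dist_dist_le' c p.2 q.2).trans (by
    rw [Prod.dist_eq]
    exact le_max_right _ _)

/-- Case 2, one radius -/
lemma case2_radius (hC : S_CIRC) (g : Q 2 ≃ₜ Q 2) (x : Q 2) (r : ℝ) (hr : 0 < r) (hr2 : r ≤ 1 / 2)
    (t : ℕ → Set (V 2 × V 2))
    (ht : {p | p ∈ gq g ∧ dist p ((x : V 2), (g x : V 2)) ≤ r} ⊆ ⋃ i, t i)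
    (ρ : ℝ) (hρ1 : r / 2 < ρ) (hρ2 : ρ < r)
    (a₀ : Q 2) (ha₀ : dist (a₀ : V 2) (x : V 2) = ρ) (hg₀ : dist (g a₀ : V 2) (g x : V 2) < r / 2) :
    ENNReal.ofReal (r / 2) ≤ ∑' i, ({i | ρ ∈ (fun p : V 2 × V 2 => dist p.1 (x : V 2)) '' t i} :
      Set ℕ).indicator (fun i => Metric.ediam (t i)) i := by
  obtain ⟨hpre, a, haQ, hax, b, hbQ, hbx, hab⟩ := hC (x : V 2) x.2 ρ (by linarith) (by linarith)
  have hpre' : IsPreconnected {y : Q 2 | dist (y : V 2) (x : V 2) = ρ} :=
    preconnected_sub (P := fun y => dist y (x : V 2) = ρ) hpre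
  by_cases hall : ∀ y : Q 2, dist (y : V 2) (x : V 2) = ρ → dist (g y : V 2) (g x : V 2) ≤ r
  · have h1 : ENNReal.ofReal (ρ - 0) ≤
        ∑' i, ({i | ρ ∈ (fun p : V 2 × V 2 => dist p.1 (x : V 2)) '' t i} :
          Set ℕ).indicator (fun i => Metric.ediam (t i)) i := by
      refine cover_interval (fun p : V 2 × V 2 => dist p.1 a) (fst_lip a) t _ 0 ρ ?_
      intro s hs
      have hFc : Continuous (fun y : Q 2 => dist (y : V 2) a) :=
        continuous_subtype_val.dist continuous_const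
      obtain ⟨y, hy, hys⟩ := ivt hpre' (fun y : Q 2 => dist (y : V 2) a) hFc
        (a := ⟨a, haQ⟩) (b := ⟨b, hbQ⟩) hax hbx (s := s)
        (by
          show dist a a ≤ s
          rw [dist_self]
          exact hs.1)
        (by
          show s ≤ dist b a
          rw [dist_comm]
          exact hs.2.trans hab)
      have hy' : dist (y : V 2) (x : V 2) = ρ := hy
      obtain ⟨i, hi⟩ := mem_cover ht y (by linarith) (hall y hy')
      exact ⟨i, ⟨_, hi, hy'⟩, _, hi, hys⟩
    refine le_trans (ENNReal.ofReal_le_ofReal ?_) h1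
    linarith
  · push Not at hall
    obtain ⟨y₁, hy₁, hgy₁⟩ := hall
    have h1 : ENNReal.ofReal (r - r / 2) ≤
        ∑' i, ({i | ρ ∈ (fun p : V 2 × V 2 => dist p.1 (x : V 2)) '' t i} :
          Set ℕ).indicator (fun i => Metric.ediam (t i)) i := by
      refine cover_interval (fun p : V 2 × V 2 => dist p.2 (g x : V 2)) (snd_lip _) t _ (r / 2) r ?_
      intro s hs
      have hFc : Continuous (fun y : Q 2 => dist (g y : V 2) (g x : V 2)) :=
        (continuous_subtype_val.comp g.continuous).dist continuous_const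
      obtain ⟨y, hy, hys⟩ := ivt hpre' (fun y : Q 2 => dist (g y : V 2) (g x : V 2)) hFc
        (a := a₀) (b := y₁) ha₀ hy₁ (s := s)
        (by
          show dist (g a₀ : V 2) (g x : V 2) ≤ s
          linarith [hs.1])
        (by
          show s ≤ dist (g y₁ : V 2) (g x : V 2)
          linarith [hs.2])
      have hy' : dist (y : V 2) (x : V 2) = ρ := hy
      have hys' : dist (g y : V 2) (g x : V 2) = s := hys
      obtain ⟨i, hi⟩ := mem_cover ht y (by linarith) (by linarith [hs.2])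
      exact ⟨i, ⟨_, hi, hy'⟩, _, hi, hys⟩
    refine le_trans (ENNReal.ofReal_le_ofReal ?_) h1
    linarith

/-- Case 2 -/
lemma case2 (r : ℝ) (hr : 0 < r) (t : ℕ → Set (V 2 × V 2)) (c : V 2)
    (hrad : ∀ ρ, r / 2 < ρ → ρ < r →
      ENNReal.ofReal (r / 2) ≤ ∑' i, ({i | ρ ∈ (fun p : V 2 × V 2 => dist p.1 c) '' t i} :
        Set ℕ).indicator (fun i => Metric.ediam (t i)) i) :
    ENNReal.ofReal (r ^ 2 / 4) ≤ ∑' i, Metric.ediam (t i) ^ 2 := by
  set J : ℕ → Set ℝ := fun i => (fun p : V 2 × V 2 => dist p.1 c) '' t i with hJ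
  set H : ℕ → Set ℝ := fun i => toMeasurable volume (J i) with hH
  have hHm : ∀ i, MeasurableSet (H i) := fun i => measurableSet_toMeasurable _ _
  have hHv : ∀ i, volume (H i) ≤ Metric.ediam (t i) := by
    intro i
    calc volume (H i) = volume (J i) := measure_toMeasurable _
      _ ≤ Metric.ediam (J i) := Real.volume_le_diam _
      _ ≤ Metric.ediam (t i) := ediam_image_le_of _ (fst_lip c) _
  have hpt : ∀ ρ ∈ Ioo (r / 2) r, ENNReal.ofReal (r / 2) ≤
      ∑' i, (H i).indicator (fun _ => Metric.ediam (t i)) ρ := by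
    intro ρ hρ
    refine (hrad ρ hρ.1 hρ.2).trans (ENNReal.tsum_le_tsum fun i => ?_)
    by_cases hi : ρ ∈ J i
    · have hi' : i ∈ ({i | ρ ∈ (fun p : V 2 × V 2 => dist p.1 c) '' t i} : Set ℕ) := hi
      rw [indicator_of_mem hi', indicator_of_mem (subset_toMeasurable _ _ hi)]
    · have hi' : i ∉ ({i | ρ ∈ (fun p : V 2 × V 2 => dist p.1 c) '' t i} : Set ℕ) := hi
      rw [indicator_of_notMem hi']
      exact zero_le
  calc ENNReal.ofReal (r ^ 2 / 4) = ENNReal.ofReal (r / 2) * volume (Ioo (r / 2) r) := by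
        rw [Real.volume_Ioo, ← ENNReal.ofReal_mul (by linarith)]
        ring_nf
    _ = ∫⁻ _ρ in Ioo (r / 2) r, ENNReal.ofReal (r / 2) := by
        rw [setLIntegral_const]
    _ ≤ ∫⁻ ρ in Ioo (r / 2) r, ∑' i, (H i).indicator (fun _ => Metric.ediam (t i)) ρ :=
        setLIntegral_mono' measurableSet_Ioo hpt
    _ ≤ ∫⁻ ρ, ∑' i, (H i).indicator (fun _ => Metric.ediam (t i)) ρ :=
        setLIntegral_le_lintegral _ _
    _ = ∑' i, ∫⁻ ρ, (H i).indicator (fun _ => Metric.ediam (t i)) ρ := by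
        rw [lintegral_tsum]
        intro i
        exact (measurable_const.indicator (hHm i)).aemeasurable
    _ = ∑' i, Metric.ediam (t i) * volume (H i) := by
        refine tsum_congr fun i => ?_
        rw [lintegral_indicator_const (hHm i)]
    _ ≤ ∑' i, Metric.ediam (t i) ^ 2 := by
        refine ENNReal.tsum_le_tsum fun i => ?_
        rw [sq]
        exact mul_le_mul_right (hHv i) _

/-- **LBC** -/
theorem main (h : S_CIRC) : S_LBC := by
  intro g x r hr hr2 t ht
  by_cases hcase : ∃ ρ : ℝ, r / 2 < ρ ∧ ρ < r ∧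
      ∀ y : Q 2, dist (y : V 2) (x : V 2) = ρ → r / 2 ≤ dist (g y : V 2) (g x : V 2)
  · obtain ⟨ρ, h1, h2, h3⟩ := hcase
    exact case1 g x r hr hr2 t ht ρ (by linarith) h2 h3
  · push Not at hcase
    refine case2 r hr t (x : V 2) ?_
    intro ρ h1 h2
    obtain ⟨a₀, ha₀, hg₀⟩ := hcase ρ h1 h2
    exact case2_radius h g x r hr hr2 t ht ρ h1 h2 a₀ ha₀ hg₀

end Pool.Agent.H860.GMBLBC
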