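import Pool.Agent.H638.GM.StmB

/-!
# QLS: lower semicontinuity up to a constant in dimension two
-/

set_option autoImplicit false

open MeasureTheory Set Filter Topology
open scoped ENNReal NNReal

namespace Pool.Agent.H234.GMBQLS

open Pool.Agent.H638.GM

/-- maximal separated subsets of a compact set -/
theorem exists_sep {X : Type} [MetricSpace X] (K : Set X) (hK : IsCompact K) (δ : ℝ) (hδ : 0 < δ) :
    ∃ s : Finset X, (∀ x ∈ s, x ∈ K) ∧ (∀ x ∈ s, ∀ y ∈ s, x ≠ y → δ ≤ dist x y) ∧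
      ∀ z ∈ K, ∃ x ∈ s, dist z x < δ := by
  classical
  by_contra hcon
  push Not at hcon
  obtain ⟨t, htf, ht⟩ := Metric.totallyBounded_iff.1 hK.totallyBounded (δ / 2) (by positivity)
  have hbound : ∀ s : Finset X, (∀ x ∈ s, x ∈ K) → (∀ x ∈ s, ∀ y ∈ s, x ≠ y → δ ≤ dist x y) →
      s.card ≤ htf.toFinset.card := by
    intro s hsK hs
    have hf : ∀ x : X, ∃ y : X, x ∈ s → y ∈ t ∧ dist x y < δ / 2 := by
      intro x
      by_cases hx : x ∈ s
      · have := ht (hsK x hx)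
        simp only [mem_iUnion, Metric.mem_ball, exists_prop] at this
        obtain ⟨y, hy, hxy⟩ := this
        exact ⟨y, fun _ => ⟨hy, hxy⟩⟩
      · exact ⟨x, fun h => absurd h hx⟩
    choose f hf using hf
    refine Finset.card_le_card_of_injOn f (fun x hx => ?_) ?_
    · have := (hf x (Finset.mem_coe.1 hx)).1
      simpa using this
    · intro x hx y hy hxy
      by_contra hne
      have h1 := (hf x (Finset.mem_coe.1 hx)).2
      have h2 := (hf y (Finset.mem_coe.1 hy)).2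
      rw [hxy] at h1
      have h3 := hs x (Finset.mem_coe.1 hx) y (Finset.mem_coe.1 hy) hne
      have h4 := dist_triangle_right x y (f y)
      linarith
  have hgrow : ∀ n : ℕ, ∃ s : Finset X, (∀ x ∈ s, x ∈ K) ∧
      (∀ x ∈ s, ∀ y ∈ s, x ≠ y → δ ≤ dist x y) ∧ s.card = n := by
    intro n
    induction n with
    | zero => exact ⟨∅, by simp, by simp, by simp⟩
    | succ n ih =>
      obtain ⟨s, h1, h2, h3⟩ := ih
      obtain ⟨z, hz, hzs⟩ := hcon s h1 h2
      have hzn : z ∉ s := by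
        intro hzs'
        have := hzs z hzs'
        rw [dist_self] at this
        linarith
      refine ⟨insert z s, ?_, ?_, ?_⟩
      · intro x hx
        rcases Finset.mem_insert.1 hx with rfl | hx
        · exact hz
        · exact h1 x hx
      · intro x hx y hy hxy
        rcases Finset.mem_insert.1 hx with hx | hx
        · rcases Finset.mem_insert.1 hy with hy | hy
          · exact absurd (hx.trans hy.symm) hxy
          · rw [hx]; exact hzs y hy
        · rcases Finset.mem_insert.1 hy with hy | hy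
          · rw [hy, dist_comm]; exact hzs x hx
          · exact h2 x hx y hy hxy
      · rw [Finset.card_insert_of_notMem hzn, h3]
  obtain ⟨s, h1, h2, h3⟩ := hgrow (htf.toFinset.card + 1)
  have := hbound s h1 h2
  omega

theorem isCompact_Q : IsCompact (Q 2) := by
  have h : Q 2 = Set.Icc (0 : V 2) 1 := by
    ext x
    simp only [Q, mem_Icc, Pi.le_def]
    constructor
    · intro h; exact ⟨fun i => (h i).1, fun i => (h i).2⟩
    · intro h i; exact ⟨h.1 i, h.2 i⟩
  rw [h]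
  exact isCompact_Icc

theorem isCompact_gq (f : Q 2 ≃ₜ Q 2) : IsCompact (gq f) := by
  have : CompactSpace (Q 2) := isCompact_iff_compactSpace.1 isCompact_Q
  have h : gq f = Set.range (fun x : Q 2 => ((x : V 2), (f x : V 2))) := by
    ext p
    simp only [gq]
    constructor
    · rintro ⟨x, rfl⟩; exact ⟨x, rfl⟩
    · rintro ⟨x, rfl⟩; exact ⟨x, rfl⟩
  rw [h]
  exact isCompact_range (by fun_prop)

theorem card_bound (h : S_LBM) (f g : Q 2 ≃ₜ Q 2) (δ : ℝ) (hδ : 0 < δ) (hδ1 : δ ≤ 1)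
    (s : Finset (V 2 × V 2)) (hs : ∀ p ∈ s, p ∈ gq f)
    (hsep : ∀ p ∈ s, ∀ q ∈ s, p ≠ q → δ ≤ dist p q)
    (hfg : ∀ x, dist (f x) (g x) < δ / 8) :
    (s.card : ℝ≥0∞) * ENNReal.ofReal (δ ^ 2 / 64) ≤ μH[(2 : ℝ)] (gq g) := by
  classical
  have hx : ∀ p : V 2 × V 2, ∃ x : Q 2, p ∈ s → p = ((x : V 2), (f x : V 2)) := by
    intro p
    by_cases hp : p ∈ s
    · obtain ⟨x, hx⟩ := hs p hp
      exact ⟨x, fun _ => hx⟩
    · exact ⟨⟨0, fun i => by simp⟩, fun h => absurd h hp⟩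
  choose x hx using hx
  let A : V 2 × V 2 → Set (V 2 × V 2) := fun p =>
    {q | q ∈ gq g ∧ dist q (((x p : Q 2) : V 2), (g (x p) : V 2)) ≤ δ / 4}
  have hgm : MeasurableSet (gq g) := (isCompact_gq g).isClosed.measurableSet
  have hAm : ∀ p ∈ s, MeasurableSet (A p) := by
    intro p _
    exact hgm.inter Metric.isClosed_closedBall.measurableSet
  have hAd : (s : Set (V 2 × V 2)).PairwiseDisjoint A := by
    intro p hp q hq hpq
    refine Set.disjoint_left.2 fun z hz hz' => ?_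
    have h1 : dist z (((x p : Q 2) : V 2), (g (x p) : V 2)) ≤ δ / 4 := hz.2
    have h2 : dist z (((x q : Q 2) : V 2), (g (x q) : V 2)) ≤ δ / 4 := hz'.2
    have h3 := hsep p hp q hq hpq
    have hpp : ∀ p ∈ s, dist p (((x p : Q 2) : V 2), (g (x p) : V 2)) < δ / 8 := by
      intro p hp
      have h5 := hx p hp
      have h6 : dist p (((x p : Q 2) : V 2), (g (x p) : V 2)) =
          dist (((x p : Q 2) : V 2), (f (x p) : V 2)) (((x p : Q 2) : V 2), (g (x p) : V 2)) := by
        rw [← h5]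
      rw [h6, Prod.dist_eq, dist_self, max_lt_iff]
      exact ⟨by positivity, hfg (x p)⟩
    have h4 := hpp p hp
    have h5 := hpp q hq
    have h6 : dist p q ≤ dist p (((x p : Q 2) : V 2), (g (x p) : V 2)) +
        dist (((x p : Q 2) : V 2), (g (x p) : V 2)) z + dist z q := by
      have := dist_triangle4 p (((x p : Q 2) : V 2), (g (x p) : V 2)) z q
      exact this
    have h7 : dist z q ≤ dist z (((x q : Q 2) : V 2), (g (x q) : V 2)) +
        dist (((x q : Q 2) : V 2), (g (x q) : V 2)) q := dist_triangle _ _ _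
    have h8 : dist (((x p : Q 2) : V 2), (g (x p) : V 2)) z =
        dist z (((x p : Q 2) : V 2), (g (x p) : V 2)) := dist_comm _ _
    have h9 : dist (((x q : Q 2) : V 2), (g (x q) : V 2)) q =
        dist q (((x q : Q 2) : V 2), (g (x q) : V 2)) := dist_comm _ _
    linarith
  have hsum : ∑ p ∈ s, μH[(2 : ℝ)] (A p) = μH[(2 : ℝ)] (⋃ p ∈ s, A p) :=
    (measure_biUnion_finset hAd hAm).symm
  have hsub : (⋃ p ∈ s, A p) ⊆ gq g := by
    intro z hz
    simp only [mem_iUnion, exists_prop] at hz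
    obtain ⟨p, _, hz⟩ := hz
    exact hz.1
  have hlow : ∀ p ∈ s, ENNReal.ofReal (δ ^ 2 / 64) ≤ μH[(2 : ℝ)] (A p) := by
    intro p _
    have h1 := h g (x p) (δ / 4) (by positivity) (by linarith)
    have h2 : (δ / 4) ^ 2 / 4 = δ ^ 2 / 64 := by ring
    rw [h2] at h1
    exact h1
  calc (s.card : ℝ≥0∞) * ENNReal.ofReal (δ ^ 2 / 64)
      = ∑ _p ∈ s, ENNReal.ofReal (δ ^ 2 / 64) := by rw [Finset.sum_const, nsmul_eq_mul]
    _ ≤ ∑ p ∈ s, μH[(2 : ℝ)] (A p) := Finset.sum_le_sum hlow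
    _ = μH[(2 : ℝ)] (⋃ p ∈ s, A p) := hsum
    _ ≤ μH[(2 : ℝ)] (gq g) := measure_mono hsub

theorem main (h : S_LBM) : S_QLS := by
  classical
  intro f c hc
  obtain ⟨δ, hδ, hδ1, s, hs, hsep, hcs⟩ : ∃ δ : ℝ, 0 < δ ∧ δ ≤ 1 ∧ ∃ s : Finset (V 2 × V 2),
      (∀ p ∈ s, p ∈ gq f) ∧ (∀ p ∈ s, ∀ q ∈ s, p ≠ q → δ ≤ dist p q) ∧
      256 * c < (s.card : ℝ≥0∞) * ENNReal.ofReal (4 * δ ^ 2) := by
    by_contra hcon
    push Not at hcon
    have hδn : ∀ n : ℕ, (0 : ℝ) < 1 / ((n : ℝ) + 1) := fun n => by positivity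
    have hδn1 : ∀ n : ℕ, 1 / ((n : ℝ) + 1) ≤ 1 := fun n => by
      rw [div_le_one (by positivity)]
      have : (0 : ℝ) ≤ n := Nat.cast_nonneg n
      linarith
    have hex := fun n : ℕ => exists_sep (gq f) (isCompact_gq f) (1 / ((n : ℝ) + 1)) (hδn n)
    choose S hS1 hS2 hS3 using hex
    have hle : ∀ n, ((S n).card : ℝ≥0∞) * ENNReal.ofReal (4 * (1 / ((n : ℝ) + 1)) ^ 2) ≤ 256 * c :=
      fun n => hcon _ (hδn n) (hδn1 n) (S n) (hS1 n) (hS2 n)
    have hr : Tendsto (fun n : ℕ => ENNReal.ofReal (2 * (1 / ((n : ℝ) + 1)))) atTop (𝓝 0) := by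
      have h1 : Tendsto (fun n : ℕ => 2 * (1 / ((n : ℝ) + 1))) atTop (𝓝 (2 * 0)) :=
        tendsto_one_div_add_atTop_nhds_zero_nat.const_mul 2
      rw [mul_zero] at h1
      have h2 := ENNReal.tendsto_ofReal h1
      rwa [ENNReal.ofReal_zero] at h2
    have hdiam : ∀ n : ℕ, ∀ i : S n, Metric.ediam (Metric.closedBall (i : V 2 × V 2)
        (1 / ((n : ℝ) + 1))) ≤ ENNReal.ofReal (2 * (1 / ((n : ℝ) + 1))) := by
      intro n i
      refine Metric.ediam_le fun a ha b hb => ?_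
      rw [edist_dist]
      refine ENNReal.ofReal_le_ofReal ?_
      have h1 := Metric.mem_closedBall.1 ha
      have h2 := Metric.mem_closedBall.1 hb
      have h3 := dist_triangle_right a b (i : V 2 × V 2)
      linarith
    have hmain := Measure.hausdorffMeasure_le_liminf_sum (2 : ℝ) (gq f)
      (l := atTop) (fun n : ℕ => ENNReal.ofReal (2 * (1 / ((n : ℝ) + 1)))) hr
      (fun (n : ℕ) (i : S n) => Metric.closedBall (i : V 2 × V 2) (1 / ((n : ℝ) + 1)))
      (Eventually.of_forall hdiam)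
      (Eventually.of_forall fun n z hz => by
        obtain ⟨x, hx, hzx⟩ := hS3 n z hz
        exact mem_iUnion.2 ⟨⟨x, hx⟩, Metric.mem_closedBall.2 hzx.le⟩)
    have hb : ∀ n : ℕ, ∑ i : S n, Metric.ediam (Metric.closedBall (i : V 2 × V 2)
        (1 / ((n : ℝ) + 1))) ^ (2 : ℝ) ≤ 256 * c := by
      intro n
      refine le_trans (Finset.sum_le_sum fun i _ =>
        ENNReal.rpow_le_rpow (hdiam n i) (by norm_num : (0 : ℝ) ≤ 2)) ?_
      rw [Finset.sum_const, nsmul_eq_mul, Finset.card_univ, Fintype.card_coe]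
      refine le_trans (le_of_eq ?_) (hle n)
      congr 1
      rw [ENNReal.rpow_two, ← ENNReal.ofReal_pow (by positivity)]
      congr 1
      ring
    have hlim : liminf (fun n : ℕ => ∑ i : S n, Metric.ediam (Metric.closedBall (i : V 2 × V 2)
        (1 / ((n : ℝ) + 1))) ^ (2 : ℝ)) atTop ≤ 256 * c := by
      refine le_trans (liminf_le_liminf (Eventually.of_forall hb)) ?_
      rw [liminf_const]
    exact absurd (hmain.trans hlim) (not_le.2 hc)
  refine ⟨δ / 8, by positivity, fun g hg => ?_⟩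
  refine lt_of_lt_of_le ?_ (card_bound h f g δ hδ hδ1 s hs hsep hg)
  by_contra hcon
  push Not at hcon
  have h1 : 256 * ((s.card : ℝ≥0∞) * ENNReal.ofReal (δ ^ 2 / 64)) ≤ 256 * c :=
    mul_le_mul' le_rfl hcon
  have h2 : 256 * ((s.card : ℝ≥0∞) * ENNReal.ofReal (δ ^ 2 / 64)) =
      (s.card : ℝ≥0∞) * ENNReal.ofReal (4 * δ ^ 2) := by
    have h3 : (4 * δ ^ 2) = 256 * (δ ^ 2 / 64) := by ring
    have h4 : ENNReal.ofReal (4 * δ ^ 2) = 256 * ENNReal.ofReal (δ ^ 2 / 64) := by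
      rw [h3, ENNReal.ofReal_mul (by norm_num)]
      congr 1
      simp
    rw [h4]
    ring
  rw [h2] at h1
  exact absurd h1 (not_le.2 hcs)

end Pool.Agent.H234.GMBQLS
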