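import Mathlib
import Pool.Agent.H638.GM.StmB

/-!
# GMB TWO (helper670, for helper638): transfer of the dimension two to the Euclidean metric
-/

set_option autoImplicit false

open MeasureTheory Set Filter Topology
open scoped ENNReal NNReal

namespace Pool.Agent.H670.GMBTWO

open Pool.Agent.H638.GM

/-- The map from the Euclidean space to the product. -/
def Phi (d : ℕ) (p : EuclideanSpace ℝ (Fin d ⊕ Fin d)) : V d × V d :=
  (fun i => p (Sum.inl i), fun i => p (Sum.inr i))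

/-- Its inverse. -/
def Psi (d : ℕ) (p : V d × V d) : EuclideanSpace ℝ (Fin d ⊕ Fin d) :=
  WithLp.toLp 2 (Sum.elim p.1 p.2)

lemma Psi_inl (d : ℕ) (p : V d × V d) (i : Fin d) : Psi d p (Sum.inl i) = p.1 i := rfl

lemma Psi_inr (d : ℕ) (p : V d × V d) (i : Fin d) : Psi d p (Sum.inr i) = p.2 i := rfl

lemma Psi_Phi (d : ℕ) (p : EuclideanSpace ℝ (Fin d ⊕ Fin d)) : Psi d (Phi d p) = p := by
  ext i
  rcases i with i | i
  · rfl
  · rfl

lemma dist_apply_le {ι : Type} [Fintype ι] (p q : EuclideanSpace ℝ ι) (i : ι) :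
    dist (p i) (q i) ≤ dist p q := by
  rw [EuclideanSpace.dist_eq]
  apply Real.le_sqrt_of_sq_le
  exact Finset.single_le_sum (f := fun i => dist (p i) (q i) ^ 2) (fun j _ => sq_nonneg _)
    (Finset.mem_univ i)

lemma Phi_lip (d : ℕ) : LipschitzWith 1 (Phi d) := by
  apply LipschitzWith.of_dist_le_mul
  intro p q
  rw [NNReal.coe_one, one_mul, Prod.dist_eq]
  refine max_le ?_ ?_
  · exact (dist_pi_le_iff dist_nonneg).2 fun i => dist_apply_le p q (Sum.inl i)
  · exact (dist_pi_le_iff dist_nonneg).2 fun i => dist_apply_le p q (Sum.inr i)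

lemma Psi_lip (d : ℕ) (hd : 1 ≤ d) : LipschitzWith (2 * (d : ℝ≥0)) (Psi d) := by
  apply LipschitzWith.of_dist_le_mul
  intro p q
  have hd' : (1 : ℝ) ≤ d := by exact_mod_cast hd
  have h : ∀ i, dist (Psi d p i) (Psi d q i) ≤ dist p q := by
    intro i
    rcases i with i | i
    · rw [Psi_inl, Psi_inl]
      exact (dist_le_pi_dist p.1 q.1 i).trans (by rw [Prod.dist_eq]; exact le_max_left _ _)
    · rw [Psi_inr, Psi_inr]
      exact (dist_le_pi_dist p.2 q.2 i).trans (by rw [Prod.dist_eq]; exact le_max_right _ _)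
  have h0 : 0 ≤ dist p q := dist_nonneg
  have hc : ((2 * (d : ℝ≥0) : ℝ≥0) : ℝ) = 2 * d := by push_cast; ring
  rw [hc, EuclideanSpace.dist_eq]
  apply Real.sqrt_le_iff.2
  refine ⟨by positivity, ?_⟩
  calc ∑ i, dist (Psi d p i) (Psi d q i) ^ 2 ≤ ∑ _i : Fin d ⊕ Fin d, dist p q ^ 2 :=
        Finset.sum_le_sum fun i _ => pow_le_pow_left₀ dist_nonneg (h i) 2
    _ = 2 * d * dist p q ^ 2 := by
        rw [Finset.sum_const, Finset.card_univ, Fintype.card_sum, Fintype.card_fin, nsmul_eq_mul]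
        push_cast
        ring
    _ ≤ (2 * d * dist p q) ^ 2 := by
        rw [mul_pow]
        apply mul_le_mul_of_nonneg_right _ (sq_nonneg _)
        nlinarith

/-- the Euclidean square and the square with the sup metric -/
noncomputable def hQ : Cube 2 ≃ₜ Q 2 where
  toFun x := ⟨WithLp.ofLp x.1, fun i => x.2 i⟩
  invFun x := ⟨WithLp.toLp 2 x.1, fun i => x.2 i⟩
  left_inv _ := rfl
  right_inv _ := rfl
  continuous_toFun :=
    Continuous.subtype_mk ((PiLp.continuous_ofLp 2 _).comp continuous_subtype_val) _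
  continuous_invFun :=
    Continuous.subtype_mk ((PiLp.continuous_toLp 2 _).comp continuous_subtype_val) _

/-- the homeomorphism of the square with the sup metric -/
noncomputable def conj (g : Cube 2 ≃ₜ Cube 2) : Q 2 ≃ₜ Q 2 := hQ.symm.trans (g.trans hQ)

lemma graph_eq (g : Cube 2 ≃ₜ Cube 2) : graph g = Psi 2 '' gq (conj g) := by
  ext p
  constructor
  · rintro ⟨x, h1, h2⟩
    refine ⟨Phi 2 p, ⟨hQ x, ?_⟩, Psi_Phi 2 p⟩
    have e1 : (Phi 2 p).1 = ((hQ x : Q 2) : V 2) := by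
      funext i
      exact h1 i
    have e2 : (Phi 2 p).2 = ((conj g (hQ x) : Q 2) : V 2) := by
      have e3 : conj g (hQ x) = hQ (g x) := by
        unfold conj
        simp
      rw [e3]
      funext i
      exact h2 i
    exact Prod.ext e1 e2
  · rintro ⟨q, ⟨x, rfl⟩, rfl⟩
    exact ⟨hQ.symm x, fun i => rfl, fun i => rfl⟩

lemma gq_eq (g : Cube 2 ≃ₜ Cube 2) : gq (conj g) = Phi 2 '' graph g := by
  rw [graph_eq, ← image_comp]
  have : Phi 2 ∘ Psi 2 = id := rfl
  rw [this, image_id]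

theorem main (h : S_QLS) : S_TWO := by
  intro f c hc
  have h16 : μH[(2 : ℝ)] (graph f) ≤ 16 * μH[(2 : ℝ)] (gq (conj f)) := by
    have h2 := (Psi_lip 2 (by norm_num)).hausdorffMeasure_image_le (d := 2) (by norm_num)
      (gq (conj f))
    rw [← graph_eq f] at h2
    have h3 : (((2 * ((2 : ℕ) : ℝ≥0) : ℝ≥0) : ℝ≥0∞)) ^ (2 : ℝ) = 16 := by
      have h4 : (2 * ((2 : ℕ) : ℝ≥0) : ℝ≥0) = 4 := by norm_num
      rw [h4]
      have h5 : ((4 : ℝ≥0) : ℝ≥0∞) ^ (2 : ℝ) = ((4 : ℝ≥0) : ℝ≥0∞) ^ (2 : ℕ) := by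
        rw [← ENNReal.rpow_natCast]
        norm_num
      rw [h5]
      norm_num
    rwa [h3] at h2
  have hc2 : 256 * c < μH[(2 : ℝ)] (gq (conj f)) := by
    by_contra hcon
    rw [not_lt] at hcon
    have h4 : 4096 * c < 16 * (256 * c) := hc.trans_le (h16.trans (by gcongr))
    rw [← mul_assoc] at h4
    have h5 : (16 : ℝ≥0∞) * 256 = 4096 := by norm_num
    rw [h5] at h4
    exact lt_irrefl _ h4
  obtain ⟨ε, hε, hq⟩ := h (conj f) c hc2
  refine ⟨ε, hε, fun g hg => ?_⟩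
  have h1 : c < μH[(2 : ℝ)] (gq (conj g)) := by
    apply hq
    intro x
    have h2 := hg (hQ.symm x)
    refine lt_of_le_of_lt ?_ h2
    rw [Subtype.dist_eq, Subtype.dist_eq]
    exact (dist_pi_le_iff dist_nonneg).2 fun i => dist_apply_le _ _ i
  refine h1.trans_le ?_
  have h2 := (Phi_lip 2).hausdorffMeasure_image_le (d := 2) (by norm_num) (graph g)
  rw [← gq_eq, ENNReal.coe_one, ENNReal.one_rpow, one_mul] at h2
  exact h2

end Pool.Agent.H670.GMBTWO
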