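import Mathlib
import Pool.Agent.H638.GM.AsmB
import Pool.Agent.H638.GM.Glue
import Pool.Agent.H638.GM.Gup
import Pool.Agent.H638.GM.Glo
import Pool.Agent.H638.GM.Circ
import Pool.Agent.H638.GM.Lbc
import Pool.Agent.H638.GM.Lbm
import Pool.Agent.H638.GM.Qls
import Pool.Agent.H638.GM.Two

set_option autoImplicit false

/-!
# Part B, all pieces together (helper638)
-/

namespace Pool.Agent.H638.GM

theorem t_inf : S_INF :=
  assembleB Pool.Agent.H549.GMBGLUE.main Pool.Agent.H975.GMBGUP.main Pool.Agent.H975.GMBGLO.main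

theorem t_two : S_TWO :=
  Pool.Agent.H670.GMBTWO.main (Pool.Agent.H234.GMBQLS.main (Pool.Agent.H249.GMBLBM.main
    (Pool.Agent.H860.GMBLBC.main Pool.Agent.H32.GMBCIRC.main)))

end Pool.Agent.H638.GM
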